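import Pool.Agent.Y488.TM.Cor
import Pool.Agent.Helper653.CubFermat

/-! # Project TM: the curves `d y² = x⁵ - x` -/

set_option autoImplicit false

namespace Pool.Agent.Y488.TM

open Finset Polynomial Pool.Agent.W262.RK Pool.Agent.W262.TW

/-- `X`, `2 X + 1`, `X + 1`, `3 X + 1`, `5 X² + 4 X + 1` -/
noncomputable def g5 : Fin 5 → ℤ[X] :=
  ![X, 2 * X + 1, X + 1, 3 * X + 1, 5 * X ^ 2 + 4 * X + 1]

lemma hom_lin (a b : ℤ) (ha : a ≠ 0) {R : Type*} [CommRing R] (x w : R) :
    hom (C a * X + C b) x w = a * x + b * w := by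
  have c0 : (C a * X + C b : ℤ[X]).coeff 0 = b := by
    rw [coeff_add, coeff_C_mul, coeff_X_zero, mul_zero, coeff_C_zero, zero_add]
  have c1 : (C a * X + C b : ℤ[X]).coeff 1 = a := by
    rw [coeff_add, coeff_C_mul, coeff_X_one, mul_one, coeff_C_succ, add_zero]
  unfold hom
  rw [natDegree_linear ha, sum_range_succ, sum_range_one, c0, c1]
  ring

lemma hom_quad (a b c : ℤ) (ha : a ≠ 0) {R : Type*} [CommRing R] (x w : R) :
    hom (C a * X ^ 2 + C b * X + C c) x w = a * x ^ 2 + b * x * w + c * w ^ 2 := by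
  have c0 : (C a * X ^ 2 + C b * X + C c : ℤ[X]).coeff 0 = c := by
    rw [coeff_add, coeff_add, coeff_C_mul, coeff_C_mul, coeff_X_pow, coeff_X_zero, coeff_C_zero]
    norm_num
  have c1 : (C a * X ^ 2 + C b * X + C c : ℤ[X]).coeff 1 = b := by
    rw [coeff_add, coeff_add, coeff_C_mul, coeff_C_mul, coeff_X_pow, coeff_X_one, coeff_C_succ]
    norm_num
  have c2 : (C a * X ^ 2 + C b * X + C c : ℤ[X]).coeff 2 = a := by
    rw [coeff_add, coeff_add, coeff_C_mul, coeff_C_mul, coeff_X_pow, coeff_C_succ,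
      coeff_X_of_ne_one (by norm_num)]
    norm_num
  unfold hom
  rw [natDegree_quadratic ha, sum_range_succ, sum_range_succ, sum_range_one, c0, c1, c2]
  ring

lemma g5_0 : g5 0 = C 1 * X + C 0 := by simp [g5]
lemma g5_1 : g5 1 = C 2 * X + C 1 := by simp [g5]
lemma g5_2 : g5 2 = C 1 * X + C 1 := by simp [g5]
lemma g5_3 : g5 3 = C 3 * X + C 1 := by simp [g5]
lemma g5_4 : g5 4 = C 5 * X ^ 2 + C 4 * X + C 1 := by simp [g5]

lemma deg0 : (g5 0).natDegree = 1 := by rw [g5_0]; exact natDegree_linear one_ne_zero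
lemma deg1 : (g5 1).natDegree = 1 := by rw [g5_1]; exact natDegree_linear two_ne_zero
lemma deg2 : (g5 2).natDegree = 1 := by rw [g5_2]; exact natDegree_linear one_ne_zero
lemma deg3 : (g5 3).natDegree = 1 := by rw [g5_3]; exact natDegree_linear three_ne_zero
lemma deg4 : (g5 4).natDegree = 2 := by rw [g5_4]; exact natDegree_quadratic (by norm_num)

lemma h5_0 {R : Type*} [CommRing R] (x w : R) : hom (g5 0) x w = x := by
  rw [g5_0, hom_lin _ _ one_ne_zero]; push_cast; ring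
lemma h5_1 {R : Type*} [CommRing R] (x w : R) : hom (g5 1) x w = 2 * x + w := by
  rw [g5_1, hom_lin _ _ two_ne_zero]; push_cast; ring
lemma h5_2 {R : Type*} [CommRing R] (x w : R) : hom (g5 2) x w = x + w := by
  rw [g5_2, hom_lin _ _ one_ne_zero]; push_cast; ring
lemma h5_3 {R : Type*} [CommRing R] (x w : R) : hom (g5 3) x w = 3 * x + w := by
  rw [g5_3, hom_lin _ _ three_ne_zero]; push_cast; ring
lemma h5_4 {R : Type*} [CommRing R] (x w : R) :
    hom (g5 4) x w = 5 * x ^ 2 + 4 * x * w + w ^ 2 := by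
  rw [g5_4, hom_quad _ _ _ (by norm_num)]; push_cast; ring

/-- the values at the zeros of the linear forms -/
def v5 : Fin 5 → Fin 5 → ℤ :=
  ![![0, 1, 1, 1, 1], ![-1, 0, 1, -1, 1], ![-1, -1, 0, -2, 2], ![-1, 1, 2, 0, 2],
    ![0, 0, 0, 0, 0]]

lemma co_lin (a b : ℤ) : (C a * X + C b : ℤ[X]).coeff 0 = b ∧
    (C a * X + C b : ℤ[X]).coeff 1 = a := by
  constructor
  · rw [coeff_add, coeff_C_mul, coeff_X_zero, mul_zero, coeff_C_zero, zero_add]
  · rw [coeff_add, coeff_C_mul, coeff_X_one, mul_one, coeff_C_succ, add_zero]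

lemma co0 : (g5 0).coeff 0 = 0 ∧ (g5 0).coeff 1 = 1 := by
  rw [g5_0]; exact co_lin 1 0
lemma co1 : (g5 1).coeff 0 = 1 ∧ (g5 1).coeff 1 = 2 := by
  rw [g5_1]; exact co_lin 2 1
lemma co2 : (g5 2).coeff 0 = 1 ∧ (g5 2).coeff 1 = 1 := by
  rw [g5_2]; exact co_lin 1 1
lemma co3 : (g5 3).coeff 0 = 1 ∧ (g5 3).coeff 1 = 3 := by
  rw [g5_3]; exact co_lin 3 1

lemma val5 : ∀ i k : Fin 5, i ≠ 4 → val g5 i k = v5 i k := by
  intro i k hi
  unfold val
  have h0 := co0
  have h1 := co1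
  have h2 := co2
  have h3 := co3
  fin_cases i
  · change hom (g5 k) (-(g5 0).coeff 0) ((g5 0).coeff 1) = _
    rw [h0.1, h0.2]
    fin_cases k
    · exact (h5_0 _ _).trans (by decide)
    · exact (h5_1 _ _).trans (by decide)
    · exact (h5_2 _ _).trans (by decide)
    · exact (h5_3 _ _).trans (by decide)
    · exact (h5_4 _ _).trans (by decide)
  · change hom (g5 k) (-(g5 1).coeff 0) ((g5 1).coeff 1) = _
    rw [h1.1, h1.2]
    fin_cases k
    · exact (h5_0 _ _).trans (by decide)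
    · exact (h5_1 _ _).trans (by decide)
    · exact (h5_2 _ _).trans (by decide)
    · exact (h5_3 _ _).trans (by decide)
    · exact (h5_4 _ _).trans (by decide)
  · change hom (g5 k) (-(g5 2).coeff 0) ((g5 2).coeff 1) = _
    rw [h2.1, h2.2]
    fin_cases k
    · exact (h5_0 _ _).trans (by decide)
    · exact (h5_1 _ _).trans (by decide)
    · exact (h5_2 _ _).trans (by decide)
    · exact (h5_3 _ _).trans (by decide)
    · exact (h5_4 _ _).trans (by decide)
  · change hom (g5 k) (-(g5 3).coeff 0) ((g5 3).coeff 1) = _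
    rw [h3.1, h3.2]
    fin_cases k
    · exact (h5_0 _ _).trans (by decide)
    · exact (h5_1 _ _).trans (by decide)
    · exact (h5_2 _ _).trans (by decide)
    · exact (h5_3 _ _).trans (by decide)
    · exact (h5_4 _ _).trans (by decide)
  · exact absurd rfl hi

lemma od5 : Od g5 = {0, 1, 2, 3} := by
  ext k
  unfold Od
  rw [mem_filter]
  simp only [mem_univ, true_and]
  fin_cases k
  · exact ⟨fun _ => by decide, fun _ => by
      change Odd (g5 0).natDegree
      rw [deg0]; decide⟩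
  · exact ⟨fun _ => by decide, fun _ => by
      change Odd (g5 1).natDegree
      rw [deg1]; decide⟩
  · exact ⟨fun _ => by decide, fun _ => by
      change Odd (g5 2).natDegree
      rw [deg2]; decide⟩
  · exact ⟨fun _ => by decide, fun _ => by
      change Odd (g5 3).natDegree
      rw [deg3]; decide⟩
  · refine ⟨fun h => ?_, fun h => absurd h (by decide)⟩
    change Odd (g5 4).natDegree at h
    rw [deg4] at h
    exact absurd h (by decide)

lemma not4 {i : Fin 5} (h : i ∈ Ln g5) : i ≠ 4 := by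
  rintro rfl
  unfold Ln at h
  rw [mem_filter, deg4] at h
  exact absurd h.2 (by norm_num)

/-- the sets `T` -/
def T5 : Fin 5 → Fin 5 → Finset (Fin 5) :=
  ![![∅, {2, 3}, {1, 3}, {1, 2}, ∅], ![{2, 3}, ∅, {0, 3}, {0, 2}, ∅],
    ![{1, 3}, {0, 3}, ∅, {0, 1}, ∅], ![{1, 2}, {0, 2}, {0, 1}, ∅, ∅], ![∅, ∅, ∅, ∅, ∅]]

lemma nsq2 : ¬ IsSquare (2 : ℤ) := by decide +kernel
lemma nsqm1 : ¬ IsSquare (-1 : ℤ) := fun h => absurd h.nonneg (by norm_num)

lemma irr_lin (a b : ℤ) (ha : a ≠ 0) :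
    Irreducible ((C a * X + C b : ℤ[X]).map (Int.castRingHom ℚ)) := by
  apply irreducible_of_degree_eq_one
  have : (C a * X + C b : ℤ[X]).map (Int.castRingHom ℚ) = C (a : ℚ) * X + C (b : ℚ) := by simp
  rw [this]
  exact degree_linear (by exact_mod_cast ha)

lemma irr5_4 : Irreducible ((g5 4).map (Int.castRingHom ℚ)) := by
  have e : (g5 4).map (Int.castRingHom ℚ) = C 5 * X ^ 2 + C 4 * X + C 1 := by
    rw [g5_4, Polynomial.map_add, Polynomial.map_add, Polynomial.map_mul, Polynomial.map_mul,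
      Polynomial.map_pow, map_C, map_C, map_C, map_X]
    simp only [eq_intCast]
    norm_num
  have hd : (C (5 : ℚ) * X ^ 2 + C 4 * X + C 1).natDegree = 2 := natDegree_quadratic (by norm_num)
  rw [e, Polynomial.irreducible_iff_roots_eq_zero_of_degree_le_three (by omega) (by omega)]
  rw [Multiset.eq_zero_iff_forall_notMem]
  intro r hr
  have h0 : (C (5 : ℚ) * X ^ 2 + C 4 * X + C 1) ≠ 0 := by
    intro h
    rw [h] at hd
    simp at hd
  rw [mem_roots h0, IsRoot.def] at hr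
  simp only [eval_add, eval_mul, eval_C, eval_pow, eval_X] at hr
  nlinarith [sq_nonneg (5 * r + 2)]

lemma irr5 (k : Fin 5) : Irreducible ((g5 k).map (Int.castRingHom ℚ)) := by
  fin_cases k
  · change Irreducible ((g5 0).map (Int.castRingHom ℚ))
    rw [g5_0]; exact irr_lin _ _ one_ne_zero
  · change Irreducible ((g5 1).map (Int.castRingHom ℚ))
    rw [g5_1]; exact irr_lin _ _ two_ne_zero
  · change Irreducible ((g5 2).map (Int.castRingHom ℚ))
    rw [g5_2]; exact irr_lin _ _ one_ne_zero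
  · change Irreducible ((g5 3).map (Int.castRingHom ℚ))
    rw [g5_3]; exact irr_lin _ _ three_ne_zero
  · exact irr5_4

lemma eval_map5 (k : Fin 5) (x : ℚ) :
    ((g5 k).map (Int.castRingHom ℚ)).eval x = hom (g5 k) x 1 := by
  unfold hom
  have e1 : ((g5 k).map (Int.castRingHom ℚ)).natDegree = (g5 k).natDegree :=
    natDegree_map_eq_of_injective (RingHom.injective_int (Int.castRingHom ℚ)) _
  rw [eval_eq_sum_range, e1]
  refine sum_congr rfl fun i _ => ?_
  rw [coeff_map, one_pow, mul_one]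
  rfl

lemma assoc_zero {k l : Fin 5} (h : Associated ((g5 k).map (Int.castRingHom ℚ))
    ((g5 l).map (Int.castRingHom ℚ))) {x : ℚ} (hx : hom (g5 k) x 1 = 0) :
    hom (g5 l) x 1 = 0 := by
  rw [← eval_map5] at hx ⊢
  obtain ⟨q, hq⟩ := h.dvd
  rw [hq, eval_mul, hx, zero_mul]

lemma ass5 (k l : Fin 5) (hkl : k ≠ l) : ¬ Associated ((g5 k).map (Int.castRingHom ℚ))
    ((g5 l).map (Int.castRingHom ℚ)) := by
  intro h
  have e0 : hom (g5 0) (0 : ℚ) 1 = 0 := by rw [h5_0]
  have e1 : hom (g5 1) (-1 / 2 : ℚ) 1 = 0 := by rw [h5_1]; norm_num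
  have e2 : hom (g5 2) (-1 : ℚ) 1 = 0 := by rw [h5_2]; norm_num
  have e3 : hom (g5 3) (-1 / 3 : ℚ) 1 = 0 := by rw [h5_3]; norm_num
  have key : ∀ (k l : Fin 5), k ≠ l → k ≠ 4 → ¬ Associated ((g5 k).map (Int.castRingHom ℚ))
      ((g5 l).map (Int.castRingHom ℚ)) := by
    intro k l hkl hk h
    fin_cases k
    · have h2 := assoc_zero h e0
      fin_cases l
      · exact hkl rfl
      · have h3 : hom (g5 1) (0 : ℚ) 1 = 0 := h2
        rw [h5_1] at h3; norm_num at h3
      · have h3 : hom (g5 2) (0 : ℚ) 1 = 0 := h2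
        rw [h5_2] at h3; norm_num at h3
      · have h3 : hom (g5 3) (0 : ℚ) 1 = 0 := h2
        rw [h5_3] at h3; norm_num at h3
      · have h3 : hom (g5 4) (0 : ℚ) 1 = 0 := h2
        rw [h5_4] at h3; norm_num at h3
    · have h2 := assoc_zero h e1
      fin_cases l
      · have h3 : hom (g5 0) (-1 / 2 : ℚ) 1 = 0 := h2
        rw [h5_0] at h3; norm_num at h3
      · exact hkl rfl
      · have h3 : hom (g5 2) (-1 / 2 : ℚ) 1 = 0 := h2
        rw [h5_2] at h3; norm_num at h3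
      · have h3 : hom (g5 3) (-1 / 2 : ℚ) 1 = 0 := h2
        rw [h5_3] at h3; norm_num at h3
      · have h3 : hom (g5 4) (-1 / 2 : ℚ) 1 = 0 := h2
        rw [h5_4] at h3; norm_num at h3
    · have h2 := assoc_zero h e2
      fin_cases l
      · have h3 : hom (g5 0) (-1 : ℚ) 1 = 0 := h2
        rw [h5_0] at h3; norm_num at h3
      · have h3 : hom (g5 1) (-1 : ℚ) 1 = 0 := h2
        rw [h5_1] at h3; norm_num at h3
      · exact hkl rfl
      · have h3 : hom (g5 3) (-1 : ℚ) 1 = 0 := h2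
        rw [h5_3] at h3; norm_num at h3
      · have h3 : hom (g5 4) (-1 : ℚ) 1 = 0 := h2
        rw [h5_4] at h3; norm_num at h3
    · have h2 := assoc_zero h e3
      fin_cases l
      · have h3 : hom (g5 0) (-1 / 3 : ℚ) 1 = 0 := h2
        rw [h5_0] at h3; norm_num at h3
      · have h3 : hom (g5 1) (-1 / 3 : ℚ) 1 = 0 := h2
        rw [h5_1] at h3; norm_num at h3
      · have h3 : hom (g5 2) (-1 / 3 : ℚ) 1 = 0 := h2
        rw [h5_2] at h3; norm_num at h3
      · exact hkl rfl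
      · have h3 : hom (g5 4) (-1 / 3 : ℚ) 1 = 0 := h2
        rw [h5_4] at h3; norm_num at h3
    · exact hk rfl
  by_cases hk : k = 4
  · by_cases hl : l = 4
    · exact hkl (hk.trans hl.symm)
    · exact key l k (Ne.symm hkl) hl h.symm
  · exact key k l hkl hk h

lemma hyp5 : Hyp g5 where
  irr := irr5
  ass := ass5
  even := by
    rw [Fin.sum_univ_five, deg0, deg1, deg2, deg3, deg4]
    decide
  four := by rw [od5]; decide
  pair := by
    intro i hi k hk hik
    have hi4 := not4 hi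
    have hk4 := not4 hk
    refine ⟨T5 i k, ?_, ?_, ?_, ?_⟩
    · clear hi hk; revert i k; decide
    · clear hi hk; revert i k; decide
    · clear hi hk; rw [od5]; revert i k; decide
    · have e : ∏ l ∈ T5 i k, (val g5 i l * val g5 k l) = ∏ l ∈ T5 i k, (v5 i l * v5 k l) :=
        prod_congr rfl fun l _ => by rw [val5 i l hi4, val5 k l hk4]
      rw [e]
      have h : ∏ l ∈ T5 i k, (v5 i l * v5 k l) = 2 ∨ ∏ l ∈ T5 i k, (v5 i l * v5 k l) = -1 := by
        clear e hi hk
        revert i k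
        decide
      rcases h with h | h
      · rw [h]; exact nsq2
      · rw [h]; exact nsqm1
  quad := by
    intro _ _
    refine ⟨0, by rw [od5]; decide, 2, by rw [od5]; decide, {4}, by rw [od5]; decide, ?_⟩
    rw [prod_singleton, val5 0 4 (by decide), val5 2 4 (by decide)]
    exact nsq2

/-- Fermat's theorem on `x⁴ - y⁴ = z²` over `ℚ` -/
lemma fermat_sub {x y z : ℚ} (h : x ^ 4 - y ^ 4 = z ^ 2) : y = 0 ∨ z = 0 := by
  obtain ⟨D, hD0, X, Y, Z, hX, hY, hZ⟩ : ∃ D : ℚ, D ≠ 0 ∧ ∃ X Y Z : ℤ, x * D = X ∧ y * D = Y ∧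
      z * D ^ 2 = Z := by
    refine ⟨(x.den * y.den * z.den : ℕ), by
      have := x.den_nz; have := y.den_nz; have := z.den_nz; positivity,
      x.num * y.den * z.den, y.num * x.den * z.den, z.num * z.den * x.den ^ 2 * y.den ^ 2, ?_, ?_, ?_⟩
    · push_cast
      linear_combination (y.den * z.den : ℚ) * Rat.mul_den_eq_num x
    · push_cast
      linear_combination (x.den * z.den : ℚ) * Rat.mul_den_eq_num y
    · push_cast
      linear_combination (x.den ^ 2 * y.den ^ 2 * z.den : ℚ) * Rat.mul_den_eq_num z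
  have h1 : X ^ 4 - Y ^ 4 = Z ^ 2 := by
    have : (X : ℚ) ^ 4 - Y ^ 4 = Z ^ 2 := by
      rw [← hX, ← hY, ← hZ]
      linear_combination D ^ 4 * h
    exact_mod_cast this
  rcases cub_fermat_sub X Y Z h1 with h2 | h2
  · left
    rw [h2, Int.cast_zero] at hY
    exact (mul_eq_zero.1 hY).resolve_right hD0
  · right
    rw [h2, Int.cast_zero] at hZ
    exact (mul_eq_zero.1 hZ).resolve_right (pow_ne_zero 2 hD0)

/-- there are no points of constant type -/
lemma noconst5 {x w : ℚ} (h : ConstQ g5 x w) (hp : ∏ k, hom (g5 k) x w ≠ 0) : False := by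
  rw [Fin.prod_univ_five, h5_0, h5_1, h5_2, h5_3, h5_4] at hp
  obtain ⟨i, hi, h⟩ := h
  simp_rw [val_cast] at h
  set s := x with hs
  obtain ⟨t, ht⟩ : ∃ t : ℚ, t = w + 2 * x := ⟨_, rfl⟩
  have hw : w = t - 2 * s := by rw [ht]; ring
  have hprod : s * t * (t - s) * (t + s) * (t ^ 2 + s ^ 2) ≠ 0 := by
    intro h0
    apply hp
    rw [hw]
    linear_combination h0
  have hs0 : s ≠ 0 := by rintro h0; apply hprod; rw [h0]; ring
  have ht0 : t ≠ 0 := by rintro h0; apply hprod; rw [h0]; ring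
  have h4 : t ^ 4 - s ^ 4 ≠ 0 := by
    intro h0
    apply hprod
    linear_combination s * t * h0
  have sum4 : Even (∑ k ∈ ({4} : Finset (Fin 5)), (g5 k).natDegree) := by
    rw [sum_singleton, deg4]; decide
  have sum23 : Even (∑ k ∈ ({2, 3} : Finset (Fin 5)), (g5 k).natDegree) := by
    rw [sum_pair (by decide), deg2, deg3]; decide
  have sum01 : Even (∑ k ∈ ({0, 1} : Finset (Fin 5)), (g5 k).natDegree) := by
    rw [sum_pair (by decide), deg0, deg1]; decide
  have hi4 : i ≠ 4 := by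
    rintro rfl
    rw [deg4] at hi
    omega
  by_cases i0 : i = 0
  · subst i0
    obtain ⟨a, ha⟩ := h {4} (by decide) sum4
    obtain ⟨b, hb⟩ := h {2, 3} (by decide) sum23
    rw [prod_singleton, h5_4, val5 0 4 (by decide)] at ha
    rw [prod_pair (by decide), h5_2, h5_3, val5 0 2 (by decide), val5 0 3 (by decide)] at hb
    have ha' : (5 * s ^ 2 + 4 * s * w + w ^ 2) * ((1 : ℤ) : ℚ) = a * a := ha
    have hb' : (s + w) * ((1 : ℤ) : ℚ) * ((3 * s + w) * ((1 : ℤ) : ℚ)) = b * b := hb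
    rw [hw] at ha' hb'
    push_cast at ha' hb'
    have h1 : t ^ 4 - s ^ 4 = (a * b) ^ 2 := by
      have : (a * b) ^ 2 = (a * a) * (b * b) := by ring
      rw [this, ← ha', ← hb']
      ring
    rcases fermat_sub h1 with h2 | h2
    · exact hs0 h2
    · rw [h2] at h1
      exact h4 (by rw [h1]; ring)
  by_cases i1 : i = 1
  · subst i1
    obtain ⟨a, ha⟩ := h {4} (by decide) sum4
    obtain ⟨b, hb⟩ := h {2, 3} (by decide) sum23
    rw [prod_singleton, h5_4, val5 1 4 (by decide)] at ha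
    rw [prod_pair (by decide), h5_2, h5_3, val5 1 2 (by decide), val5 1 3 (by decide)] at hb
    have ha' : (5 * s ^ 2 + 4 * s * w + w ^ 2) * ((1 : ℤ) : ℚ) = a * a := ha
    have hb' : (s + w) * ((1 : ℤ) : ℚ) * ((3 * s + w) * ((-1 : ℤ) : ℚ)) = b * b := hb
    rw [hw] at ha' hb'
    push_cast at ha' hb'
    have h1 : s ^ 4 - t ^ 4 = (a * b) ^ 2 := by
      have : (a * b) ^ 2 = (a * a) * (b * b) := by ring
      rw [this, ← ha', ← hb']
      ring
    rcases fermat_sub h1 with h2 | h2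
    · exact ht0 h2
    · rw [h2] at h1
      exact h4 (by linear_combination -h1)
  -- the last two cases
  have last : ∀ a b : ℚ, (s * t) ^ 2 = a ^ 4 → 2 * (t ^ 2 + s ^ 2) = b * b → False := by
    intro a b h1 h2
    have h3 : b ^ 4 - (2 * a) ^ 4 = (2 * (t ^ 2 - s ^ 2)) ^ 2 := by
      have e : b ^ 4 = (b * b) * (b * b) := by ring
      rw [e, ← h2]
      linear_combination 16 * h1
    rcases fermat_sub h3 with h5 | h5
    · have ha : a = 0 := by linarith
      rw [ha] at h1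
      have : s * t = 0 := by
        have h6 : (s * t) ^ 2 = 0 := by rw [h1]; ring
        exact pow_eq_zero_iff two_ne_zero |>.1 h6
      exact mul_ne_zero hs0 ht0 this
    · apply h4
      linear_combination (1 / 2) * (t ^ 2 + s ^ 2) * h5
  by_cases i2 : i = 2
  · subst i2
    obtain ⟨b, hb⟩ := h {4} (by decide) sum4
    obtain ⟨a, ha⟩ := h {0, 1} (by decide) sum01
    rw [prod_singleton, h5_4, val5 2 4 (by decide)] at hb
    rw [prod_pair (by decide), h5_0, h5_1, val5 2 0 (by decide), val5 2 1 (by decide)] at ha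
    have hb' : (5 * s ^ 2 + 4 * s * w + w ^ 2) * ((2 : ℤ) : ℚ) = b * b := hb
    have ha' : s * ((-1 : ℤ) : ℚ) * ((2 * s + w) * ((-1 : ℤ) : ℚ)) = a * a := ha
    rw [hw] at ha' hb'
    push_cast at ha' hb'
    refine last a b ?_ ?_
    · have e : a ^ 4 = (a * a) * (a * a) := by ring
      rw [e, ← ha']
      ring
    · rw [← hb']; ring
  by_cases i3 : i = 3
  · subst i3
    obtain ⟨b, hb⟩ := h {4} (by decide) sum4
    obtain ⟨a, ha⟩ := h {0, 1} (by decide) sum01
    rw [prod_singleton, h5_4, val5 3 4 (by decide)] at hb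
    rw [prod_pair (by decide), h5_0, h5_1, val5 3 0 (by decide), val5 3 1 (by decide)] at ha
    have hb' : (5 * s ^ 2 + 4 * s * w + w ^ 2) * ((2 : ℤ) : ℚ) = b * b := hb
    have ha' : s * ((-1 : ℤ) : ℚ) * ((2 * s + w) * ((1 : ℤ) : ℚ)) = a * a := ha
    rw [hw] at ha' hb'
    push_cast at ha' hb'
    refine last a b ?_ ?_
    · have e : a ^ 4 = (a * a) * (a * a) := by ring
      rw [e, ← ha']
      ring
    · rw [← hb']; ring
  revert i0 i1 i2 i3 hi4
  clear h hi
  revert i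
  decide

theorem ex5 : ∃ δ : ℝ, 0 < δ ∧ ∃ C : ℝ, ∀ X : ℕ, 3 ≤ X →
    ({d : ℤ | d.natAbs ≤ X ∧ Squarefree d ∧
      {p : ℚ × ℚ | (d : ℚ) * p.2 ^ 2 = p.1 ^ 5 - p.1} ≠ {(0, 0), (1, 0), (-1, 0)}}.ncard : ℝ) ≤
      C * X * (Real.log X) ^ (-δ) := by
  obtain ⟨δ, hδ, C, hC⟩ := main g5 hyp5
  refine ⟨δ, hδ, C, fun X hX => le_trans ?_ (hC X hX)⟩
  refine Nat.cast_le.2 (Set.ncard_le_ncard ?_ (Pool.Agent.TH213.SP.fin_le X _))
  rintro d ⟨h1, h2, h3⟩
  refine ⟨h1, h2, ?_⟩
  by_contra hno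
  push Not at hno
  apply h3
  have hd0 : (d : ℚ) ≠ 0 := by exact_mod_cast h2.ne_zero
  ext ⟨x, y⟩
  simp only [Set.mem_ofPred_eq, Set.mem_insert_iff, Set.mem_singleton_iff, Prod.mk.injEq]
  constructor
  · intro h
    have hy : y = 0 := by
      by_contra hy
      have hP : PointQ g5 d 1 (x - 2) y := by
        refine ⟨hy, ?_⟩
        rw [Fin.prod_univ_five, h5_0, h5_1, h5_2, h5_3, h5_4, h]
        ring
      refine noconst5 (hno 1 (x - 2) y hP) ?_
      rw [← hP.2]
      exact mul_ne_zero hd0 (pow_ne_zero 2 hy)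
    subst hy
    have h5 : x * ((x - 1) * ((x + 1) * (x ^ 2 + 1))) = 0 := by linear_combination -h
    rcases mul_eq_zero.1 h5 with h6 | h6
    · exact Or.inl ⟨h6, rfl⟩
    rcases mul_eq_zero.1 h6 with h6 | h6
    · exact Or.inr (Or.inl ⟨by linarith, rfl⟩)
    rcases mul_eq_zero.1 h6 with h6 | h6
    · exact Or.inr (Or.inr ⟨by linarith, rfl⟩)
    · exfalso
      nlinarith [sq_nonneg x]
  · rintro (⟨rfl, rfl⟩ | ⟨rfl, rfl⟩ | ⟨rfl, rfl⟩) <;> norm_num

end Pool.Agent.Y488.TM
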