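import Pool.Agent.Y488.TM.Stm

/-!
# Project TM (helper488): the local version, statements
-/

set_option autoImplicit false

namespace Pool.Agent.Y488.TM

open Finset Polynomial Pool.Agent.W262.RK Pool.Agent.W262.TW

section K

variable {K : Type} [Fintype K] [DecidableEq K]

/-- some covering `F k (x, w) = δ k * y k ^ 2` of the curve `d y² = ∏ k, F k (x, w)` of nonconstant
type has points over all `ℚ_p` -/
def BadL (f : K → ℤ[X]) (d : ℤ) : Prop := ∃ δ : K → ℤ, (∀ k, δ k ≠ 0) ∧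
  IsSquare (d * ∏ k, δ k) ∧ (∀ (p : ℕ) [Fact p.Prime], HasPt f δ ℚ_[p]) ∧
  NCG (val f) (Ln f) (Od f) δ

end K

/-- REDL: reduction of the twists with a locally soluble covering of nonconstant type to tuples
(adapt `W311.TW.red3` and `W500.TW.reds`) -/
def REDL : Prop := ∀ (K : Type) [Fintype K] [DecidableEq K] (f : K → ℤ[X]),
  (∀ k, Irreducible ((f k).map (Int.castRingHom ℚ))) →
  (∀ k l, k ≠ l → ¬ Associated ((f k).map (Int.castRingHom ℚ)) ((f l).map (Int.castRingHom ℚ))) →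
  4 ≤ (Od f).card → Even (Od f).card →
  ∃ z0 : ℕ, ∀ z, z0 ≤ z → ∀ X : ℕ,
    {d : ℤ | d.natAbs ≤ X ∧ Squarefree d ∧ BadL f d}.ncard ≤
      (EE z).card * ∑ κ ∈ Fintype.piFinset (fun _ : K => EE z),
        cntG z X κ (Tog (Od f) (Th f)) (val f) (Ln f) (Od f)

/-- PLOC: the coverings at a prime `p > z0`: the prime divides at most one or all but at most one of
the `δ k`, `k` of odd degree; in the first case it divides at most one `δ i`, and the signs of the
others are known -/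
def PLOC : Prop := ∀ (K : Type) [Fintype K] [DecidableEq K] (f : K → ℤ[X]),
  (∀ k, Irreducible ((f k).map (Int.castRingHom ℚ))) →
  (∀ k l, k ≠ l → ¬ Associated ((f k).map (Int.castRingHom ℚ)) ((f l).map (Int.castRingHom ℚ))) →
  4 ≤ (Od f).card →
  ∃ z0 : ℕ, ∀ (p : ℕ) [Fact p.Prime], z0 < p → ∀ δ : K → ℤ, (∀ k, Squarefree (δ k)) →
    HasPt f δ ℚ_[p] →
    (((Od f).filter (fun k => (p : ℤ) ∣ δ k)).card ≤ 1 ∨
      (Od f).card ≤ ((Od f).filter (fun k => (p : ℤ) ∣ δ k)).card + 1) ∧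
    (((Od f).filter (fun k => (p : ℤ) ∣ δ k)).card ≤ 1 → ∀ i, (p : ℤ) ∣ δ i →
      (∀ k, k ≠ i → ¬ (p : ℤ) ∣ δ k) ∧ ngs δ i p ∈ Tog (Od f) (Th f) i p)

end Pool.Agent.Y488.TM
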