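import Pool.Agent.Y488.TM.Fin
import Pool.Agent.Y488.TM.StmL

/-! # Project TM: the final estimate, general form and local form -/

set_option autoImplicit false

namespace Pool.Agent.Y488.TM

open Finset Polynomial Filter Pool.Agent.W262.RK Pool.Agent.W262.TW

theorem fing (h3 : KEYG) (h4 : PRG) (h5 : LINM) (h6 : ANTM) (K : Type) [Fintype K]
    [DecidableEq K] (f : K → ℤ[X]) (P : ℤ → Prop)
    (hirr : ∀ k, Irreducible ((f k).map (Int.castRingHom ℚ)))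
    (hass : ∀ k l, k ≠ l →
      ¬ Associated ((f k).map (Int.castRingHom ℚ)) ((f l).map (Int.castRingHom ℚ)))
    (hO : 4 ≤ (Od f).card)
    (hpair : ∀ i ∈ Ln f, ∀ k ∈ Ln f, i ≠ k → ∃ T : Finset K, i ∉ T ∧ k ∉ T ∧
      Even (T ∩ Od f).card ∧ ¬ IsSquare (∏ l ∈ T, (val f i l * val f k l)))
    (hfour : (Od f).card = 4 → Od f ⊆ Ln f → ∃ i ∈ Od f, ∃ k ∈ Od f, ∃ T : Finset K,
      Disjoint T (Od f) ∧ ¬ IsSquare (∏ l ∈ T, (val f i l * val f k l)))
    (hred : ∃ z0 : ℕ, ∀ z, z0 ≤ z → ∀ X : ℕ,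
      {d : ℤ | d.natAbs ≤ X ∧ Squarefree d ∧ P d}.ncard ≤
        (EE z).card * ∑ κ ∈ Fintype.piFinset (fun _ : K => EE z),
          cntG z X κ (Tog (Od f) (Th f)) (val f) (Ln f) (Od f)) :
    ∃ δ : ℝ, 0 < δ ∧ ∃ C : ℝ, ∀ X : ℕ, 3 ≤ X →
      ({d : ℤ | d.natAbs ≤ X ∧ Squarefree d ∧ P d}.ncard : ℝ) ≤
        C * X * (Real.log X) ^ (-δ) := by
  classical
  obtain ⟨z1, hz1⟩ := hred
  obtain ⟨hval, z3, hz3⟩ := h5 K f hirr hass
  obtain ⟨η, hη, hη1, z2, hz2⟩ := h4 K (Th f) (val f) (Ln f) (Od f) (Ln_sub f) hO hval hpair hfour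
    (Th_sub f) (fun i hi => by
      apply h6 K f hirr i
      have e1 : ((f i).map (Int.castRingHom ℚ)).natDegree = (f i).natDegree :=
        natDegree_map_eq_of_injective (RingHom.injective_int (Int.castRingHom ℚ)) _
      have e2 : 0 < ((f i).map (Int.castRingHom ℚ)).natDegree := (hirr i).natDegree_pos
      have e3 : (f i).natDegree ≠ 1 := by
        intro h
        apply hi
        unfold Ln
        rw [mem_filter]
        exact ⟨mem_univ _, h⟩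
      omega) ⟨z3, hz3⟩
  set z := max (max z1 z2) 2 with hz
  have hz1' : z1 ≤ z := (le_max_left _ _).trans (le_max_left _ _)
  have hz2' : z2 ≤ z := (le_max_right _ _).trans (le_max_left _ _)
  have hz3' : 2 ≤ z := le_max_right _ _
  obtain ⟨C4, hC4, hPw⟩ := hz2 z hz2'
  set Θ := Tog (Od f) (Th f) with hΘ
  have hkey : ∀ κ : K → ℤ, ∃ C : ℝ, 0 ≤ C ∧ (κ ∈ Fintype.piFinset (fun _ : K => EE z) →
      ∀ᶠ X : ℕ in atTop, (cntG z X κ Θ (val f) (Ln f) (Od f) : ℝ) ≤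
        C * X * (Real.log X) ^ (-(η / 5))) := by
    intro κ
    by_cases hκ : κ ∈ Fintype.piFinset (fun _ : K => EE z)
    · obtain ⟨C, hC0, hC⟩ := h3 K Θ (val f) (Ln f) (Od f) z C4 η κ hz3' hC4 hη hη1 hκ
        (Tog_sub _ _ (Th_sub f)) (hPw κ hκ)
      exact ⟨C, hC0, fun _ => hC⟩
    · exact ⟨0, le_rfl, fun h => absurd h hκ⟩
  choose Cκ hC0 hCκ using hkey
  set C1 : ℝ := (EE z).card * ∑ κ ∈ Fintype.piFinset (fun _ : K => EE z), Cκ κ with hC1
  have hC10 : 0 ≤ C1 := mul_nonneg (Nat.cast_nonneg _) (Finset.sum_nonneg fun κ _ => hC0 κ)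
  have hev : ∀ᶠ X : ℕ in atTop,
      ({d : ℤ | d.natAbs ≤ X ∧ Squarefree d ∧ P d}.ncard : ℝ) ≤
        C1 * X * (Real.log X) ^ (-(η / 5)) := by
    have hall : ∀ᶠ X : ℕ in atTop, ∀ κ ∈ Fintype.piFinset (fun _ : K => EE z),
        (cntG z X κ Θ (val f) (Ln f) (Od f) : ℝ) ≤ Cκ κ * X * (Real.log X) ^ (-(η / 5)) := by
      rw [Filter.eventually_all_finset]
      exact fun κ hκ => hCκ κ hκ
    filter_upwards [hall] with X hX
    have e1 := hz1 z hz1' X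
    have e2 : ({d : ℤ | d.natAbs ≤ X ∧ Squarefree d ∧ P d}.ncard : ℝ) ≤
        (EE z).card * ∑ κ ∈ Fintype.piFinset (fun _ : K => EE z),
          (cntG z X κ Θ (val f) (Ln f) (Od f) : ℝ) := by
      exact_mod_cast e1
    refine e2.trans ?_
    calc _ ≤ ((EE z).card : ℝ) * ∑ κ ∈ Fintype.piFinset (fun _ : K => EE z),
          Cκ κ * X * (Real.log X) ^ (-(η / 5)) :=
          mul_le_mul_of_nonneg_left (Finset.sum_le_sum hX) (Nat.cast_nonneg _)
      _ = C1 * X * (Real.log X) ^ (-(η / 5)) := by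
          rw [← Finset.sum_mul, ← Finset.sum_mul, hC1]
          ring
  obtain ⟨X0, hX0⟩ := eventually_atTop.mp hev
  set D : ℝ := (Real.log (X0 + 3)) ^ (η / 5) with hD
  have hD0 : 0 ≤ D := Real.rpow_nonneg (Real.log_nonneg (by
    have : (0 : ℝ) ≤ X0 := Nat.cast_nonneg _
    linarith)) _
  refine ⟨η / 5, by positivity, C1 + 3 * D, fun X hX3 => ?_⟩
  have hX3' : (3 : ℝ) ≤ X := by exact_mod_cast hX3
  have hlog : 0 < Real.log (X : ℝ) := Real.log_pos (by linarith)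
  have hlp : 0 < Real.log (X : ℝ) ^ (-(η / 5)) := Real.rpow_pos_of_pos hlog _
  rcases le_or_gt X0 X with h | h
  · refine (hX0 X h).trans ?_
    have : 0 ≤ 3 * D * X * (Real.log X) ^ (-(η / 5)) := by positivity
    nlinarith
  · have e1 : {d : ℤ | d.natAbs ≤ X ∧ Squarefree d ∧ P d} ⊆
        (Finset.Icc (-(X : ℤ)) X : Finset ℤ) := by
      intro d hd
      have h5 : d.natAbs ≤ X := hd.1
      rw [Finset.coe_Icc, Set.mem_Icc]
      omega
    have e2 := Set.ncard_le_ncard e1 (Finset.finite_toSet _)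
    rw [Set.ncard_coe_finset, Int.card_Icc] at e2
    have e3 : ({d : ℤ | d.natAbs ≤ X ∧ Squarefree d ∧ P d}.ncard : ℝ) ≤ 3 * X := by
      have : {d : ℤ | d.natAbs ≤ X ∧ Squarefree d ∧ P d}.ncard ≤ 3 * X := by omega
      exact_mod_cast this
    refine e3.trans ?_
    have e4 : 1 ≤ D * Real.log (X : ℝ) ^ (-(η / 5)) := by
      rw [Real.rpow_neg hlog.le, ← div_eq_mul_inv, le_div_iff₀ (Real.rpow_pos_of_pos hlog _),
        one_mul, hD]
      apply Real.rpow_le_rpow hlog.le _ (by positivity)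
      apply Real.log_le_log (by linarith)
      have : (X : ℝ) ≤ X0 := by exact_mod_cast h.le
      linarith
    have e5 : 0 ≤ C1 * X * (Real.log X) ^ (-(η / 5)) := by positivity
    have e6 : 3 * (X : ℝ) * 1 ≤ 3 * X * (D * Real.log (X : ℝ) ^ (-(η / 5))) :=
      mul_le_mul_of_nonneg_left e4 (by positivity)
    calc 3 * (X : ℝ) = 3 * X * 1 := by ring
      _ ≤ 3 * X * (D * Real.log (X : ℝ) ^ (-(η / 5))) := e6
      _ ≤ (C1 + 3 * D) * X * (Real.log X) ^ (-(η / 5)) := by nlinarith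


/-- FINL: the final estimate for the coverings -/
def FINL : Prop := ∀ (K : Type) [Fintype K] [DecidableEq K] (f : K → ℤ[X]),
  (∀ k, Irreducible ((f k).map (Int.castRingHom ℚ))) →
  (∀ k l, k ≠ l → ¬ Associated ((f k).map (Int.castRingHom ℚ)) ((f l).map (Int.castRingHom ℚ))) →
  Even (Od f).card → 4 ≤ (Od f).card →
  (∀ i ∈ Ln f, ∀ k ∈ Ln f, i ≠ k → ∃ T : Finset K, i ∉ T ∧ k ∉ T ∧ Even (T ∩ Od f).card ∧
    ¬ IsSquare (∏ l ∈ T, (val f i l * val f k l))) →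
  ((Od f).card = 4 → Od f ⊆ Ln f → ∃ i ∈ Od f, ∃ k ∈ Od f, ∃ T : Finset K, Disjoint T (Od f) ∧
    ¬ IsSquare (∏ l ∈ T, (val f i l * val f k l))) →
  ∃ δ : ℝ, 0 < δ ∧ ∃ C : ℝ, ∀ X : ℕ, 3 ≤ X →
    ({d : ℤ | d.natAbs ≤ X ∧ Squarefree d ∧ BadL f d}.ncard : ℝ) ≤
      C * X * (Real.log X) ^ (-δ)

theorem finl (h2 : REDL) (h3 : KEYG) (h4 : PRG) (h5 : LINM) (h6 : ANTM) : FINL := by
  intro K _ _ f hirr hass hev hO hpair hfour
  exact fing h3 h4 h5 h6 K f (BadL f) hirr hass hO hpair hfour (h2 K f hirr hass hO hev)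

end Pool.Agent.Y488.TM
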