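import Mathlib
import Pool.Agent.W262.TW.Stm2

/-!
# Project TM (helper488): quadratic twists of hyperelliptic curves with mixed factors, statements

Curves `d y² = ∏ k, F k (x, w)`, `F k` the homogenisation of an irreducible `f k ∈ ℤ[X]`, at least
four of the `f k` of odd degree, `∑ k, deg (f k)` even.
-/

set_option autoImplicit false

namespace Pool.Agent.Y488.TM

open Finset Polynomial Pool.Agent.W262.RK Pool.Agent.W262.TW

section K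

variable {K : Type} [Fintype K] [DecidableEq K]

/-- the patterns `Θ0 i p` and their toggles by `O \ {i}` -/
def Tog (O : Finset K) (Θ0 : K → ℕ → Finset (Finset K)) (i : K) (p : ℕ) : Finset (Finset K) :=
  Θ0 i p ∪ (Θ0 i p).image (fun N => symmDiff N (O.erase i))

/-- `s` is of nonconstant type at all `i ∈ L` -/
def NCG (c : K → K → ℤ) (L O : Finset K) (s : K → ℤ) : Prop :=
  ∀ i ∈ L, ∃ T : Finset K, i ∉ T ∧ Even (T ∩ O).card ∧ ¬ IsSquare (∏ k ∈ T, (s k * c i k))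

open Classical in
/-- the number of the tuples -/
noncomputable def cntG (z Y : ℕ) (κ : K → ℤ) (Θ : K → ℕ → Finset (Finset K)) (c : K → K → ℤ)
    (L O : Finset K) : ℕ :=
  ((Fintype.piFinset (fun _ : K => Icc 1 Y)).filter (fun D => (∀ i, Rg z (D i)) ∧
    (∀ i j, i ≠ j → (D i).Coprime (D j)) ∧ ∏ i, D i ≤ Y ∧
    (∀ i, ∀ p ∈ (D i).primeFactors, ngs (fun k => κ k * D k) i p ∈ Θ i p) ∧
    NCG c L O (fun k => κ k * D k))).card

/-- the sign patterns on `I` compatible with the small variables `u l`, `l ∉ I` -/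
def ThG (Θ : K → ℕ → Finset (Finset K)) (κ : K → ℤ) (u : K → ℕ) (I : Finset K)
    (i : {k // k ∈ I}) (p : ℕ) : Finset (Finset {k // k ∈ I}) :=
  ((Θ i p).filter (fun N => ∀ l, l ∉ I → jacobiSym (κ l * u l) p =
    if l ∈ N then -1 else 1)).image (fun N => N.subtype (fun k => k ∈ I))

open Classical in
/-- the small variables -/
noncomputable def UG (z V : ℕ) (c : K → K → ℤ) (L O : Finset K) (κ : K → ℤ) (I : Finset K) :
    Finset (K → ℕ) :=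
  (Fintype.piFinset (fun k : K => if k ∈ I then {1} else Icc 1 V)).filter (fun u =>
    (∀ k, Rg z (u k)) ∧ (∀ i ∈ L, I = {i} → ∃ T : Finset K, i ∉ T ∧ Even (T ∩ O).card ∧
      ¬ IsSquare (∏ k ∈ T, (κ k * u k * c i k))))

/-- the indices of odd degree -/
def Od (f : K → ℤ[X]) : Finset K := univ.filter (fun k => Odd (f k).natDegree)

/-- the linear indices -/
def Ln (f : K → ℤ[X]) : Finset K := univ.filter (fun k => (f k).natDegree = 1)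

/-- the value of `F k` at the zero of the linear form `F i` -/
noncomputable def val (f : K → ℤ[X]) (i k : K) : ℤ :=
  hom (f k) (-(f i).coeff 0) ((f i).coeff 1)

/-- the curve `d y² = ∏ k, F k (x, w)` has a point of nonconstant type -/
def BadM (f : K → ℤ[X]) (d : ℤ) : Prop := ∃ x w y : ℤ, IsCoprime x w ∧ y ≠ 0 ∧
  d * y ^ 2 = ∏ k, hom (f k) x w ∧ NCG (val f) (Ln f) (Od f) (fun k => hom (f k) x w)

end K

/-- REGG: small and large variables, general patterns (adapt `W762.TW.regs`) -/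
def REGG : Prop := ∀ (K : Type) [Fintype K] [DecidableEq K] (z X V : ℕ) (κ : K → ℤ)
  (Θ : K → ℕ → Finset (Finset K)) (c : K → K → ℤ) (L O : Finset K), 1 ≤ V →
  (∀ k, ∀ p : ℕ, p.Prime → (p : ℤ) ∣ κ k → p ≤ z) →
  cntG z X κ Θ c L O ≤ V ^ Fintype.card K +
    ∑ I ∈ univ.filter (fun I : Finset K => I.Nonempty), ∑ u ∈ UG z V c L O κ I,
      cnt z (X / ∏ k, u k) V (fun k : {k // k ∈ I} => κ k) (ThG Θ κ u I)

/-- KEYG: the final estimate for one `κ` (adapt `W460.TW.key`, general exponent) -/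
def KEYG : Prop := ∀ (K : Type) [Fintype K] [DecidableEq K] (Θ : K → ℕ → Finset (Finset K))
  (c : K → K → ℤ) (L O : Finset K) (z : ℕ) (C4 η : ℝ) (κ : K → ℤ), 2 ≤ z → 0 ≤ C4 → 0 < η →
  η ≤ 1 → κ ∈ Fintype.piFinset (fun _ : K => EE z) →
  (∀ i p, Θ i p ⊆ (univ.erase i).powerset) →
  (∀ (Y V : ℕ) (I : Finset K), 3 ≤ Y → 1 ≤ V → I.Nonempty → ∀ u ∈ UG z V c L O κ I,
    ∑ i : {k // k ∈ I}, ∑ p ∈ PS z Y, ((ThG Θ κ u I i p).card : ℝ) / p ≤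
      ((1 - η) * Real.log (Real.log Y) + C4 * (1 + Real.log (Real.log (V + 3)))) *
        2 ^ (Fintype.card {k // k ∈ I} - 1)) →
  ∃ C : ℝ, 0 ≤ C ∧ ∀ᶠ X : ℕ in Filter.atTop,
    (cntG z X κ Θ c L O : ℝ) ≤ C * X * (Real.log X) ^ (-(η / 5))

/-- PRG: the weights of the sign patterns (adapt `W554.TW.prs`) -/
def PRG : Prop := ∀ (K : Type) [Fintype K] [DecidableEq K] (Θ0 : K → ℕ → Finset (Finset K))
  (c : K → K → ℤ) (L O : Finset K), L ⊆ O → 4 ≤ O.card →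
  (∀ i ∈ L, ∀ k, k ≠ i → c i k ≠ 0) →
  (∀ i ∈ L, ∀ k ∈ L, i ≠ k → ∃ T : Finset K, i ∉ T ∧ k ∉ T ∧ Even (T ∩ O).card ∧
    ¬ IsSquare (∏ l ∈ T, (c i l * c k l))) →
  (O.card = 4 → O ⊆ L → ∃ i ∈ O, ∃ k ∈ O, ∃ T : Finset K, Disjoint T O ∧
    ¬ IsSquare (∏ l ∈ T, (c i l * c k l))) →
  (∀ i p, Θ0 i p ⊆ (univ.erase i).powerset) →
  (∀ i, i ∉ L → ∃ η : ℝ, 0 < η ∧ ∃ C : ℝ, ∀ z x : ℕ, 3 ≤ x →
    ∑ p ∈ PS z x, ((Θ0 i p).card : ℝ) / p ≤ (1 - η) * Real.log (Real.log x) + C) →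
  (∃ z1 : ℕ, ∀ i ∈ L, ∀ p : ℕ, p.Prime → z1 < p → (Θ0 i p).card ≤ 1 ∧
    ∀ N ∈ Θ0 i p, ∃ s : ℤ, (s = 1 ∨ s = -1) ∧ ∀ l, l ≠ i →
      (if l ∈ N then (-1 : ℤ) else 1) = (if l ∈ O then s else 1) * jacobiSym (c i l) p) →
  ∃ η : ℝ, 0 < η ∧ η ≤ 1 ∧ ∃ z0 : ℕ, ∀ z, z0 ≤ z → ∃ C : ℝ, 0 ≤ C ∧
    ∀ κ ∈ Fintype.piFinset (fun _ : K => EE z), ∀ (Y V : ℕ) (I : Finset K),
    3 ≤ Y → 1 ≤ V → I.Nonempty → ∀ u ∈ UG z V c L O κ I,
    ∑ i : {k // k ∈ I}, ∑ p ∈ PS z Y, ((ThG (Tog O Θ0) κ u I i p).card : ℝ) / p ≤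
      ((1 - η) * Real.log (Real.log Y) + C * (1 + Real.log (Real.log (V + 3)))) *
        2 ^ (Fintype.card {k // k ∈ I} - 1)

/-- LOCM: behaviour at large primes -/
def LOCM : Prop := ∀ (K : Type) [Fintype K] [DecidableEq K] (f : K → ℤ[X]),
  (∀ k, Irreducible ((f k).map (Int.castRingHom ℚ))) →
  (∀ k l, k ≠ l → ¬ Associated ((f k).map (Int.castRingHom ℚ)) ((f l).map (Int.castRingHom ℚ))) →
  ∃ z0 : ℕ, ∀ p : ℕ, p.Prime → z0 < p → ∀ x w : ℤ, IsCoprime x w → ∀ i,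
    (p : ℤ) ∣ hom (f i) x w → (∀ k, k ≠ i → ¬ (p : ℤ) ∣ hom (f k) x w) ∧
      ngs (fun k => hom (f k) x w) i p ∈ Tog (Od f) (Th f) i p

/-- REDM: reduction of the twists with a point of nonconstant type to tuples (adapt
`W500.TW.reds`) -/
def REDM : Prop := ∀ (K : Type) [Fintype K] [DecidableEq K] (f : K → ℤ[X]),
  (∀ k, Irreducible ((f k).map (Int.castRingHom ℚ))) →
  (∀ k l, k ≠ l → ¬ Associated ((f k).map (Int.castRingHom ℚ)) ((f l).map (Int.castRingHom ℚ))) →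
  ∃ z0 : ℕ, ∀ z, z0 ≤ z → ∀ X : ℕ,
    {d : ℤ | d.natAbs ≤ X ∧ Squarefree d ∧ BadM f d}.ncard ≤
      (EE z).card * ∑ κ ∈ Fintype.piFinset (fun _ : K => EE z),
        cntG z X κ (Tog (Od f) (Th f)) (val f) (Ln f) (Od f)

/-- LINM: the patterns at the linear factors -/
def LINM : Prop := ∀ (K : Type) [Fintype K] [DecidableEq K] (f : K → ℤ[X]),
  (∀ k, Irreducible ((f k).map (Int.castRingHom ℚ))) →
  (∀ k l, k ≠ l → ¬ Associated ((f k).map (Int.castRingHom ℚ)) ((f l).map (Int.castRingHom ℚ))) →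
  (∀ i ∈ Ln f, ∀ k, k ≠ i → val f i k ≠ 0) ∧
  ∃ z1 : ℕ, ∀ i ∈ Ln f, ∀ p : ℕ, p.Prime → z1 < p → (Th f i p).card ≤ 1 ∧
    ∀ N ∈ Th f i p, ∃ s : ℤ, (s = 1 ∨ s = -1) ∧ ∀ l, l ≠ i →
      (if l ∈ N then (-1 : ℤ) else 1) = (if l ∈ Od f then s else 1) * jacobiSym (val f i l) p

/-- ANTM: for nonlinear `f i` the average of the number of the sign patterns is smaller than `1`
(adapt `W338.TW.ant`) -/
def ANTM : Prop := ∀ (K : Type) [Fintype K] [DecidableEq K] (f : K → ℤ[X]),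
  (∀ k, Irreducible ((f k).map (Int.castRingHom ℚ))) → ∀ i, 2 ≤ (f i).natDegree →
  ∃ η : ℝ, 0 < η ∧ ∃ C : ℝ, ∀ z x : ℕ, 3 ≤ x →
    ∑ p ∈ PS z x, ((Th f i p).card : ℝ) / p ≤ (1 - η) * Real.log (Real.log x) + C

end Pool.Agent.Y488.TM
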