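import Pool.Agent.W338.TW.Ant
import Pool.Agent.Y488.TM.Stm

/-! # The average of the number of the sign patterns is smaller than 1 (adapted from helper338) -/

set_option autoImplicit false

namespace Pool.Agent.Y488.TM

open Polynomial Finset NumberField Pool.Agent.W262.TW Pool.Agent.W338.TW
open Pool.Agent.H474R2.PG (rho PR Sg)

theorem antm : ANTM := by
  intro K _ _ f hirr i hdegi
  have hf0 : f i ≠ 0 := by
    intro h
    have := hdegi
    rw [h, natDegree_zero] at this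
    omega
  obtain ⟨L, iF, iN, hsp, hsq⟩ := exists_field (f i) hf0 f
  obtain ⟨B1, hB1⟩ := modp (L := L) (f i) hf0 f hsp hsq (two_roots (f i) (hirr i) hdegi hsp)
  obtain ⟨g, hg, hgd, B2, hB2⟩ := exists_prim (f i) (hirr i)
  obtain ⟨C1, -, hC1⟩ := Pool.Agent.H474R2.GE.mertens_rho g hg (by
    have := hdegi
    omega)
  obtain ⟨C2, hC2⟩ := Pool.Agent.H474R2.PG.homs_lower L
  have hn : 0 < Module.finrank ℚ L := Module.finrank_pos
  obtain ⟨n, hnd⟩ : ∃ n : ℝ, n = Module.finrank ℚ L := ⟨_, rfl⟩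
  have hn0 : 0 < n := by rw [hnd]; exact_mod_cast hn
  obtain ⟨B, hB⟩ : ∃ B : ℕ, B = max B1 B2 := ⟨_, rfl⟩
  -- large primes
  have hbig : ∀ p : ℕ, p.Prime → B < p →
      ((Th f i p).card : ℝ) ≤ rho g p - (Nat.card (𝓞 L →+* ZMod p) : ℝ) / n := by
    intro p hp hpB
    have h1 : (Nat.card (𝓞 L →+* ZMod p) : ℝ) / n ≤ 1 := by
      rw [div_le_one hn0, hnd]
      exact_mod_cast hom_le L hp
    have h2 := hB2 p hp (lt_of_le_of_lt (by rw [hB]; exact le_max_right _ _) hpB)
    by_cases hne : Nonempty (𝓞 L →+* ZMod p)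
    · obtain ⟨h3, h4⟩ := hB1 p hp (lt_of_le_of_lt (by rw [hB]; exact le_max_left _ _) hpB) hne
      have h5 := card_Th_le_one f i hp h3
      have h6 : (Th f i p).card + 1 ≤ rho g p := by omega
      have h7 : ((Th f i p).card : ℝ) + 1 ≤ rho g p := by exact_mod_cast h6
      linarith
    · have h3 : Nat.card (𝓞 L →+* ZMod p) = 0 := by
        rw [not_nonempty_iff] at hne
        exact Nat.card_of_isEmpty
      rw [h3, Nat.cast_zero, zero_div, sub_zero]
      exact_mod_cast (card_Th_le f i p).trans h2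
  obtain ⟨S0, hS0⟩ : ∃ S0 : ℝ, S0 = ∑ p ∈ PR B, ((rho (f i) p : ℝ) / p +
    (Nat.card (𝓞 L →+* ZMod p) : ℝ) / n / p) := ⟨_, rfl⟩
  refine ⟨1 / n, by positivity, S0 + C1 + C2 / n, fun z x hx => ?_⟩
  have hx3 : (3 : ℝ) ≤ (x : ℝ) := by exact_mod_cast hx
  have hsub : Pool.Agent.W262.RK.PS z x ⊆ PR (x : ℝ) := by
    intro p hp
    unfold Pool.Agent.W262.RK.PS at hp
    unfold Pool.Agent.H474R2.PG.PR
    rw [Finset.mem_filter, Finset.mem_Ioc] at hp
    rw [Finset.mem_filter, Finset.mem_Icc, Nat.floor_natCast]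
    exact ⟨⟨hp.2.one_lt.le, hp.1.2⟩, hp.2⟩
  have h1 : ∑ p ∈ Pool.Agent.W262.RK.PS z x, ((Th f i p).card : ℝ) / p ≤
      ∑ p ∈ PR (x : ℝ), ((Th f i p).card : ℝ) / p :=
    Finset.sum_le_sum_of_subset_of_nonneg hsub fun p _ _ => by positivity
  have h2 : ∑ p ∈ PR (x : ℝ), ((Th f i p).card : ℝ) / p ≤
      S0 + ∑ p ∈ PR (x : ℝ), ((rho g p : ℝ) / p - (Nat.card (𝓞 L →+* ZMod p) : ℝ) / n / p) := by
    rw [← Finset.sum_filter_add_sum_filter_not (PR (x : ℝ)) (fun p => p ≤ B),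
      ← Finset.sum_filter_add_sum_filter_not (PR (x : ℝ)) (fun p => p ≤ B)
        (fun p => (rho g p : ℝ) / p - (Nat.card (𝓞 L →+* ZMod p) : ℝ) / n / p)]
    have e1 : ∑ p ∈ (PR (x : ℝ)).filter (fun p => p ≤ B), ((Th f i p).card : ℝ) / p ≤
        S0 + ∑ p ∈ (PR (x : ℝ)).filter (fun p => p ≤ B),
          ((rho g p : ℝ) / p - (Nat.card (𝓞 L →+* ZMod p) : ℝ) / n / p) := by
      rw [← sub_le_iff_le_add, ← Finset.sum_sub_distrib, hS0]
      refine (Finset.sum_le_sum fun p _ => ?_).trans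
        (Finset.sum_le_sum_of_subset_of_nonneg (s := (PR (x : ℝ)).filter (fun p => p ≤ B))
          (f := fun p => (rho (f i) p : ℝ) / p + (Nat.card (𝓞 L →+* ZMod p) : ℝ) / n / p)
          (fun p hp => ?_) fun p _ _ => by positivity)
      · have e2 : ((Th f i p).card : ℝ) / p ≤ (rho (f i) p : ℝ) / p := by
          have : ((Th f i p).card : ℝ) ≤ rho (f i) p := by exact_mod_cast card_Th_le f i p
          exact div_le_div_of_nonneg_right this (by positivity)
        have e3 : (0 : ℝ) ≤ (rho g p : ℝ) / p := by positivity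
        linarith
      · rw [Finset.mem_filter] at hp
        unfold Pool.Agent.H474R2.PG.PR at hp ⊢
        rw [Finset.mem_filter, Finset.mem_Icc] at hp
        rw [Finset.mem_filter, Finset.mem_Icc, Nat.floor_natCast]
        exact ⟨⟨hp.1.1.1, hp.2⟩, hp.1.2⟩
    have e2 : ∑ p ∈ (PR (x : ℝ)).filter (fun p => ¬ p ≤ B), ((Th f i p).card : ℝ) / p ≤
        ∑ p ∈ (PR (x : ℝ)).filter (fun p => ¬ p ≤ B),
          ((rho g p : ℝ) / p - (Nat.card (𝓞 L →+* ZMod p) : ℝ) / n / p) := by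
      refine Finset.sum_le_sum fun p hp => ?_
      rw [Finset.mem_filter] at hp
      have hpp : p.Prime := by
        have := hp.1
        unfold Pool.Agent.H474R2.PG.PR at this
        exact (Finset.mem_filter.1 this).2
      rw [← sub_div]
      exact div_le_div_of_nonneg_right (hbig p hpp (not_le.1 hp.2)) (by positivity)
    linarith
  have h3 : ∑ p ∈ PR (x : ℝ), ((rho g p : ℝ) / p - (Nat.card (𝓞 L →+* ZMod p) : ℝ) / n / p) =
      Sg (rho g) x - (∑ p ∈ PR (x : ℝ), (Nat.card (𝓞 L →+* ZMod p) : ℝ) / p) / n := by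
    rw [Finset.sum_sub_distrib, Finset.sum_div]
    unfold Pool.Agent.H474R2.PG.Sg
    congr 1
    exact Finset.sum_congr rfl fun p _ => div_right_comm _ _ _
  have h4 := (abs_le.1 (hC1 x hx3)).2
  have h5 := hC2 x hx3
  have h6 : (Real.log (Real.log x) - C2) / n ≤
      (∑ p ∈ PR (x : ℝ), (Nat.card (𝓞 L →+* ZMod p) : ℝ) / p) / n :=
    div_le_div_of_nonneg_right h5 hn0.le
  have h7 : (Real.log (Real.log x) - C2) / n = 1 / n * Real.log (Real.log x) - C2 / n := by ring
  have h8 : (1 - 1 / n) * Real.log (Real.log x) =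
      Real.log (Real.log x) - 1 / n * Real.log (Real.log x) := by ring
  rw [h8]
  linarith

end Pool.Agent.Y488.TM
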