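import Pool.Agent.Y488.TM.Stm
import Pool.Agent.W975.TW.Loc3

/-!
# Project TM (helper488), part LOC (helper514): signs at large primes
-/

set_option autoImplicit false

namespace Pool.Agent.Y488.TM

open Finset Polynomial Pool.Agent.W262.RK Pool.Agent.W262.TW
open Pool.Agent.W975.TW (bez hom_map hom_smul hom_one hom_lc)

/-- a prime larger than a nonzero integer does not divide it -/
theorem not_dvd_big {p n : ℕ} {a : ℤ} (ha : a ≠ 0) (hn : a.natAbs ≤ n) (hp : n < p) :
    ¬ (p : ℤ) ∣ a := by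
  intro hd
  have h1 := Int.natAbs_dvd_natAbs.2 hd
  have h2 := Nat.le_of_dvd (Int.natAbs_pos.2 ha) h1
  rw [Int.natAbs_natCast] at h2
  omega

theorem hom_cast (p : ℕ) (f : ℤ[X]) (x w : ℤ) :
    ((hom f x w : ℤ) : ZMod p) = hom f (x : ZMod p) (w : ZMod p) :=
  hom_map (Int.castRingHom (ZMod p)) f x w

theorem eval_cast (p : ℕ) (f : ℤ[X]) (t : ℤ) :
    ((f.eval t : ℤ) : ZMod p) = f.eval₂ (Int.castRingHom (ZMod p)) (t : ZMod p) := by
  have h := hom_map (Int.castRingHom (ZMod p)) f t 1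
  rw [hom_one, map_one, hom_one] at h
  have h2 : f.eval₂ (Int.castRingHom ℤ) t = f.eval t := by
    have : Int.castRingHom ℤ = RingHom.id ℤ := RingHom.ext_int _ _
    rw [this]
    rfl
  rw [h2] at h
  exact h

/-- `hom f x w = w ^ deg f * f(θ)` modulo `p`, if `x = θ w` -/
theorem hom_eq (p : ℕ) (f : ℤ[X]) (x w t : ℤ) (h : (x : ZMod p) = (w : ZMod p) * (t : ZMod p)) :
    ((hom f x w : ℤ) : ZMod p) = ((w ^ f.natDegree * f.eval t : ℤ) : ZMod p) := by
  rw [hom_cast, h]
  have h1 := hom_smul f (w : ZMod p) (t : ZMod p) 1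
  rw [mul_one] at h1
  rw [h1, hom_one]
  push_cast
  rw [eval_cast]

theorem jac_eq (p : ℕ) (f : ℤ[X]) (x w t : ℤ) (h : (x : ZMod p) = (w : ZMod p) * (t : ZMod p)) :
    jacobiSym (hom f x w) p = jacobiSym w p ^ f.natDegree * jacobiSym (f.eval t) p := by
  have h1 := hom_eq p f x w t h
  rw [ZMod.intCast_eq_intCast_iff'] at h1
  rw [jacobiSym.mod_left' h1, jacobiSym.mul_left, jacobiSym.pow_left]

theorem jac_unit {p : ℕ} (hp : p.Prime) {a : ℤ} (ha : ¬ (p : ℤ) ∣ a) :
    jacobiSym a p = 1 ∨ jacobiSym a p = -1 := by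
  apply jacobiSym.eq_one_or_neg_one
  rw [← Int.isCoprime_iff_gcd_eq_one]
  exact ((Nat.prime_iff_prime_int.1 hp).coprime_iff_not_dvd.2 ha).symm

theorem exists_R {K : Type} [Fintype K] (f : K → ℤ[X])
    (hirr : ∀ k, Irreducible ((f k).map (Int.castRingHom ℚ)))
    (hna : ∀ k l, k ≠ l →
      ¬ Associated ((f k).map (Int.castRingHom ℚ)) ((f l).map (Int.castRingHom ℚ))) :
    ∃ R : K → K → ℤ, (∀ k l, R k l ≠ 0) ∧
      ∀ k l, k ≠ l → ∃ A B : ℤ[X], A * f k + B * f l = C (R k l) := by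
  classical
  have hR : ∀ k l, ∃ R : ℤ, R ≠ 0 ∧ (k ≠ l → ∃ A B : ℤ[X], A * f k + B * f l = C R) := by
    intro k l
    by_cases hkl : k = l
    · exact ⟨1, one_ne_zero, fun h => absurd hkl h⟩
    · obtain ⟨R, A, B, hR, hAB⟩ := bez (f k) (f l) (hirr k) (hirr l) (hna k l hkl)
      exact ⟨R, hR, fun _ => ⟨A, B, hAB⟩⟩
  choose R hR0 hR using hR
  exact ⟨R, hR0, hR⟩

theorem locm : LOCM := by
  intro K _ _ f hirr hna
  classical
  obtain ⟨R, hR0, hR⟩ := exists_R f hirr hna
  have hlc : ∀ k, (f k).leadingCoeff ≠ 0 := by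
    intro k h
    rw [leadingCoeff_eq_zero] at h
    have := (hirr k).ne_zero
    rw [h] at this
    simp at this
  refine ⟨∑ k, (f k).leadingCoeff.natAbs + ∑ k, ∑ l, (R k l).natAbs, ?_⟩
  intro p hp hz x w hxw i hi
  have : Fact p.Prime := ⟨hp⟩
  have hplc : ∀ k, ¬ (p : ℤ) ∣ (f k).leadingCoeff := by
    intro k
    refine not_dvd_big (hlc k) ?_ hz
    refine le_trans ?_ (Nat.le_add_right _ _)
    exact Finset.single_le_sum (f := fun k => (f k).leadingCoeff.natAbs) (fun _ _ => Nat.zero_le _)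
        (mem_univ k)
  have hpR : ∀ k l, ¬ (p : ℤ) ∣ R k l := by
    intro k l
    refine not_dvd_big (hR0 k l) ?_ hz
    refine le_trans ?_ (Nat.le_add_left _ _)
    have h3 : (R k l).natAbs ≤ ∑ l, (R k l).natAbs :=
      Finset.single_le_sum (f := fun l => (R k l).natAbs) (fun _ _ => Nat.zero_le _)
        (mem_univ l)
    exact h3.trans (Finset.single_le_sum (f := fun k => ∑ l, (R k l).natAbs)
      (fun _ _ => Nat.zero_le _) (mem_univ k))
  -- `p` does not divide `w`
  have hw : ¬ (p : ℤ) ∣ w := by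
    intro hd
    have hw0 : (w : ZMod p) = 0 := (ZMod.intCast_zmod_eq_zero_iff_dvd _ p).2 hd
    have h1 : ((hom (f i) x w : ℤ) : ZMod p) = 0 := (ZMod.intCast_zmod_eq_zero_iff_dvd _ p).2 hi
    rw [hom_cast, hw0] at h1
    have h2 := hom_smul (f i) (x : ZMod p) 1 0
    rw [mul_one, mul_zero, hom_lc] at h2
    rw [h2] at h1
    rcases mul_eq_zero.1 h1 with h3 | h3
    · have h4 : (x : ZMod p) = 0 := by
        by_contra h5
        exact pow_ne_zero _ h5 h3
      have h5 : (p : ℤ) ∣ x := (ZMod.intCast_zmod_eq_zero_iff_dvd _ p).1 h4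
      have h6 : IsUnit (p : ℤ) := hxw.isUnit_of_dvd' h5 hd
      exact (Nat.prime_iff_prime_int.1 hp).not_isUnit h6
    · exact hplc i ((ZMod.intCast_zmod_eq_zero_iff_dvd _ p).1 h3)
  have hw0 : (w : ZMod p) ≠ 0 := fun h => hw ((ZMod.intCast_zmod_eq_zero_iff_dvd _ p).1 h)
  set θ : ℕ := ((x : ZMod p) * (w : ZMod p)⁻¹).val with hθ
  have hθlt : θ < p := ZMod.val_lt _
  have hθe : (x : ZMod p) = (w : ZMod p) * (((θ : ℕ) : ℤ) : ZMod p) := by
    rw [Int.cast_natCast, hθ, ZMod.natCast_zmod_val]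
    field_simp
  have hiff : ∀ k, (p : ℤ) ∣ hom (f k) x w ↔ (p : ℤ) ∣ (f k).eval (θ : ℤ) := by
    intro k
    rw [← ZMod.intCast_zmod_eq_zero_iff_dvd, ← ZMod.intCast_zmod_eq_zero_iff_dvd,
      hom_eq p (f k) x w θ hθe]
    push_cast
    rw [mul_eq_zero]
    exact ⟨fun h => h.resolve_left (pow_ne_zero _ hw0), Or.inr⟩
  have hcop : ∀ k, k ≠ i → ¬ (p : ℤ) ∣ (f k).eval (θ : ℤ) := by
    intro k hk hd
    obtain ⟨A, B, hAB⟩ := hR k i hk
    have h1 := congrArg (fun q : ℤ[X] => q.eval (θ : ℤ)) hAB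
    simp only [eval_add, eval_mul, eval_C] at h1
    apply hpR k i
    rw [← h1]
    exact dvd_add (Dvd.dvd.mul_left hd _) (Dvd.dvd.mul_left ((hiff i).1 hi) _)
  refine ⟨fun k hk h => hcop k hk ((hiff k).1 h), ?_⟩
  have hTh : ngs (fun k => (f k).eval (θ : ℤ)) i p ∈ Th f i p := by
    unfold Th
    rw [mem_image]
    exact ⟨θ, mem_filter.2 ⟨mem_range.2 hθlt, (hiff i).1 hi⟩, rfl⟩
  have hJ : ∀ k, jacobiSym (hom (f k) x w) p =
      jacobiSym w p ^ (f k).natDegree * jacobiSym ((f k).eval (θ : ℤ)) p := fun k =>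
    jac_eq p (f k) x w θ hθe
  unfold Tog
  rw [mem_union]
  rcases jac_unit hp hw with h1 | h1
  · left
    have e : ngs (fun k => hom (f k) x w) i p = ngs (fun k => (f k).eval (θ : ℤ)) i p := by
      unfold ngs
      refine filter_congr fun k _ => ?_
      rw [hJ, h1, one_pow, one_mul]
    rw [e]
    exact hTh
  · right
    rw [mem_image]
    refine ⟨_, hTh, ?_⟩
    ext k
    rw [mem_symmDiff]
    unfold ngs Od
    simp only [mem_filter, mem_univ, true_and, mem_erase]
    rw [hJ, h1]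
    by_cases hk : k = i
    · simp [hk]
    · have h2 := jac_unit hp (hcop k hk)
      rcases Nat.even_or_odd (f k).natDegree with he | ho
      · rw [he.neg_one_pow]
        have h3 : ¬ Odd (f k).natDegree := Nat.not_odd_iff_even.2 he
        simp [hk, h3]
      · rw [ho.neg_one_pow]
        rcases h2 with h2 | h2
        · rw [h2]
          simp [hk, ho]
        · rw [h2]
          simp [hk, ho]

theorem linm : LINM := by
  intro K _ _ f hirr hna
  classical
  obtain ⟨R, hR0, hR⟩ := exists_R f hirr hna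
  have hLn : ∀ i ∈ Ln f, (f i).natDegree = 1 := fun i hi => (mem_filter.1 hi).2
  have hα : ∀ i ∈ Ln f, (f i).coeff 1 ≠ 0 := by
    intro i hi h
    have h1 := hLn i hi
    have h2 : (f i).leadingCoeff = 0 := by rw [leadingCoeff, h1, h]
    rw [leadingCoeff_eq_zero] at h2
    rw [h2] at h1
    simp at h1
  have heval : ∀ i ∈ Ln f, f i = C ((f i).coeff 1) * X + C ((f i).coeff 0) := fun i hi =>
    eq_X_add_C_of_natDegree_le_one (hLn i hi).le
  have hval : ∀ i ∈ Ln f, ∀ k, k ≠ i → val f i k ≠ 0 := by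
    intro i hi k hk h0
    set a : ℚ := ((f i).coeff 1 : ℚ) with ha
    set b : ℚ := ((f i).coeff 0 : ℚ) with hb
    have ha0 : a ≠ 0 := by
      rw [ha]
      exact_mod_cast hα i hi
    have h1 : (hom (f k) (-b) a : ℚ) = 0 := by
      have h2 := hom_map (Int.castRingHom ℚ) (f k) (-(f i).coeff 0) ((f i).coeff 1)
      have h3 : hom (f k) (-(f i).coeff 0) ((f i).coeff 1) = 0 := h0
      rw [h3, map_zero] at h2
      rw [hb, ha]
      simp only [eq_intCast, Int.cast_neg] at h2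
      exact h2.symm
    have h2 := hom_smul (f k) a (-b / a) 1
    have e1 : a * (-b / a) = -b := by field_simp
    rw [e1, mul_one, h1, hom_one] at h2
    have h3 : (f k).eval₂ (Int.castRingHom ℚ) (-b / a) = 0 := by
      rcases mul_eq_zero.1 h2.symm with h | h
      · exact absurd h (pow_ne_zero _ ha0)
      · exact h
    have h4 : (f i).eval₂ (Int.castRingHom ℚ) (-b / a) = 0 := by
      rw [heval i hi]
      simp only [eval₂_add, eval₂_mul, eval₂_C, eval₂_X]
      show a * (-b / a) + b = 0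
      rw [e1]
      ring
    obtain ⟨A, B, hAB⟩ := hR k i hk
    have h5 := congrArg (fun q : ℤ[X] => q.eval₂ (Int.castRingHom ℚ) (-b / a)) hAB
    simp only [eval₂_add, eval₂_mul, eval₂_C] at h5
    rw [h3, h4, mul_zero, mul_zero, add_zero] at h5
    apply hR0 k i
    simpa using h5.symm
  refine ⟨hval, ∑ i, ∑ k, (val f i k).natAbs + ∑ i, ((f i).coeff 1).natAbs, ?_⟩
  intro i hi p hp hz
  have : Fact p.Prime := ⟨hp⟩
  have hpα : ¬ (p : ℤ) ∣ (f i).coeff 1 := by
    refine not_dvd_big (hα i hi) ?_ hz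
    refine le_trans ?_ (Nat.le_add_left _ _)
    exact Finset.single_le_sum (f := fun i => ((f i).coeff 1).natAbs) (fun _ _ => Nat.zero_le _)
        (mem_univ i)
  have hpv : ∀ k, k ≠ i → ¬ (p : ℤ) ∣ val f i k := by
    intro k hk
    refine not_dvd_big (hval i hi k hk) ?_ hz
    refine le_trans ?_ (Nat.le_add_right _ _)
    have h3 : (val f i k).natAbs ≤ ∑ k, (val f i k).natAbs :=
      Finset.single_le_sum (f := fun l => (val f i l).natAbs) (fun _ _ => Nat.zero_le _)
        (mem_univ k)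
    exact h3.trans (Finset.single_le_sum (f := fun i => ∑ l, (val f i l).natAbs)
      (fun _ _ => Nat.zero_le _) (mem_univ i))
  have hα0 : (((f i).coeff 1 : ℤ) : ZMod p) ≠ 0 := fun h =>
    hpα ((ZMod.intCast_zmod_eq_zero_iff_dvd _ p).1 h)
  have hroot : ∀ θ : ℕ, (p : ℤ) ∣ (f i).eval (θ : ℤ) →
      ((-(f i).coeff 0 : ℤ) : ZMod p) = (((f i).coeff 1 : ℤ) : ZMod p) * (((θ : ℕ) : ℤ) : ZMod p) := by
    intro θ h
    rw [heval i hi] at h
    simp only [eval_add, eval_mul, eval_C, eval_X] at h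
    have h1 := (ZMod.intCast_zmod_eq_zero_iff_dvd _ p).2 h
    push_cast at h1 ⊢
    linear_combination -h1
  constructor
  · rw [card_le_one]
    intro a ha b hb
    unfold Th at ha hb
    rw [mem_image] at ha hb
    obtain ⟨θ, hθ, rfl⟩ := ha
    obtain ⟨θ', hθ', rfl⟩ := hb
    rw [mem_filter, mem_range] at hθ hθ'
    have h1 := hroot θ hθ.2
    have h2 := hroot θ' hθ'.2
    rw [h1] at h2
    have h3 := mul_left_cancel₀ hα0 h2
    rw [Int.cast_natCast, Int.cast_natCast] at h3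
    have h4 := (ZMod.natCast_eq_natCast_iff' θ θ' p).1 h3
    rw [Nat.mod_eq_of_lt hθ.1, Nat.mod_eq_of_lt hθ'.1] at h4
    rw [h4]
  · intro N hN
    unfold Th at hN
    rw [mem_image] at hN
    obtain ⟨θ, hθ, rfl⟩ := hN
    rw [mem_filter, mem_range] at hθ
    have h1 := hroot θ hθ.2
    have hJα := jac_unit hp hpα
    refine ⟨jacobiSym ((f i).coeff 1) p, hJα, fun l hl => ?_⟩
    have h2 : jacobiSym (val f i l) p =
        jacobiSym ((f i).coeff 1) p ^ (f l).natDegree * jacobiSym ((f l).eval (θ : ℤ)) p :=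
      jac_eq p (f l) _ _ θ h1
    have h3 : ¬ (p : ℤ) ∣ (f l).eval (θ : ℤ) := by
      intro hd
      apply hpv l hl
      have h4 := hom_eq p (f l) _ _ θ h1
      rw [← ZMod.intCast_zmod_eq_zero_iff_dvd]
      show ((hom (f l) (-(f i).coeff 0) ((f i).coeff 1) : ℤ) : ZMod p) = 0
      rw [h4, ZMod.intCast_zmod_eq_zero_iff_dvd]
      exact Dvd.dvd.mul_left hd _
    have h4 := jac_unit hp h3
    have hmem : l ∈ ngs (fun k => (f k).eval (θ : ℤ)) i p ↔
        jacobiSym ((f l).eval (θ : ℤ)) p = -1 := by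
      unfold ngs
      simp only [mem_filter, mem_univ, true_and, ne_eq, hl, not_false_eq_true]
    have hOd : l ∈ Od f ↔ Odd (f l).natDegree := by
      unfold Od
      simp only [mem_filter, mem_univ, true_and]
    simp only [hmem, hOd]
    rw [h2]
    rcases Nat.even_or_odd (f l).natDegree with he | ho
    · have h5 : ¬ Odd (f l).natDegree := Nat.not_odd_iff_even.2 he
      rw [if_neg h5]
      rcases hJα with h6 | h6 <;> rcases h4 with h7 | h7 <;> rw [h6, h7] <;>
        simp [he.neg_one_pow]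
    · rw [if_pos ho]
      rcases hJα with h6 | h6 <;> rcases h4 with h7 | h7 <;> rw [h6, h7] <;>
        simp [ho.neg_one_pow]

end Pool.Agent.Y488.TM
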