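import Pool.Agent.Y488.TM.Stm
import Pool.Agent.W554.TW.Prs

/-!
# Project TM: the weights of the sign patterns (helper523, for helper488)

Adaptation of `Pool.Agent.W554.TW.prs` of helper554.
-/

set_option autoImplicit false

namespace Pool.Agent.Y488.TM

open Finset Pool.Agent.W262.RK Pool.Agent.W262.TW Pool.Agent.W554.TW

section K

variable {K : Type} [Fintype K] [DecidableEq K]
variable (O : Finset K) (Θ0 : K → ℕ → Finset (Finset K)) (c : K → K → ℤ) (κ : K → ℤ) (u : K → ℕ)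
  (I : Finset K) (i : {k // k ∈ I})

/-- the filtered patterns -/
def Fl (p : ℕ) : Finset (Finset K) := (Tog O Θ0 i p).filter (fun N => ∀ l, l ∉ I →
  jacobiSym (κ l * u l) p = if l ∈ N then -1 else 1)

lemma ThG_le (p : ℕ) : (ThG (Tog O Θ0) κ u I i p).card ≤ (Fl O Θ0 κ u I i p).card :=
  card_image_le

lemma prL1 (p : ℕ) : (ThG (Tog O Θ0) κ u I i p).card ≤ 2 * (Θ0 i p).card := by
  refine (ThG_le O Θ0 κ u I i p).trans ((card_filter_le _ _).trans ?_)
  unfold Tog
  refine (card_union_le _ _).trans ?_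
  have := card_image_le (s := Θ0 i p) (f := fun N => symmDiff N (O.erase i))
  omega

lemma prL2 (p : ℕ) {l : K} (hlO : l ∈ O) (hlI : l ∉ I) :
    (ThG (Tog O Θ0) κ u I i p).card ≤ (Θ0 i p).card := by
  classical
  have hli : l ≠ i := fun h => hlI (h ▸ i.2)
  refine (ThG_le O Θ0 κ u I i p).trans ?_
  have hsub : Fl O Θ0 κ u I i p ⊆ (Θ0 i p).image (fun N0 =>
      if jacobiSym (κ l * u l) p = (if l ∈ N0 then -1 else 1) then N0
      else symmDiff N0 (O.erase i)) := by
    intro N hN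
    unfold Fl at hN
    rw [mem_filter] at hN
    obtain ⟨hN1, hN2⟩ := hN
    have h1 := hN2 l hlI
    unfold Tog at hN1
    rw [mem_union, mem_image] at hN1
    rw [mem_image]
    rcases hN1 with hN1 | ⟨N0, hN0, rfl⟩
    · exact ⟨N, hN1, if_pos h1⟩
    · refine ⟨N0, hN0, if_neg ?_⟩
      have hm : l ∈ symmDiff N0 (O.erase i) ↔ l ∉ N0 := by
        rw [mem_symmDiff, mem_erase]
        tauto
      rw [h1]
      by_cases hl0 : l ∈ N0
      · rw [if_neg (by rw [hm]; exact fun h => h hl0), if_pos hl0]; norm_num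
      · rw [if_pos (hm.2 hl0), if_neg hl0]; norm_num
  exact (card_le_card hsub).trans card_image_le

lemma prSgn {p : ℕ} (h6 : ∀ N ∈ Θ0 i p, ∃ s : ℤ, (s = 1 ∨ s = -1) ∧ ∀ l, l ≠ (i : K) →
    (if l ∈ N then (-1 : ℤ) else 1) = (if l ∈ O then s else 1) * jacobiSym (c i l) p)
    {N : Finset K} (hN : N ∈ Tog O Θ0 i p) : ∃ s : ℤ, (s = 1 ∨ s = -1) ∧ ∀ l, l ≠ (i : K) →
    (if l ∈ N then (-1 : ℤ) else 1) = (if l ∈ O then s else 1) * jacobiSym (c i l) p := by
  unfold Tog at hN
  rw [mem_union, mem_image] at hN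
  rcases hN with hN | ⟨N0, hN0, rfl⟩
  · exact h6 N hN
  · obtain ⟨s, hs, h⟩ := h6 N0 hN0
    refine ⟨-s, by rcases hs with rfl | rfl <;> norm_num, fun l hl => ?_⟩
    have h1 := h l hl
    by_cases hlO : l ∈ O
    · have hm : l ∈ symmDiff N0 (O.erase i) ↔ l ∉ N0 := by
        rw [mem_symmDiff, mem_erase]
        tauto
      rw [if_pos hlO] at h1 ⊢
      rw [neg_mul, ← h1]
      by_cases hl0 : l ∈ N0
      · rw [if_neg (by rw [hm]; exact fun h => h hl0), if_pos hl0]; norm_num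
      · rw [if_pos (hm.2 hl0), if_neg hl0]
    · have hm : l ∈ symmDiff N0 (O.erase i) ↔ l ∈ N0 := by
        rw [mem_symmDiff, mem_erase]
        tauto
      rw [if_neg hlO] at h1 ⊢
      rw [← h1]
      by_cases hl0 : l ∈ N0
      · rw [if_pos (hm.2 hl0), if_pos hl0]
      · rw [if_neg (by rw [hm]; exact hl0), if_neg hl0]

lemma jac_prod (f : K → ℤ) (T : Finset K) (p : ℕ) :
    jacobiSym (∏ k ∈ T, f k) p = ∏ k ∈ T, jacobiSym (f k) p := by
  induction T using Finset.induction_on with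
  | empty => simp
  | insert a T ha ih => rw [prod_insert ha, prod_insert ha, jacobiSym.mul_left, ih]

lemma prL4 {p : ℕ} (h6 : ∀ N ∈ Θ0 i p, ∃ s : ℤ, (s = 1 ∨ s = -1) ∧ ∀ l, l ≠ (i : K) →
    (if l ∈ N then (-1 : ℤ) else 1) = (if l ∈ O then s else 1) * jacobiSym (c i l) p)
    {T : Finset K} (hT : ∀ k ∈ T, k ∉ I) (he : Even (T ∩ O).card)
    (hb : (ThG (Tog O Θ0) κ u I i p).card ≠ 0) :
    jacobiSym (∏ k ∈ T, (κ k * u k * c i k)) p = 1 := by
  have hne : (Fl O Θ0 κ u I i p).Nonempty :=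
    card_pos.1 ((Nat.pos_of_ne_zero hb).trans_le (ThG_le O Θ0 κ u I i p))
  obtain ⟨N, hN⟩ := hne
  unfold Fl at hN
  rw [mem_filter] at hN
  obtain ⟨s, hs, hsN⟩ := prSgn O Θ0 c I i h6 hN.1
  have h1 : ∀ k ∈ T, jacobiSym (κ k * u k * c i k) p = if k ∈ O then s else 1 := by
    intro k hk
    have hkI := hT k hk
    have hki : k ≠ i := fun h => hkI (h ▸ i.2)
    have e1 := hN.2 k hkI
    have e2 := hsN k hki
    have e3 : jacobiSym (c i k) p * jacobiSym (c i k) p = 1 := by
      rcases jacobiSym.trichotomy (c i k) p with h | h | h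
      · rw [h, mul_zero] at e2
        split_ifs at e2 <;> norm_num at e2
      · rw [h]; norm_num
      · rw [h]; norm_num
    rw [jacobiSym.mul_left, e1, e2, mul_assoc, e3, mul_one]
  rw [jac_prod, prod_congr rfl h1, prod_ite_mem, prod_const]
  rcases hs with rfl | rfl
  · exact one_pow _
  · exact he.neg_one_pow

/-- the product of two nonsquares -/
lemma prSq (T : Finset K) (i k : K) (hm : ∀ l ∈ T, κ l * (u l : ℤ) ≠ 0)
    (h : ¬ IsSquare (∏ l ∈ T, (c i l * c k l))) :
    ¬ IsSquare (∏ l ∈ T, (κ l * u l * c i l)) ∨ ¬ IsSquare (∏ l ∈ T, (κ l * u l * c k l)) := by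
  by_contra hcon
  push Not at hcon
  obtain ⟨⟨a, ha⟩, ⟨b, hb⟩⟩ := hcon
  apply h
  rw [prod_mul_distrib] at ha hb ⊢
  set m : ℤ := ∏ l ∈ T, (κ l * (u l : ℤ)) with hmdef
  have hm0 : m ≠ 0 := prod_ne_zero_iff.2 hm
  set x := ∏ l ∈ T, c i l
  set y := ∏ l ∈ T, c k l
  have hmm : m ^ 2 * (x * y) = (a * b) ^ 2 := by
    calc m ^ 2 * (x * y) = (m * x) * (m * y) := by ring
      _ = (a * a) * (b * b) := by rw [ha, hb]
      _ = (a * b) ^ 2 := by ring
  have hdvd : m ^ 2 ∣ (a * b) ^ 2 := ⟨_, hmm.symm⟩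
  obtain ⟨e, he⟩ := (Int.pow_dvd_pow_iff two_ne_zero).1 hdvd
  refine ⟨e, ?_⟩
  have h6 : m ^ 2 * (x * y) = m ^ 2 * (e * e) := by
    rw [hmm, he]; ring
  exact mul_left_cancel₀ (pow_ne_zero 2 hm0) h6

end K

lemma one_le_log3 : 1 ≤ Real.log 3 := by
  rw [Real.le_log_iff_exp_le (by norm_num)]
  have := Real.exp_one_lt_d9
  linarith

/-- the size of the modulus -/
lemma size_logG {P : ℝ} (hP : 1 ≤ P) (n : ℕ) : ∃ C : ℝ, 0 ≤ C ∧ ∀ (V : ℕ) (q : ℤ), 1 ≤ V →
    (q.natAbs : ℝ) ≤ (P * V) ^ n →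
    Real.log (Real.log (q.natAbs + 3)) ≤ C + Real.log (Real.log (V + 3)) := by
  have hlA : 0 ≤ Real.log P := Real.log_nonneg hP
  have hD : (1 : ℝ) ≤ (n + 1) * (Real.log P + 1) := by
    have : (0 : ℝ) ≤ n := Nat.cast_nonneg _
    nlinarith [mul_nonneg this hlA]
  refine ⟨Real.log ((n + 1) * (Real.log P + 1)), Real.log_nonneg hD, fun V q hV hq => ?_⟩
  have hV1 : (1 : ℝ) ≤ V := by exact_mod_cast hV
  have h1 : ((q.natAbs : ℝ) + 3) ≤ (P * ((V : ℝ) + 3)) ^ (n + 1) := by
    have hx : (4 : ℝ) ≤ P * ((V : ℝ) + 3) := by nlinarith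
    have h2 : (P * (V : ℝ)) ^ n ≤ (P * ((V : ℝ) + 3)) ^ n := by
      gcongr
      linarith
    have h3 : (1 : ℝ) ≤ (P * ((V : ℝ) + 3)) ^ n := one_le_pow₀ (by linarith)
    rw [pow_succ]
    nlinarith
  have h3 : Real.log 3 ≤ Real.log ((q.natAbs : ℝ) + 3) :=
    Real.log_le_log (by norm_num) (by have : (0 : ℝ) ≤ q.natAbs := Nat.cast_nonneg _; linarith)
  have h3' := one_le_log3
  have h4 : 1 ≤ Real.log ((V : ℝ) + 3) :=
    h3'.trans (Real.log_le_log (by norm_num) (by linarith))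
  have h2 : Real.log ((q.natAbs : ℝ) + 3) ≤
      ((n + 1) * (Real.log P + 1)) * Real.log ((V : ℝ) + 3) := by
    calc Real.log ((q.natAbs : ℝ) + 3) ≤ Real.log ((P * ((V : ℝ) + 3)) ^ (n + 1)) :=
          Real.log_le_log (by positivity) h1
      _ = (n + 1) * (Real.log P + Real.log ((V : ℝ) + 3)) := by
          rw [Real.log_pow, Real.log_mul (by positivity) (by positivity)]
          push_cast
          ring
      _ ≤ _ := by
          rw [mul_assoc]
          refine mul_le_mul_of_nonneg_left ?_ (by positivity)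
          nlinarith
  calc Real.log (Real.log ((q.natAbs : ℝ) + 3))
      ≤ Real.log (((n + 1) * (Real.log P + 1)) * Real.log ((V : ℝ) + 3)) :=
        Real.log_le_log (by linarith) h2
    _ = _ := Real.log_mul (by linarith) (by linarith)

lemma sum_special {ι : Type} [Fintype ι] [DecidableEq ι] (f : ι → ℝ) (A B : ℝ) (i0 : ι)
    (h : ∀ i, f i ≤ A) (h0 : f i0 ≤ B) : ∑ i, f i ≤ B + ((Fintype.card ι : ℝ) - 1) * A := by
  rw [← add_sum_erase univ f (mem_univ i0)]
  have h1 : ∑ i ∈ univ.erase i0, f i ≤ ∑ _i ∈ univ.erase i0, A := sum_le_sum fun i _ => h i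
  rw [sum_const, card_erase_of_mem (mem_univ i0), card_univ, nsmul_eq_mul,
    Nat.cast_sub (Fintype.card_pos_iff.2 ⟨i0⟩), Nat.cast_one] at h1
  linarith

theorem prg (h : UBQ) : PRG := by
  classical
  intro K _ _ Θ0 c L O hLO hO4 hc hpair h4 hsub hnl hlin
  obtain ⟨z1, hlin⟩ := hlin
  have hKne : Nonempty K := by
    have : 0 < O.card := by omega
    obtain ⟨o, -⟩ := card_pos.1 this
    exact ⟨o⟩
  -- uniform constants for the nonlinear indices
  obtain ⟨η1, C3, hη1, hη1', hC3, hnl'⟩ : ∃ η1 C3 : ℝ, 0 < η1 ∧ η1 ≤ 1 ∧ 0 ≤ C3 ∧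
      ∀ i, i ∉ L → ∀ z x : ℕ, 3 ≤ x →
        ∑ p ∈ PS z x, ((Θ0 i p).card : ℝ) / p ≤ (1 - η1) * Real.log (Real.log x) + C3 := by
    have h1 : ∀ i, ∃ (η : ℝ) (C : ℝ), 0 < η ∧ (i ∉ L → ∀ z x : ℕ, 3 ≤ x →
        ∑ p ∈ PS z x, ((Θ0 i p).card : ℝ) / p ≤ (1 - η) * Real.log (Real.log x) + C) := by
      intro i
      by_cases hi : i ∈ L
      · exact ⟨1, 0, one_pos, fun h => absurd hi h⟩
      · obtain ⟨η, hη, C, hC⟩ := hnl i hi
        exact ⟨η, C, hη, fun _ => hC⟩
    choose η C hη hC using h1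
    obtain ⟨i0, hi0⟩ := Finite.exists_min η
    refine ⟨min (η i0) 1, ∑ i, |C i|, lt_min (hη i0) one_pos, min_le_right _ _,
      sum_nonneg fun i _ => abs_nonneg _, fun i hi z x hx => ?_⟩
    refine (hC i hi z x hx).trans ?_
    have h2 : 0 ≤ Real.log (Real.log x) := by
      apply Real.log_nonneg
      have h3 : Real.log 3 ≤ Real.log x :=
        Real.log_le_log (by norm_num) (by exact_mod_cast hx)
      linarith [one_le_log3]
    have h3 : C i ≤ ∑ i, |C i| :=
      (le_abs_self _).trans (single_le_sum (f := fun i => |C i|) (fun i _ => abs_nonneg _)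
        (mem_univ i))
    have h4 : min (η i0) 1 ≤ η i := (min_le_left _ _).trans (hi0 i)
    have h5 : (1 - η i) * Real.log (Real.log x) ≤ (1 - min (η i0) 1) * Real.log (Real.log x) :=
      mul_le_mul_of_nonneg_right (by linarith) h2
    linarith
  set η : ℝ := min (1 / 8) (η1 / 4) with hηdef
  have hη0 : 0 < η := lt_min (by norm_num) (by linarith)
  have hηa : η ≤ 1 / 8 := min_le_left _ _
  have hηb : η ≤ η1 / 4 := min_le_right _ _
  refine ⟨η, hη0, by linarith, max 2 z1, fun z hz => ?_⟩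
  have hz2 : 2 ≤ z := le_trans (le_max_left _ _) hz
  have hz1 : z1 ≤ z := le_trans (le_max_right _ _) hz
  -- the bound for the values
  set Cc : ℕ := 1 + ∑ i, ∑ k, (c i k).natAbs with hCc
  have hcc : ∀ i k, (c i k).natAbs ≤ Cc := by
    intro i k
    have s1 : (c i k).natAbs ≤ ∑ k, (c i k).natAbs :=
      single_le_sum (f := fun k => (c i k).natAbs) (fun _ _ => Nat.zero_le _) (mem_univ k)
    have s2 : ∑ k, (c i k).natAbs ≤ ∑ i, ∑ k, (c i k).natAbs :=
      single_le_sum (f := fun i => ∑ k, (c i k).natAbs) (fun _ _ => Nat.zero_le _) (mem_univ i)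
    omega
  have hCc1 : 1 ≤ Cc := by omega
  have hprim : 1 ≤ primorial z := primorial_pos z
  obtain ⟨C0, hC0, hM⟩ := mert
  obtain ⟨C1, hC1⟩ := h z hz2
  obtain ⟨C2, hC2, hS⟩ := size_logG (P := ((primorial z * Cc : ℕ) : ℝ))
    (by exact_mod_cast Nat.one_le_iff_ne_zero.2 (by positivity)) (Fintype.card K)
  refine ⟨C0 + |C1| + C2 + C3 + 1, by positivity, ?_⟩
  intro κ hκ Y V I hY hV hI u hu
  have hκ' : ∀ k, κ k ∈ EE z := fun k => Fintype.mem_piFinset.1 hκ k
  unfold UG at hu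
  rw [mem_filter, Fintype.mem_piFinset] at hu
  obtain ⟨hu1, hu2, hu3⟩ := hu
  have huV : ∀ k, k ∉ I → 1 ≤ u k ∧ u k ≤ V := by
    intro k hk
    have := hu1 k
    rw [if_neg hk, mem_Icc] at this
    exact this
  -- sizes
  have hlY : 0 ≤ Real.log (Real.log Y) := by
    apply Real.log_nonneg
    have h3 : Real.log 3 ≤ Real.log Y :=
      Real.log_le_log (by norm_num) (by exact_mod_cast hY)
    linarith [one_le_log3]
  have hlV : 0 ≤ Real.log (Real.log ((V : ℝ) + 3)) := by
    apply Real.log_nonneg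
    have hV1 : (1 : ℝ) ≤ V := by exact_mod_cast hV
    have h3 : Real.log 3 ≤ Real.log ((V : ℝ) + 3) :=
      Real.log_le_log (by norm_num) (by linarith)
    linarith [one_le_log3]
  have hMY := hM z Y hY
  have hnlY : ∀ i, i ∉ L → ∑ p ∈ PS z Y, ((Θ0 i p).card : ℝ) / p ≤
      (1 - η1) * Real.log (Real.log Y) + C3 := fun i hi => hnl' i hi z Y hY
  set LY := Real.log (Real.log Y) with hLY
  set LV := Real.log (Real.log ((V : ℝ) + 3)) with hLV
  set C : ℝ := C0 + |C1| + C2 + C3 + 1 with hC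
  set E : ℝ := C * (1 + LV) with hE
  have habs : C1 ≤ |C1| := le_abs_self _
  have habs0 : 0 ≤ |C1| := abs_nonneg _
  have hE1 : C + LV ≤ E := by
    have h1 : LV ≤ C * LV := by
      have : (1 : ℝ) ≤ C := by rw [hC]; linarith
      nlinarith
    rw [hE]
    linarith
  have hEa : C0 ≤ E := by linarith
  have hEb : C3 ≤ E := by linarith
  have hEc : C0 + C2 + LV + C1 ≤ E := by linarith
  have hE0 : 0 ≤ E := by linarith
  -- the sums
  let S : {k // k ∈ I} → ℝ := fun i =>
    ∑ p ∈ PS z Y, ((ThG (Tog O Θ0) κ u I i p).card : ℝ) / p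
  have hPz : ∀ p ∈ PS z Y, p.Prime ∧ z1 < p := fun p hp =>
    ⟨(PS_prime hp).1, lt_of_le_of_lt hz1 (PS_prime hp).2⟩
  -- bounds by the patterns
  have hgen : ∀ (i : {k // k ∈ I}) (B : ℕ),
      (∀ p ∈ PS z Y, (ThG (Tog O Θ0) κ u I i p).card ≤ B * (Θ0 i p).card) →
      S i ≤ B * ∑ p ∈ PS z Y, ((Θ0 i p).card : ℝ) / p := by
    intro i B hb
    rw [mul_sum]
    refine sum_le_sum fun p hp => ?_
    rw [← mul_div_assoc]
    refine div_le_div_of_nonneg_right ?_ (Nat.cast_nonneg _)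
    exact_mod_cast hb p hp
  have hlinS : ∀ i ∈ L, ∑ p ∈ PS z Y, ((Θ0 i p).card : ℝ) / p ≤ LY + E := by
    intro i hi
    calc ∑ p ∈ PS z Y, ((Θ0 i p).card : ℝ) / p ≤ ∑ p ∈ PS z Y, 1 / (p : ℝ) := by
          refine sum_le_sum fun p hp => ?_
          refine div_le_div_of_nonneg_right ?_ (Nat.cast_nonneg _)
          exact_mod_cast (hlin i hi p (hPz p hp).1 (hPz p hp).2).1
      _ ≤ LY + C0 := hMY
      _ ≤ LY + E := by linarith
  have hallS : ∀ i, ∑ p ∈ PS z Y, ((Θ0 i p).card : ℝ) / p ≤ LY + E := by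
    intro i
    by_cases hi : i ∈ L
    · exact hlinS i hi
    · have h1 := hnlY i hi
      nlinarith
  have hB2 : ∀ i : {k // k ∈ I}, S i ≤ 2 * (LY + E) := by
    intro i
    have h1 := hgen i 2 fun p _ => prL1 O Θ0 κ u I i p
    have h2 := hallS i
    push_cast at h1
    linarith
  have hB2n : ∀ i : {k // k ∈ I}, (i : K) ∉ L → S i ≤ 2 * ((1 - η1) * LY + E) := by
    intro i hi
    have h1 := hgen i 2 fun p _ => prL1 O Θ0 κ u I i p
    have h2 := hnlY i hi
    push_cast at h1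
    linarith
  have hB1 : (∃ l ∈ O, l ∉ I) → ∀ i : {k // k ∈ I}, S i ≤ LY + E := by
    rintro ⟨l, hlO, hlI⟩ i
    have h1 := hgen i 1 fun p _ => by rw [one_mul]; exact prL2 O Θ0 κ u I i p hlO hlI
    have h2 := hallS i
    push_cast at h1
    linarith
  have hB1n : (∃ l ∈ O, l ∉ I) → ∀ i : {k // k ∈ I}, (i : K) ∉ L →
      S i ≤ (1 - η1) * LY + E := by
    rintro ⟨l, hlO, hlI⟩ i hi
    have h1 := hgen i 1 fun p _ => by rw [one_mul]; exact prL2 O Θ0 κ u I i p hlO hlI
    have h2 := hnlY i hi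
    push_cast at h1
    linarith
  -- the bound by characters
  have hchar : ∀ (i : {k // k ∈ I}) (B : ℕ) (T : Finset K), (i : K) ∈ L → (∀ k ∈ T, k ∉ I) →
      Even (T ∩ O).card → ¬ IsSquare (∏ k ∈ T, (κ k * u k * c i k)) →
      (∀ p ∈ PS z Y, (ThG (Tog O Θ0) κ u I i p).card ≤ B * (Θ0 i p).card) →
      S i ≤ B / 2 * (LY + E) := by
    intro i B T hiL hT he hsq hb
    set q : ℤ := ∏ k ∈ T, (κ k * u k * c i k) with hq
    have hqs : (q.natAbs : ℝ) ≤ (((primorial z * Cc : ℕ) : ℝ) * V) ^ Fintype.card K := by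
      have h1 : q.natAbs ≤ ∏ k ∈ T, (primorial z * Cc * V) := by
        rw [hq, ← Int.natAbsHom_apply, map_prod]
        refine prod_le_prod' fun k hk => ?_
        rw [Int.natAbsHom_apply, Int.natAbs_mul, Int.natAbs_mul, Int.natAbs_natCast]
        have a1 := (EE_abs (hκ' k)).1
        have a2 := (huV k (hT k hk)).2
        have a3 := hcc i k
        calc (κ k).natAbs * u k * (c i k).natAbs ≤ primorial z * V * Cc := by gcongr
          _ = primorial z * Cc * V := by ring
      have h2 : q.natAbs ≤ (primorial z * Cc * V) ^ Fintype.card K := by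
        refine h1.trans ?_
        rw [prod_const]
        refine Nat.pow_le_pow_right ?_ (card_le_univ T)
        positivity
      calc (q.natAbs : ℝ) ≤ (((primorial z * Cc * V) ^ Fintype.card K : ℕ) : ℝ) := by
            exact_mod_cast h2
        _ = _ := by push_cast; ring
    have h1 := hS V q hV hqs
    have h2 := hC1 q hsq Y
    have hB0 : (0 : ℝ) ≤ B := Nat.cast_nonneg _
    have h5 : S i ≤ ∑ p ∈ PS z Y, ((B : ℝ) / 2 * (1 / (p : ℝ)) + B / 2 * (Jr q p / (p : ℝ))) := by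
      refine sum_le_sum fun p hp => ?_
      have hpp := (hPz p hp).1
      have hl := hlin i hiL p hpp (hPz p hp).2
      have hp0 : (0 : ℝ) < p := by exact_mod_cast hpp.pos
      have h3 : ((ThG (Tog O Θ0) κ u I i p).card : ℝ) ≤ B / 2 * (1 + Jr q p) := by
        by_cases hb0 : (ThG (Tog O Θ0) κ u I i p).card = 0
        · rw [hb0, Nat.cast_zero]
          have h4 : (-1 : ℝ) ≤ Jr q p := by
            unfold Jr
            rcases jacobiSym.trichotomy q p with h | h | h <;> rw [h] <;> norm_num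
          have : 0 ≤ 1 + Jr q p := by linarith
          positivity
        · have h4 := prL4 O Θ0 c κ u I i hl.2 hT he hb0
          have h6 : Jr q p = 1 := by
            unfold Jr
            rw [hq, h4]
            norm_num
          rw [h6]
          have h7 : (ThG (Tog O Θ0) κ u I i p).card ≤ B := by
            refine (hb p hp).trans ?_
            have := Nat.mul_le_mul_left B hl.1
            simpa using this
          have h8 : ((ThG (Tog O Θ0) κ u I i p).card : ℝ) ≤ B := by exact_mod_cast h7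
          linarith
      calc ((ThG (Tog O Θ0) κ u I i p).card : ℝ) / p ≤ (B / 2 * (1 + Jr q p)) / p :=
            div_le_div_of_nonneg_right h3 hp0.le
        _ = _ := by ring
    rw [sum_add_distrib, ← mul_sum, ← mul_sum] at h5
    have h6 : ∑ p ∈ PS z Y, Jr q p / (p : ℝ) ≤ C2 + LV + C1 := by linarith
    have h7 : (B : ℝ) / 2 * ∑ p ∈ PS z Y, 1 / (p : ℝ) ≤ B / 2 * (LY + C0) :=
      mul_le_mul_of_nonneg_left hMY (by positivity)
    have h8 : (B : ℝ) / 2 * ∑ p ∈ PS z Y, Jr q p / (p : ℝ) ≤ B / 2 * (C2 + LV + C1) :=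
      mul_le_mul_of_nonneg_left h6 (by positivity)
    have h9 : (B : ℝ) / 2 * (LY + C0) + B / 2 * (C2 + LV + C1) ≤ B / 2 * (LY + E) := by
      rw [← mul_add]
      exact mul_le_mul_of_nonneg_left (by linarith) (by positivity)
    linarith
  have hm0 : ∀ T : Finset K, (∀ k ∈ T, k ∉ I) → ∀ l ∈ T, κ l * (u l : ℤ) ≠ 0 := by
    intro T hT l hl
    have b1 := (EE_abs (hκ' l)).2
    have b2 : (u l : ℤ) ≠ 0 := by
      have := (huV l (hT l hl)).1
      have : 0 < u l := by omega
      exact_mod_cast this.ne'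
    exact mul_ne_zero b1 b2
  show ∑ i : {k // k ∈ I}, S i ≤ ((1 - η) * LY + E) * 2 ^ (Fintype.card {k // k ∈ I} - 1)
  have hcardI : Fintype.card {k // k ∈ I} = I.card := Fintype.card_coe I
  have hIpos : 1 ≤ I.card := card_pos.2 hI
  have h0 : 0 ≤ LY + E := by linarith
  have hηLY : 3 / 4 * (LY + E) ≤ (1 - η) * LY + E := by nlinarith
  have hsumle : ∀ A : ℝ, (∀ i, S i ≤ A) → ∑ i, S i ≤ I.card * A := by
    intro A hA
    calc ∑ i, S i ≤ ∑ _i : {k // k ∈ I}, A := sum_le_sum fun i _ => hA i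
      _ = I.card * A := by rw [sum_const, card_univ, hcardI, nsmul_eq_mul]
  rw [hcardI]
  rcases Nat.lt_or_ge 4 I.card with h5 | h5
  · calc ∑ i, S i ≤ I.card * (2 * (LY + E)) := hsumle _ hB2
      _ = 2 * I.card * (LY + E) := by ring
      _ ≤ 3 / 4 * 2 ^ (I.card - 1) * (LY + E) := by
          have := pow_a (N := I.card) (by omega)
          nlinarith
      _ = 3 / 4 * (LY + E) * 2 ^ (I.card - 1) := by ring
      _ ≤ _ := mul_le_mul_of_nonneg_right hηLY (by positivity)
  by_cases hOI : O ⊆ I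
  · have hOI' : O = I := eq_of_subset_of_card_le hOI (by omega)
    have hI4 : I.card = 4 := by
      have := card_le_card hOI
      omega
    by_cases hex : ∃ i ∈ O, i ∉ L
    · obtain ⟨i, hiO, hiL⟩ := hex
      have hs := sum_special S _ _ ⟨i, hOI hiO⟩ hB2 (hB2n ⟨i, hOI hiO⟩ hiL)
      rw [hcardI, hI4] at hs
      rw [hI4]
      norm_num at hs ⊢
      nlinarith
    · push Not at hex
      obtain ⟨i, hiO, k, hkO, T, hTO, hTs⟩ := h4 (by rw [hOI']; exact hI4) hex
      have hT : ∀ l ∈ T, l ∉ I := fun l hl hlI =>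
        (disjoint_left.1 hTO hl) (by rw [hOI']; exact hlI)
      have he : Even (T ∩ O).card := by
        rw [disjoint_iff_inter_eq_empty.1 hTO, card_empty]
        exact Even.zero
      have hfin : ∀ j : {k // k ∈ I}, (j : K) ∈ L →
          ¬ IsSquare (∏ l ∈ T, (κ l * u l * c j l)) →
          ∑ i, S i ≤ ((1 - η) * LY + E) * 2 ^ (I.card - 1) := by
        intro j hj hq
        have h1 := hchar j 2 T hj hT he hq fun p _ => prL1 O Θ0 κ u I j p
        have hs := sum_special S _ _ j hB2 h1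
        rw [hcardI, hI4] at hs
        rw [hI4]
        norm_num at hs ⊢
        nlinarith
      rcases prSq c κ u T i k (hm0 T hT) hTs with hq | hq
      · exact hfin ⟨i, hOI hiO⟩ (hex i hiO) hq
      · exact hfin ⟨k, hOI hkO⟩ (hex k hkO) hq
  · have hex : ∃ l ∈ O, l ∉ I := by
      by_contra hcon
      push Not at hcon
      exact hOI hcon
    obtain ⟨l0, hl0O, hl0I⟩ := hex
    have hL2 : ∀ (j : {k // k ∈ I}), ∀ p ∈ PS z Y,
        (ThG (Tog O Θ0) κ u I j p).card ≤ 1 * (Θ0 j p).card := fun j p _ => by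
      rw [one_mul]
      exact prL2 O Θ0 κ u I j p hl0O hl0I
    have hone := hB1 ⟨l0, hl0O, hl0I⟩
    have honen := hB1n ⟨l0, hl0O, hl0I⟩
    rcases Nat.lt_or_ge 2 I.card with h3 | h3
    · calc ∑ i, S i ≤ I.card * (LY + E) := hsumle _ hone
        _ ≤ 3 / 4 * 2 ^ (I.card - 1) * (LY + E) := by
            have := pow_b (r := I.card) (by omega)
            nlinarith
        _ = 3 / 4 * (LY + E) * 2 ^ (I.card - 1) := by ring
        _ ≤ _ := mul_le_mul_of_nonneg_right hηLY (by positivity)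
    rcases Nat.lt_or_ge 1 I.card with h2 | h2
    · -- two large variables
      have hcard2 : I.card = 2 := by omega
      by_cases hex : ∃ i ∈ I, i ∉ L
      · obtain ⟨i, hiI, hiL⟩ := hex
        have hs := sum_special S _ _ ⟨i, hiI⟩ hone (honen ⟨i, hiI⟩ hiL)
        rw [hcardI, hcard2] at hs
        rw [hcard2]
        norm_num at hs ⊢
        nlinarith
      · push Not at hex
        obtain ⟨i, k, hik, hIik⟩ := card_eq_two.1 hcard2
        have hi : i ∈ I := by rw [hIik]; simp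
        have hk : k ∈ I := by rw [hIik]; simp
        obtain ⟨T, hiT, hkT, he, hTs⟩ := hpair i (hex i hi) k (hex k hk) hik
        have hT : ∀ l ∈ T, l ∉ I := by
          intro l hl hlI
          rw [hIik, mem_insert, mem_singleton] at hlI
          rcases hlI with rfl | rfl
          · exact hiT hl
          · exact hkT hl
        have hfin : ∀ j : {k // k ∈ I}, (j : K) ∈ L →
            ¬ IsSquare (∏ l ∈ T, (κ l * u l * c j l)) →
            ∑ i, S i ≤ ((1 - η) * LY + E) * 2 ^ (I.card - 1) := by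
          intro j hj hq
          have h1 := hchar j 1 T hj hT he hq (hL2 j)
          have hs := sum_special S _ _ j hone h1
          rw [hcardI, hcard2] at hs
          rw [hcard2]
          norm_num at hs ⊢
          nlinarith
        rcases prSq c κ u T i k (hm0 T hT) hTs with hq | hq
        · exact hfin ⟨i, hi⟩ (hex i hi) hq
        · exact hfin ⟨k, hk⟩ (hex k hk) hq
    · -- one large variable
      have hcard1 : I.card = 1 := by omega
      obtain ⟨i, hIi⟩ := card_eq_one.1 hcard1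
      have hi : i ∈ I := by rw [hIi]; simp
      by_cases hiL : i ∈ L
      · obtain ⟨T, hiT, he, hq⟩ := hu3 i hiL hIi
        have hT : ∀ l ∈ T, l ∉ I := by
          intro l hl hlI
          rw [hIi, mem_singleton] at hlI
          exact hiT (hlI ▸ hl)
        have h1 := hchar ⟨i, hi⟩ 1 T hiL hT he hq (hL2 ⟨i, hi⟩)
        have hs := sum_special S _ _ ⟨i, hi⟩ hone h1
        rw [hcardI, hcard1] at hs
        rw [hcard1]
        norm_num at hs ⊢
        nlinarith
      · have hs := sum_special S _ _ ⟨i, hi⟩ hone (honen ⟨i, hi⟩ hiL)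
        rw [hcardI, hcard1] at hs
        rw [hcard1]
        norm_num at hs ⊢
        nlinarith

end Pool.Agent.Y488.TM
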