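import Pool.Agent.Y488.TM.Stm
import Pool.Agent.W500.TW.Reds

/-!
# Project TM: REDM, reduction of the twists with a point of nonconstant type to tuples
(proof by helper891, adapted from `Pool.Agent.W500.TW.reds`)
-/

set_option autoImplicit false

namespace Pool.Agent.Y488.TM

open Finset Polynomial Pool.Agent.W262.RK Pool.Agent.W262.TW Pool.Agent.W500.TW

theorem redm (h : LOCM) : REDM := by
  intro K _ _ f hirr hna
  obtain ⟨z0, hloc⟩ := h K f hirr hna
  refine ⟨z0, fun z hz X => ?_⟩
  classical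
  set F : (K → ℤ) → Finset (K → ℕ) := fun κ =>
    (Fintype.piFinset (fun _ : K => Icc 1 X)).filter (fun D => (∀ i, Rg z (D i)) ∧
    (∀ i j, i ≠ j → (D i).Coprime (D j)) ∧ ∏ i, D i ≤ X ∧
    (∀ i, ∀ p ∈ (D i).primeFactors, ngs (fun k => κ k * D k) i p ∈ Tog (Od f) (Th f) i p) ∧
    NCG (val f) (Ln f) (Od f) (fun k => κ k * D k)) with hF
  set S : Finset (ℤ × (Σ _ : K → ℤ, K → ℕ)) :=
    (EE z) ×ˢ ((Fintype.piFinset (fun _ : K => EE z)).sigma F) with hS
  have hsub : {d : ℤ | d.natAbs ≤ X ∧ Squarefree d ∧ BadM f d} ⊆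
      ((S.image (fun q => q.1 * ((∏ k, q.2.2 k : ℕ) : ℤ)) : Finset ℤ) : Set ℤ) := by
    rintro d ⟨hdX, hdsf, x, w, y, hxw, hy, hd, hNC⟩
    have hd0 : d ≠ 0 := hdsf.ne_zero
    have hX0 : ∀ k, hom (f k) x w ≠ 0 := by
      intro k hk
      have h1 : d * y ^ 2 = 0 := by
        rw [hd]; exact Finset.prod_eq_zero (Finset.mem_univ k) hk
      rcases mul_eq_zero.mp h1 with h | h
      · exact hd0 h
      · exact hy (pow_eq_zero_iff (two_ne_zero) |>.mp h)
    choose κ hκ D hD t ht hX using fun k => decomp z _ (hX0 k)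
    obtain ⟨d0, hd0E, D', hD', hdd⟩ := decomp_sf z d hdsf
    have hDX : ∀ i : K, ∀ p : ℕ, p ∣ D i → (p : ℤ) ∣ hom (f i) x w := by
      intro i p hp
      rw [hX i]
      exact Dvd.dvd.mul_right (Dvd.dvd.mul_left (by exact_mod_cast hp) _) _
    have hnd : ∀ i : K, ∀ p : ℕ, p.Prime → p ∣ D i → ∀ k, k ≠ i → ¬ (p : ℤ) ∣ hom (f k) x w := by
      intro i p hp hpd
      exact (hloc p hp (lt_of_le_of_lt hz ((hD i).2 p hp hpd)) x w hxw i (hDX i p hpd)).1
    have hcop : ∀ i j, i ≠ j → (D i).Coprime (D j) := by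
      intro i j hij
      apply Nat.coprime_of_dvd
      intro p hp h1 h2
      exact hnd i p hp h1 j hij.symm (hDX j p h2)
    have hP : Rg z (∏ k, D k) := Rg_prod D hD hcop
    have hDP : D' = ∏ k, D k := by
      have h1 : d0 * D' * y ^ 2 = (∏ k, κ k) * (∏ k, D k : ℕ) * (∏ k, t k) ^ 2 := by
        rw [← hdd, hd, Finset.prod_congr rfl (fun k _ => hX k), Finset.prod_mul_distrib,
          Finset.prod_mul_distrib, Finset.prod_pow]
        push_cast
        ring
      have h2 := congrArg Int.natAbs h1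
      rw [Int.natAbs_mul, Int.natAbs_mul, Int.natAbs_mul, Int.natAbs_mul, Int.natAbs_pow,
        Int.natAbs_pow, Int.natAbs_natCast, Int.natAbs_natCast] at h2
      refine rough_unique (Int.natAbs_ne_zero.mpr (EE_ne hd0E))
        (Int.natAbs_ne_zero.mpr (Finset.prod_ne_zero_iff.mpr fun k _ => EE_ne (hκ k)))
        (fun p hp hz => EE_prime hd0E hp hz) ?_ hD' hP (Int.natAbs_ne_zero.mpr hy)
        (Int.natAbs_ne_zero.mpr (Finset.prod_ne_zero_iff.mpr fun k _ => ht k)) h2
      intro p hp hz hpd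
      have h3 : (p : ℤ) ∣ ∏ k, κ k := Int.natCast_dvd.mpr hpd
      rw [(Nat.prime_iff_prime_int.mp hp).dvd_finsetProd_iff] at h3
      obtain ⟨k, _, hk⟩ := h3
      exact EE_prime (hκ k) hp hz (Int.natCast_dvd.mp hk)
    have hPX : ∏ k, D k ≤ X := by
      rw [← hDP]
      refine le_trans ?_ hdX
      rw [hdd, Int.natAbs_mul, Int.natAbs_natCast]
      exact Nat.le_mul_of_pos_left _ (Int.natAbs_pos.mpr (EE_ne hd0E))
    have hDpos : ∀ k, 1 ≤ D k := fun k => Nat.one_le_iff_ne_zero.mpr (hD k).1.ne_zero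
    have hDle : ∀ k, D k ≤ X := fun k =>
      (Nat.le_of_dvd (Finset.prod_pos fun k _ => hDpos k)
        (Finset.dvd_prod_of_mem D (Finset.mem_univ k))).trans hPX
    rw [Finset.coe_image]
    refine ⟨⟨d0, ⟨κ, D⟩⟩, ?_, ?_⟩
    · rw [Finset.mem_coe, hS, Finset.mem_product, Finset.mem_sigma]
      refine ⟨hd0E, Fintype.mem_piFinset.mpr hκ, ?_⟩
      rw [hF]
      simp only [Finset.mem_filter, Fintype.mem_piFinset, Finset.mem_Icc]
      refine ⟨fun k => ⟨hDpos k, hDle k⟩, hD, hcop, hPX, ?_, ?_⟩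
      · intro i p hp
        have hpp : p.Prime := Nat.prime_of_mem_primeFactors hp
        have hpd : p ∣ D i := Nat.dvd_of_mem_primeFactors hp
        have hzp : z0 < p := lt_of_le_of_lt hz ((hD i).2 p hpp hpd)
        have : Fact p.Prime := ⟨hpp⟩
        obtain ⟨h1, h2⟩ := hloc p hpp hzp x w hxw i (hDX i p hpd)
        have h3 : ngs (fun k => κ k * D k) i p = ngs (fun k => hom (f k) x w) i p := by
          unfold ngs
          apply Finset.filter_congr
          intro k _
          by_cases hk : k = i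
          · simp [hk]
          · have hpt : ¬ (p : ℤ) ∣ t k := by
              intro h
              refine h1 k hk ?_
              rw [hX k]
              exact Dvd.dvd.mul_left (Dvd.dvd.pow h two_ne_zero) _
            have h4 : jacobiSym (hom (f k) x w) p = jacobiSym (κ k * D k) p := by
              rw [hX k, jacobiSym.mul_left _ (t k ^ 2), jacobiSym.sq_one', mul_one]
              rw [Int.isCoprime_iff_gcd_eq_one.symm]
              exact ((Nat.prime_iff_prime_int.mp hpp).irreducible.coprime_iff_not_dvd.mpr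
                hpt).symm
            rw [h4]
        rw [h3]
        exact h2
      · intro i hi
        obtain ⟨T, hT1, hT2, hns⟩ := hNC i hi
        refine ⟨T, hT1, hT2, ?_⟩
        rintro ⟨r, hr⟩
        apply hns
        refine ⟨r * ∏ k ∈ T, t k, ?_⟩
        have h5 : ∏ k ∈ T, (hom (f k) x w * val f i k) =
            (∏ k ∈ T, (κ k * D k * val f i k)) * (∏ k ∈ T, t k) ^ 2 := by
          rw [← Finset.prod_pow, ← Finset.prod_mul_distrib]
          refine Finset.prod_congr rfl fun k _ => ?_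
          rw [hX k]
          ring
        simp only at hr ⊢
        rw [h5, hr]
        ring
    · simp only
      rw [← hDP, hdd]
  calc {d : ℤ | d.natAbs ≤ X ∧ Squarefree d ∧ BadM f d}.ncard
      ≤ ((S.image (fun q => q.1 * ((∏ k, q.2.2 k : ℕ) : ℤ)) : Finset ℤ) : Set ℤ).ncard :=
        Set.ncard_le_ncard hsub (Finset.finite_toSet _)
    _ = (S.image (fun q => q.1 * ((∏ k, q.2.2 k : ℕ) : ℤ))).card := Set.ncard_coe_finset _
    _ ≤ S.card := Finset.card_image_le
    _ = (EE z).card * ∑ κ ∈ Fintype.piFinset (fun _ : K => EE z), (F κ).card := by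
        rw [hS, Finset.card_product, Finset.card_sigma]
    _ = _ := by
        rfl

end Pool.Agent.Y488.TM
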