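import Pool.Agent.W262.TW.Full
import Pool.Agent.W262.TW.Rat3
import Pool.Agent.TH213.SP.Red
import Pool.Agent.TH213.SP.Gen
import Pool.Agent.Y488.TM.Reg
import Pool.Agent.Y488.TM.Key
import Pool.Agent.Y488.TM.Pr
import Pool.Agent.Y488.TM.Loc
import Pool.Agent.Y488.TM.Red
import Pool.Agent.Y488.TM.Ant
import Pool.Agent.Y488.TM.Fin

/-! # Project TM: rational points of the twists, mixed factors -/

set_option autoImplicit false

namespace Pool.Agent.Y488.TM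

open Finset Polynomial Pool.Agent.W262.RK Pool.Agent.W262.TW

theorem finm_all : FINM :=
  finm (redm locm) (keyg abs1_all regg) (prg Pool.Agent.W578.TW.UBQ.ubq) linm antm

lemma hom_smul (f : ℤ[X]) {R : Type*} [CommRing R] (c x w : R) :
    hom f (c * x) (c * w) = c ^ f.natDegree * hom f x w := by
  unfold hom
  rw [mul_sum]
  refine sum_congr rfl fun i hi => ?_
  rw [mem_range] at hi
  have e : c ^ f.natDegree = c ^ i * c ^ (f.natDegree - i) := by
    rw [← pow_add]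
    congr 1
    omega
  rw [e, mul_pow, mul_pow]
  ring

lemma homQ (f : ℤ[X]) (x w : ℤ) : hom f (x : ℚ) (w : ℚ) = ((hom f x w : ℤ) : ℚ) :=
  hom_map' (Int.castRingHom ℚ) f x w

section K

variable {K : Type} [Fintype K] [DecidableEq K]

/-- `(x : w : y)` is a rational point with `y ≠ 0` of the curve `d y² = ∏ k, F k (x, w)` -/
def PointQ (f : K → ℤ[X]) (d : ℤ) (x w y : ℚ) : Prop :=
  y ≠ 0 ∧ (d : ℚ) * y ^ 2 = ∏ k, hom (f k) x w

/-- `(x : w)` is of constant type -/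
def ConstQ (f : K → ℤ[X]) (x w : ℚ) : Prop :=
  ∃ i, (f i).natDegree = 1 ∧ ∀ T : Finset K, i ∉ T → Even (∑ k ∈ T, (f k).natDegree) →
    IsSquare (∏ k ∈ T, (hom (f k) x w *
      hom (f k) (-((f i).coeff 0 : ℚ)) ((f i).coeff 1 : ℚ)))

lemma even_iff (f : K → ℤ[X]) (T : Finset K) :
    Even (∑ k ∈ T, (f k).natDegree) ↔ Even (T ∩ Od f).card := by
  rw [Finset.even_sum_iff_even_card_odd]
  have : T.filter (fun k => Odd (f k).natDegree) = T ∩ Od f := by
    ext k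
    simp [Od]
  rw [this]

lemma val_cast (f : K → ℤ[X]) (i k : K) :
    hom (f k) (-((f i).coeff 0 : ℚ)) ((f i).coeff 1 : ℚ) = (val f i k : ℚ) := by
  unfold val
  rw [← homQ]
  push_cast
  rfl

omit [Fintype K] in
lemma sq_scale {T : Finset K} {n : K → ℕ} {c : ℚ} {a b : K → ℚ} (hT : Even (∑ k ∈ T, n k))
    (h : IsSquare (∏ k ∈ T, (a k * b k))) : IsSquare (∏ k ∈ T, (c ^ n k * a k * b k)) := by
  obtain ⟨m, hm⟩ := hT
  have e : ∏ k ∈ T, (c ^ n k * a k * b k) = (c ^ m) ^ 2 * ∏ k ∈ T, (a k * b k) := by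
    have e1 : ∀ k ∈ T, c ^ n k * a k * b k = c ^ n k * (a k * b k) := fun k _ => by ring
    rw [prod_congr rfl e1, prod_mul_distrib, prod_pow_eq_pow_sum, hm, ← pow_mul, mul_comm m 2,
      two_mul]
  rw [e]
  exact (IsSquare.sq _).mul h

/-- every rational point has coprime integral coordinates -/
lemma integralM (f : K → ℤ[X]) (hpos : ∃ k, 0 < (f k).natDegree) {n : ℕ}
    (hn : ∑ k, (f k).natDegree = 2 * n) {d : ℤ}
    (hd : Squarefree d) {x w y : ℚ} (hy : y ≠ 0)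
    (h : (d : ℚ) * y ^ 2 = ∏ k, hom (f k) x w) :
    ∃ (x' w' y' : ℤ) (c : ℚ), c ≠ 0 ∧ x = c * x' ∧ w = c * w' ∧ IsCoprime x' w' ∧ y' ≠ 0 ∧
      d * y' ^ 2 = ∏ k, hom (f k) x' w' := by
  have hd0 : (d : ℚ) ≠ 0 := by exact_mod_cast hd.ne_zero
  have hxw : ¬ (x = 0 ∧ w = 0) := by
    rintro ⟨rfl, rfl⟩
    have h1 : (d : ℚ) * y ^ 2 = 0 := by
      rw [h]
      obtain ⟨k, hk⟩ := hpos
      refine prod_eq_zero (mem_univ k) ?_
      have h2 := hom_smul (f k) (0 : ℚ) 0 0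
      rw [zero_mul, zero_pow hk.ne', zero_mul] at h2
      exact h2
    exact mul_ne_zero hd0 (pow_ne_zero 2 hy) h1
  have hxd : (x.den : ℚ) ≠ 0 := by exact_mod_cast x.den_nz
  have hwd : (w.den : ℚ) ≠ 0 := by exact_mod_cast w.den_nz
  have hx : x * x.den = x.num := Rat.mul_den_eq_num x
  have hw : w * w.den = w.num := Rat.mul_den_eq_num w
  have hg : 0 < Int.gcd (x.num * w.den) (w.num * x.den) := by
    rw [Nat.pos_iff_ne_zero, Ne, Int.gcd_eq_zero_iff]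
    rintro ⟨h1, h2⟩
    apply hxw
    have h3 : (w.den : ℤ) ≠ 0 := by exact_mod_cast w.den_nz
    have h4 : (x.den : ℤ) ≠ 0 := by exact_mod_cast x.den_nz
    refine ⟨?_, ?_⟩
    · rw [← Rat.num_eq_zero]
      exact (mul_eq_zero.1 h1).resolve_right h3
    · rw [← Rat.num_eq_zero]
      exact (mul_eq_zero.1 h2).resolve_right h4
  obtain ⟨x', w', h1, h2, h3⟩ := Int.exists_gcd_one hg
  generalize hgd : Int.gcd (x.num * w.den) (w.num * x.den) = g at *
  have hg0 : (g : ℚ) ≠ 0 := by exact_mod_cast hg.ne'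
  set c : ℚ := g / (x.den * w.den) with hc
  have hc0 : c ≠ 0 := div_ne_zero hg0 (mul_ne_zero hxd hwd)
  have h2q : (x.num : ℚ) * w.den = x' * g := by exact_mod_cast h2
  have h3q : (w.num : ℚ) * x.den = w' * g := by exact_mod_cast h3
  have hx2 : x = c * x' := by
    rw [hc]
    field_simp
    rw [← hx] at h2q
    linear_combination h2q
  have hw2 : w = c * w' := by
    rw [hc]
    field_simp
    rw [← hw] at h3q
    linear_combination h3q
  have hhom : ∏ k, hom (f k) x w = (c ^ n) ^ 2 * ((∏ k, hom (f k) x' w' : ℤ) : ℚ) := by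
    rw [hx2, hw2]
    simp_rw [hom_smul, homQ]
    rw [prod_mul_distrib, prod_pow_eq_pow_sum, hn, ← pow_mul, mul_comm n 2]
    push_cast
    rfl
  rw [hhom] at h
  have hcn : c ^ n ≠ 0 := pow_ne_zero n hc0
  have h4 : (d : ℚ) * (y / c ^ n) ^ 2 = ((∏ k, hom (f k) x' w' : ℤ) : ℚ) := by
    rw [div_pow]
    field_simp
    linear_combination h
  obtain ⟨y', hy'⟩ := Pool.Agent.TH213.SP.int_of hd h4
  refine ⟨x', w', y', c, hc0, hx2, hw2, Int.isCoprime_iff_gcd_eq_one.2 h1, ?_, ?_⟩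
  · rintro rfl
    rw [Int.cast_zero, div_eq_zero_iff] at hy'
    exact hy'.elim hy hcn
  · rw [hy'] at h4
    exact_mod_cast h4

/-- the points of nonconstant type -/
lemma bad_of (f : K → ℤ[X]) (hpos : ∃ k, 0 < (f k).natDegree) {n : ℕ}
    (hn : ∑ k, (f k).natDegree = 2 * n) {d : ℤ} (hd : Squarefree d) {x w y : ℚ}
    (h : PointQ f d x w y) (hc : ¬ ConstQ f x w) : BadM f d := by
  obtain ⟨x', w', y', c, hc0, hx, hw, hco, hy', heq⟩ := integralM f hpos hn hd h.1 h.2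
  refine ⟨x', w', y', hco, hy', heq, ?_⟩
  intro i hi
  by_contra hne
  push Not at hne
  apply hc
  unfold Ln at hi
  rw [mem_filter] at hi
  refine ⟨i, hi.2, fun T hT hev => ?_⟩
  have h1 := hne T hT ((even_iff f T).1 hev)
  rw [hx, hw]
  simp_rw [hom_smul, val_cast]
  refine sq_scale (a := fun k => hom (f k) (x' : ℚ) (w' : ℚ)) hev ?_
  have h2 : ∏ k ∈ T, (hom (f k) (x' : ℚ) (w' : ℚ) * (val f i k : ℚ)) =
      ((∏ k ∈ T, (hom (f k) x' w' * val f i k) : ℤ) : ℚ) := by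
    push_cast
    refine prod_congr rfl fun k _ => ?_
    rw [homQ]
  rw [h2, Rat.isSquare_intCast_iff]
  exact h1

/-- the hypotheses in rational terms -/
structure Hyp (f : K → ℤ[X]) : Prop where
  irr : ∀ k, Irreducible ((f k).map (Int.castRingHom ℚ))
  ass : ∀ k l, k ≠ l →
    ¬ Associated ((f k).map (Int.castRingHom ℚ)) ((f l).map (Int.castRingHom ℚ))
  even : Even (∑ k, (f k).natDegree)
  four : 4 ≤ (Od f).card
  pair : ∀ i ∈ Ln f, ∀ k ∈ Ln f, i ≠ k → ∃ T : Finset K, i ∉ T ∧ k ∉ T ∧ Even (T ∩ Od f).card ∧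
    ¬ IsSquare (∏ l ∈ T, (val f i l * val f k l))
  quad : (Od f).card = 4 → Od f ⊆ Ln f → ∃ i ∈ Od f, ∃ k ∈ Od f, ∃ T : Finset K,
    Disjoint T (Od f) ∧ ¬ IsSquare (∏ l ∈ T, (val f i l * val f k l))

theorem main (f : K → ℤ[X]) (hf : Hyp f) : ∃ δ : ℝ, 0 < δ ∧ ∃ C : ℝ, ∀ X : ℕ, 3 ≤ X →
    ({d : ℤ | d.natAbs ≤ X ∧ Squarefree d ∧
      ∃ x w y : ℚ, PointQ f d x w y ∧ ¬ ConstQ f x w}.ncard : ℝ) ≤
      C * X * (Real.log X) ^ (-δ) := by
  obtain ⟨δ, hδ, C, hC⟩ := finm_all K f hf.irr hf.ass hf.four hf.pair hf.quad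
  refine ⟨δ, hδ, C, fun X hX => le_trans ?_ (hC X hX)⟩
  obtain ⟨n, hn⟩ := hf.even
  have hpos : ∃ k, 0 < (f k).natDegree := by
    have h1 : 0 < (Od f).card := by have := hf.four; omega
    obtain ⟨k, hk⟩ := card_pos.1 h1
    unfold Od at hk
    rw [mem_filter] at hk
    exact ⟨k, hk.2.pos⟩
  refine Nat.cast_le.2 (Set.ncard_le_ncard ?_ (Pool.Agent.TH213.SP.fin_le X _))
  rintro d ⟨h1, h2, x, w, y, h3, h4⟩
  exact ⟨h1, h2, bad_of f hpos (by omega : ∑ k, (f k).natDegree = 2 * n) h2 h3 h4⟩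

end K

end Pool.Agent.Y488.TM
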