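import Pool.Agent.Y488.TM.StmL
import Pool.Agent.Y488.TM.Loc

/-!
# Project TM (helper488), part PLOC (helper888): coverings at large primes
-/

set_option autoImplicit false

namespace Pool.Agent.Y488.TM

open Finset Polynomial Pool.Agent.W262.RK Pool.Agent.W262.TW
open Pool.Agent.W975.TW (hom_map hom_smul toZ_iff)

/-- coprime integers with given classes modulo `p`, not both zero -/
theorem lift_cop {p : ℕ} [hp : Fact p.Prime] (a b : ZMod p) (h : a ≠ 0 ∨ b ≠ 0) :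
    ∃ X W : ℤ, IsCoprime X W ∧ (X : ZMod p) = a ∧ (W : ZMod p) = b := by
  have main : ∀ a b : ZMod p, a ≠ 0 →
      ∃ X W : ℤ, IsCoprime X W ∧ (X : ZMod p) = a ∧ (W : ZMod p) = b := by
    intro a b ha
    have hval : a.val ≠ 0 := by
      intro h0
      exact ha ((ZMod.val_eq_zero a).1 h0)
    have hlt : a.val < p := ZMod.val_lt a
    have hco : Nat.Coprime p a.val :=
      (hp.out.coprime_iff_not_dvd).2 (Nat.not_dvd_of_pos_of_lt (Nat.pos_of_ne_zero hval) hlt)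
    obtain ⟨W, hW1, hW2⟩ := Nat.chineseRemainder hco b.val 1
    refine ⟨a.val, W, ?_, ?_, ?_⟩
    · rw [Nat.isCoprime_iff_coprime]
      have h1 : Nat.gcd W a.val = Nat.gcd 1 a.val := Nat.ModEq.gcd_eq hW2
      rw [Nat.gcd_one_left] at h1
      exact (Nat.coprime_comm).1 h1
    · rw [Int.cast_natCast, ZMod.natCast_zmod_val]
    · rw [Int.cast_natCast, (ZMod.natCast_eq_natCast_iff _ _ _).2 hW1, ZMod.natCast_zmod_val]
  rcases h with h | h
  · exact main a b h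
  · obtain ⟨X, W, h1, h2, h3⟩ := main b a h
    exact ⟨W, X, h1.symm, h3, h2⟩

section

variable {p : ℕ} [hp : Fact p.Prime]

/-- primitive coordinates -/
theorem prim (x w : ℚ_[p]) (h : x ≠ 0 ∨ w ≠ 0) : ∃ (m : ℤ) (ξ ω : ℤ_[p]),
    x = (p : ℚ_[p]) ^ m * ξ ∧ w = (p : ℚ_[p]) ^ m * ω ∧ (‖ξ‖ = 1 ∨ ‖ω‖ = 1) := by
  have hp0 : (p : ℚ_[p]) ≠ 0 := by exact_mod_cast hp.out.ne_zero
  have main : ∀ x w : ℚ_[p], x ≠ 0 → ‖w‖ ≤ ‖x‖ → ∃ (m : ℤ) (ξ ω : ℤ_[p]),
      x = (p : ℚ_[p]) ^ m * ξ ∧ w = (p : ℚ_[p]) ^ m * ω ∧ ‖ξ‖ = 1 := by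
    intro x w hx hwx
    have hn : ‖x‖ = ‖(p : ℚ_[p]) ^ x.valuation‖ := by
      rw [Padic.norm_eq_zpow_neg_valuation hx, Padic.norm_p_zpow]
    have hpm : (p : ℚ_[p]) ^ x.valuation ≠ 0 := zpow_ne_zero _ hp0
    have hpos : 0 < ‖(p : ℚ_[p]) ^ x.valuation‖ := norm_pos_iff.2 hpm
    have h1 : ‖x / (p : ℚ_[p]) ^ x.valuation‖ = 1 := by
      rw [norm_div, hn, div_self hpos.ne']
    have h2 : ‖w / (p : ℚ_[p]) ^ x.valuation‖ ≤ 1 := by
      rw [norm_div, div_le_one hpos, ← hn]; exact hwx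
    refine ⟨x.valuation, ⟨_, h1.le⟩, ⟨_, h2⟩, ?_, ?_, h1⟩
    · show x = (p : ℚ_[p]) ^ x.valuation * (x / (p : ℚ_[p]) ^ x.valuation)
      field_simp
    · show w = (p : ℚ_[p]) ^ x.valuation * (w / (p : ℚ_[p]) ^ x.valuation)
      field_simp
  rcases le_total ‖w‖ ‖x‖ with hle | hle
  · have hx : x ≠ 0 := by
      rintro rfl
      rw [norm_zero] at hle
      have hw := norm_le_zero_iff.1 hle
      rcases h with h | h
      · exact h rfl
      · exact h hw
    obtain ⟨m, ξ, ω, h1, h2, h3⟩ := main x w hx hle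
    exact ⟨m, ξ, ω, h1, h2, Or.inl h3⟩
  · have hw : w ≠ 0 := by
      rintro rfl
      rw [norm_zero] at hle
      have hx := norm_le_zero_iff.1 hle
      rcases h with h | h
      · exact h hx
      · exact h rfl
    obtain ⟨m, ω, ξ, h1, h2, h3⟩ := main w x hw hle
    exact ⟨m, ξ, ω, h2, h1, Or.inr h3⟩

/-- the valuation of a squarefree integer -/
theorem val_sqf (δ : ℤ) (hδ : Squarefree δ) :
    ((p : ℤ) ∣ δ → (δ : ℚ_[p]).valuation = 1) ∧ (¬ (p : ℤ) ∣ δ → (δ : ℚ_[p]).valuation = 0) := by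
  have hp1 : (1 : ℝ) < p := by exact_mod_cast hp.out.one_lt
  have hδ0 : (δ : ℚ_[p]) ≠ 0 := by exact_mod_cast hδ.ne_zero
  have h1 : ‖(δ : ℚ_[p])‖ = (p : ℝ) ^ (-(δ : ℚ_[p]).valuation) :=
    Padic.norm_eq_zpow_neg_valuation hδ0
  constructor
  · intro hd
    have h3 : ‖(δ : ℚ_[p])‖ ≤ (p : ℝ) ^ (-(1 : ℕ) : ℤ) := by
      rw [Padic.norm_int_le_pow_iff_dvd]; simpa using hd
    have h4 : ¬ ‖(δ : ℚ_[p])‖ ≤ (p : ℝ) ^ (-(2 : ℕ) : ℤ) := by
      rw [Padic.norm_int_le_pow_iff_dvd]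
      intro h5
      have h6 : IsUnit (p : ℤ) := hδ _ (by
        have : ((p : ℤ) ^ 2) ∣ δ := by exact_mod_cast h5
        rwa [pow_two] at this)
      exact (Nat.prime_iff_prime_int.1 hp.out).not_isUnit h6
    rw [h1, zpow_le_zpow_iff_right₀ hp1] at h3 h4
    push_cast at h3 h4
    omega
  · intro hd
    have h3 : ‖(δ : ℚ_[p])‖ = 1 := by
      refine le_antisymm (Padic.norm_int_le_one _) (not_lt.1 fun h => hd ?_)
      exact Padic.norm_intCast_lt_one_iff.1 h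
    rw [h1] at h3
    by_contra h4
    rcases lt_or_gt_of_ne h4 with h5 | h5
    · have : (1 : ℝ) < (p : ℝ) ^ (-(δ : ℚ_[p]).valuation) := one_lt_zpow₀ hp1 (by omega)
      linarith
    · have : (p : ℝ) ^ (-(δ : ℚ_[p]).valuation) < 1 :=
        zpow_lt_one_of_neg₀ hp1 (by omega)
      linarith

/-- one equation of the covering at a place where the form is a unit -/
theorem unit_eq (δ : ℤ) (hδ : Squarefree δ) (y : ℚ_[p]) (n : ℤ) (F : ℤ_[p]) (hF : ‖F‖ = 1)
    (h : (p : ℚ_[p]) ^ n * F = δ * y ^ 2) :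
    ((p : ℤ) ∣ δ ↔ Odd n) ∧
      (¬ Odd n → ∃ Y : ℤ_[p], PadicInt.toZMod Y ≠ 0 ∧ F = (δ : ℤ_[p]) * Y ^ 2) := by
  have hp0 : (p : ℚ_[p]) ≠ 0 := by exact_mod_cast hp.out.ne_zero
  have hp1 : (1 : ℝ) < p := by exact_mod_cast hp.out.one_lt
  have hp0' : (p : ℝ) ≠ 0 := by linarith
  have hδ0 : (δ : ℚ_[p]) ≠ 0 := by exact_mod_cast hδ.ne_zero
  have hF' : ‖(F : ℚ_[p])‖ = 1 := hF
  have hF0 : (F : ℚ_[p]) ≠ 0 := by
    intro h0; rw [h0, norm_zero] at hF'; norm_num at hF'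
  have hy : y ≠ 0 := by
    rintro rfl
    rw [zero_pow two_ne_zero, mul_zero] at h
    exact mul_ne_zero (zpow_ne_zero _ hp0) hF0 h
  have hv : n = (δ : ℚ_[p]).valuation + 2 * y.valuation := by
    have h1 := congrArg norm h
    rw [norm_mul, norm_mul, norm_pow, hF', mul_one, Padic.norm_p_zpow,
      Padic.norm_eq_zpow_neg_valuation hδ0, Padic.norm_eq_zpow_neg_valuation hy,
      ← zpow_natCast, ← zpow_mul, ← zpow_add₀ hp0'] at h1
    have h2 := zpow_right_injective₀ (by linarith) hp1.ne' h1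
    push_cast at h2
    omega
  obtain ⟨hv1, hv0⟩ := val_sqf δ hδ (p := p)
  constructor
  · constructor
    · intro hd
      rw [hv1 hd] at hv
      exact ⟨y.valuation, by omega⟩
    · intro ho
      by_contra hd
      rw [hv0 hd] at hv
      obtain ⟨r, hr⟩ := ho
      omega
  · intro hno
    obtain ⟨r, hr⟩ := Int.not_odd_iff_even.1 hno
    have hnd : ¬ (p : ℤ) ∣ δ := by
      intro hd
      rw [hv1 hd] at hv
      omega
    have hδ1 : ‖(δ : ℚ_[p])‖ = 1 := by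
      rw [Padic.norm_eq_zpow_neg_valuation hδ0, hv0 hnd, neg_zero, zpow_zero]
    have hpr : (p : ℚ_[p]) ^ r ≠ 0 := zpow_ne_zero _ hp0
    have hFy : (F : ℚ_[p]) = δ * (y / (p : ℚ_[p]) ^ r) ^ 2 := by
      rw [hr, zpow_add₀ hp0] at h
      field_simp
      linear_combination h
    have hyn : ‖y / (p : ℚ_[p]) ^ r‖ ^ 2 = 1 := by
      have h1 := hF'
      rw [hFy, norm_mul, norm_pow, hδ1, one_mul] at h1
      exact h1
    have hy1 : ‖y / (p : ℚ_[p]) ^ r‖ = 1 :=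
      (pow_eq_one_iff_of_nonneg (norm_nonneg _) two_ne_zero).1 hyn
    set Y : ℤ_[p] := ⟨y / (p : ℚ_[p]) ^ r, hy1.le⟩ with hYd
    have hYn : ‖Y‖ = 1 := hy1
    refine ⟨Y, ?_, ?_⟩
    · intro h0
      have h1 := (toZ_iff _).1 h0
      linarith
    · apply PadicInt.ext
      rw [hFy]
      push_cast
      rfl

end

theorem ploc : PLOC := by
  intro K _ _ f hirr hna hO
  classical
  obtain ⟨z0, hz0⟩ := locm K f hirr hna
  refine ⟨z0, ?_⟩
  intro p hp hz δ hsq hpt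
  obtain ⟨x, w, hxw, hpt⟩ := hpt
  obtain ⟨m, ξ, ω, hx, hw, hprim⟩ := prim x w hxw
  have hp0 : (p : ℚ_[p]) ≠ 0 := by exact_mod_cast hp.out.ne_zero
  have hne : PadicInt.toZMod ξ ≠ 0 ∨ PadicInt.toZMod ω ≠ 0 := by
    rcases hprim with h | h
    · exact Or.inl fun h0 => by have := (toZ_iff _).1 h0; linarith
    · exact Or.inr fun h0 => by have := (toZ_iff _).1 h0; linarith
  obtain ⟨X, W, hcop, hX, hW⟩ := lift_cop _ _ hne
  have hz1 := hz0 p hp.out hz X W hcop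
  -- the forms modulo `p`
  have hred : ∀ k, PadicInt.toZMod (hom (f k) ξ ω) = ((hom (f k) X W : ℤ) : ZMod p) := by
    intro k
    rw [hom_map, hom_cast, hX, hW]
  have hunit : ∀ k, ¬ (p : ℤ) ∣ hom (f k) X W → ‖hom (f k) ξ ω‖ = 1 := by
    intro k hk
    refine le_antisymm (PadicInt.norm_le_one _) (not_lt.1 fun h => hk ?_)
    have h1 := (toZ_iff _).2 h
    rw [hred] at h1
    exact (ZMod.intCast_zmod_eq_zero_iff_dvd _ p).1 h1
  have heq : ∀ k, ∃ y : ℚ_[p],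
      (p : ℚ_[p]) ^ (m * ((f k).natDegree : ℤ)) * ((hom (f k) ξ ω : ℤ_[p]) : ℚ_[p]) =
        δ k * y ^ 2 := by
    intro k
    obtain ⟨y, hy⟩ := hpt k
    refine ⟨y, ?_⟩
    rw [← hy, hx, hw, hom_smul, zpow_mul, zpow_natCast]
    congr 1
    exact hom_map (PadicInt.Coe.ringHom (p := p)) (f k) ξ ω
  have hkey : ∀ k, ¬ (p : ℤ) ∣ hom (f k) X W →
      ((p : ℤ) ∣ δ k ↔ Odd (m * ((f k).natDegree : ℤ))) ∧
      (¬ Odd (m * ((f k).natDegree : ℤ)) → ∃ Y : ℤ_[p], PadicInt.toZMod Y ≠ 0 ∧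
        hom (f k) ξ ω = (δ k : ℤ_[p]) * Y ^ 2) := by
    intro k hk
    obtain ⟨y, hy⟩ := heq k
    exact unit_eq (δ k) (hsq k) y _ _ (hunit k hk) hy
  rcases Int.even_or_odd m with hm | hm
  · -- `m` even
    have hev : ∀ k, ¬ Odd (m * ((f k).natDegree : ℤ)) := fun k =>
      Int.not_odd_iff_even.2 (hm.mul_right _)
    have hdiv : ∀ k, (p : ℤ) ∣ δ k → (p : ℤ) ∣ hom (f k) X W := by
      intro k hk
      by_contra h
      exact hev k (((hkey k h).1).1 hk)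
    have hcard : ((Od f).filter (fun k => (p : ℤ) ∣ δ k)).card ≤ 1 := by
      rw [card_le_one]
      intro a ha b hb
      by_contra hab
      have h1 := hdiv a (mem_filter.1 ha).2
      have h2 := hdiv b (mem_filter.1 hb).2
      exact (hz1 a h1).1 b (Ne.symm hab) h2
    refine ⟨Or.inl hcard, fun _ i hi => ?_⟩
    have h1 := hz1 i (hdiv i hi)
    have hcopk : ∀ k, k ≠ i → ¬ (p : ℤ) ∣ δ k := fun k hk hd => h1.1 k hk (hdiv k hd)
    refine ⟨hcopk, ?_⟩
    have e : ngs δ i p = ngs (fun k => hom (f k) X W) i p := by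
      unfold ngs
      ext k
      simp only [mem_filter, mem_univ, true_and, and_congr_right_iff]
      intro hk
      obtain ⟨Y, hY0, hY⟩ := (hkey k (h1.1 k hk)).2 (hev k)
      have h2 := hred k
      rw [hY, map_mul, map_pow, map_intCast] at h2
      rw [← jacobiSym.legendreSym.to_jacobiSym, ← jacobiSym.legendreSym.to_jacobiSym]
      unfold legendreSym
      rw [← h2, map_mul, quadraticChar_sq_one' hY0, mul_one]
    rw [e]
    exact h1.2
  · -- `m` odd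
    have hodd : ∀ k ∈ Od f, Odd (m * ((f k).natDegree : ℤ)) := by
      intro k hk
      have h1 : Odd (f k).natDegree := (mem_filter.1 hk).2
      exact hm.mul (by exact_mod_cast h1)
    have hB : (Od f).card ≤ ((Od f).filter (fun k => (p : ℤ) ∣ δ k)).card + 1 := by
      have h1 := card_filter_add_card_filter_not (s := Od f) (fun k => (p : ℤ) ∣ δ k)
      have h2 : ((Od f).filter (fun k => ¬ (p : ℤ) ∣ δ k)).card ≤ 1 := by
        rw [card_le_one]
        intro a ha b hb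
        by_contra hab
        have h3 : ∀ c ∈ (Od f).filter (fun k => ¬ (p : ℤ) ∣ δ k),
            (p : ℤ) ∣ hom (f c) X W := by
          intro c hc
          by_contra h
          have hc' := mem_filter.1 hc
          exact hc'.2 (((hkey c h).1).2 (hodd c hc'.1))
        exact (hz1 a (h3 a ha)).1 b (Ne.symm hab) (h3 b hb)
      omega
    refine ⟨Or.inr hB, fun hA => ?_⟩
    omega

end Pool.Agent.Y488.TM
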