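import Pool.Agent.Y488.TM.StmL
import Pool.Agent.W311.TW.Red3

/-!
# Project TM: REDL, reduction of the twists with a locally soluble covering of nonconstant type to
tuples (proof by helper983, adapted from `Pool.Agent.W311.TW.red3` and `Pool.Agent.Y488.TM.redm`)
-/

set_option autoImplicit false

namespace Pool.Agent.Y488.TM

open Finset Polynomial Pool.Agent.W262.RK Pool.Agent.W262.TW Pool.Agent.W311.TW

theorem isSquare_of_mul_sq {a b e : ℤ} (hb : b ≠ 0) (h : a * b ^ 2 = e ^ 2) : IsSquare a := by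
  have h2 : b ∣ e := by
    rw [← Int.pow_dvd_pow_iff (n := 2) (by norm_num)]
    exact ⟨a, by rw [← h]; ring⟩
  obtain ⟨v, hv⟩ := h2
  refine ⟨v, ?_⟩
  apply mul_right_cancel₀ (pow_ne_zero 2 hb)
  rw [h, hv]
  ring

/-- the primes of the squarefree part of a product of two squarefree numbers -/
theorem dvd_sqf_iff {a b s t : ℤ} (ha : Squarefree a) (hb : Squarefree b) (hs : Squarefree s)
    (ht : t ≠ 0) (h : a * b = s * t ^ 2) {p : ℕ} (hp : p.Prime) :
    (p : ℤ) ∣ s ↔ ((p : ℤ) ∣ a ∧ ¬ (p : ℤ) ∣ b) ∨ (¬ (p : ℤ) ∣ a ∧ (p : ℤ) ∣ b) := by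
  have key : ∀ c : ℤ, Squarefree c → c.natAbs.factorization p ≤ 1 ∧
      ((p : ℤ) ∣ c ↔ c.natAbs.factorization p ≠ 0) := by
    intro c hc
    have h0 : c.natAbs ≠ 0 := Int.natAbs_ne_zero.mpr hc.ne_zero
    refine ⟨(Int.squarefree_natAbs.mpr hc).natFactorization_le_one p, ?_⟩
    rw [Int.natCast_dvd]
    constructor
    · intro hd
      exact (hp.factorization_pos_of_dvd h0 hd).ne'
    · intro hne
      by_contra hd
      exact hne (Nat.factorization_eq_zero_of_not_dvd hd)
  obtain ⟨a1, a2⟩ := key a ha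
  obtain ⟨b1, b2⟩ := key b hb
  obtain ⟨s1, s2⟩ := key s hs
  have h1 := congrArg Int.natAbs h
  rw [Int.natAbs_mul, Int.natAbs_mul, Int.natAbs_pow] at h1
  have h2 : (a.natAbs * b.natAbs).factorization p = (s.natAbs * t.natAbs ^ 2).factorization p := by
    rw [h1]
  rw [Nat.factorization_mul (Int.natAbs_ne_zero.mpr ha.ne_zero) (Int.natAbs_ne_zero.mpr hb.ne_zero),
    Nat.factorization_mul (Int.natAbs_ne_zero.mpr hs.ne_zero)
      (pow_ne_zero _ (Int.natAbs_ne_zero.mpr ht)), Nat.factorization_pow] at h2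
  simp only [Finsupp.add_apply, Finsupp.smul_apply, smul_eq_mul] at h2
  rw [a2, b2, s2]
  omega

theorem hom_scale (f : ℤ[X]) {R : Type*} [CommRing R] (c x w : R) :
    hom f (c * x) (c * w) = c ^ f.natDegree * hom f x w := by
  unfold hom
  rw [Finset.mul_sum]
  apply Finset.sum_congr rfl
  intro i hi
  have h1 : i ≤ f.natDegree := Nat.lt_succ_iff.mp (Finset.mem_range.mp hi)
  have h2 : c ^ f.natDegree = c ^ i * c ^ (f.natDegree - i) := by
    rw [← pow_add, Nat.add_sub_cancel' h1]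
  rw [h2, mul_pow, mul_pow]
  ring

/-- change of the covering by a scalar -/
theorem change {K : Type} [Fintype K] [DecidableEq K] (f : K → ℤ[X]) {O : Finset K}
    (hO : O = Od f) {s s' t' : K → ℤ} {lam : ℤ} (hlam : lam ≠ 0)
    (hst : ∀ k, (if k ∈ O then lam else 1) * s k = s' k * t' k ^ 2) {F : Type} [Field F]
    [CharZero F] (h : HasPt f s F) : HasPt f s' F := by
  obtain ⟨x, w, hxw, hy⟩ := h
  have hl : (lam : F) ≠ 0 := Int.cast_ne_zero.mpr hlam
  refine ⟨lam * x, lam * w, ?_, fun k => ?_⟩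
  · rcases hxw with h | h
    · exact Or.inl (mul_ne_zero hl h)
    · exact Or.inr (mul_ne_zero hl h)
  · obtain ⟨y, hy⟩ := hy k
    have h1 : (((if k ∈ O then lam else 1) * s k : ℤ) : F) = ((s' k * t' k ^ 2 : ℤ) : F) := by
      rw [hst k]
    by_cases hk : k ∈ O
    · rw [if_pos hk] at h1
      have hodd : Odd (f k).natDegree := by
        rw [hO] at hk
        exact (Finset.mem_filter.mp hk).2
      obtain ⟨m, hm⟩ := hodd
      refine ⟨t' k * ((lam : F) ^ m * y), ?_⟩
      rw [hom_scale, hy, hm]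
      push_cast at h1
      linear_combination ((lam : F) ^ m) ^ 2 * y ^ 2 * h1
    · rw [if_neg hk] at h1
      have heven : Even (f k).natDegree := by
        rw [hO] at hk
        rw [← Nat.not_odd_iff_even]
        intro ho
        exact hk (Finset.mem_filter.mpr ⟨Finset.mem_univ _, ho⟩)
      obtain ⟨m, hm⟩ := heven
      refine ⟨t' k * ((lam : F) ^ m * y), ?_⟩
      rw [hom_scale, hy, hm]
      push_cast at h1
      linear_combination ((lam : F) ^ m) ^ 2 * y ^ 2 * h1

theorem prod_ite_pow {K : Type} [Fintype K] [DecidableEq K] (O T : Finset K) (lam : ℤ) :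
    ∏ k ∈ T, (if k ∈ O then lam else 1) = lam ^ (T ∩ O).card := by
  rw [Finset.prod_ite, Finset.prod_const, Finset.prod_const_one, mul_one,
    Finset.filter_mem_eq_inter]

/-- the condition on the type does not change -/
theorem change_sq {K : Type} [Fintype K] [DecidableEq K] {O T : Finset K} {s s' t' c : K → ℤ}
    {lam : ℤ} (hlam : lam ≠ 0) (hst : ∀ k, (if k ∈ O then lam else 1) * s k = s' k * t' k ^ 2)
    (hT : Even (T ∩ O).card) (h : IsSquare (∏ k ∈ T, (s' k * c k))) :
    IsSquare (∏ k ∈ T, (s k * c k)) := by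
  obtain ⟨r, hr⟩ := h
  obtain ⟨j, hj⟩ := hT
  have h1 : (∏ k ∈ T, (s k * c k)) * (lam ^ j) ^ 2 = (r * ∏ k ∈ T, t' k) ^ 2 := by
    have h2 : (∏ k ∈ T, (s k * c k)) * (lam ^ j) ^ 2 =
        ∏ k ∈ T, (((if k ∈ O then lam else 1) * s k) * c k) := by
      rw [← pow_mul, mul_two, ← hj, ← prod_ite_pow O T lam, ← Finset.prod_mul_distrib]
      exact Finset.prod_congr rfl fun k _ => by ring
    rw [h2, mul_pow, sq r, ← hr, ← Finset.prod_pow, ← Finset.prod_mul_distrib]
    exact Finset.prod_congr rfl fun k _ => by rw [hst k]; ring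
  exact isSquare_of_mul_sq (pow_ne_zero _ hlam) h1

theorem redl (h : PLOC) : REDL := by
  classical
  intro K _ _ f hf1 hf3 hO4 hOe
  obtain ⟨z0, hz0⟩ := h K f hf1 hf3 hO4
  refine ⟨z0, fun z hz X => ?_⟩
  set G : (K → ℤ) → Finset (K → ℕ) := fun κ =>
    (Fintype.piFinset (fun _ : K => Icc 1 X)).filter (fun D => (∀ i, Rg z (D i)) ∧
    (∀ i j, i ≠ j → (D i).Coprime (D j)) ∧ ∏ i, D i ≤ X ∧
    (∀ i, ∀ p ∈ (D i).primeFactors, ngs (fun k => κ k * D k) i p ∈ Tog (Od f) (Th f) i p) ∧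
    NCG (val f) (Ln f) (Od f) (fun k => κ k * D k)) with hG
  set Tt : Finset (ℤ × (Σ _ : K → ℤ, K → ℕ)) :=
    (EE z) ×ˢ ((Fintype.piFinset (fun _ : K => EE z)).sigma G) with hTt
  have hcard : Tt.card = (EE z).card * ∑ κ ∈ Fintype.piFinset (fun _ : K => EE z),
      cntG z X κ (Tog (Od f) (Th f)) (val f) (Ln f) (Od f) := by
    rw [hTt, Finset.card_product, Finset.card_sigma]
    rfl
  rw [← hcard]
  have hsub : {d : ℤ | d.natAbs ≤ X ∧ Squarefree d ∧ BadL f d} ⊆
      ((Tt.image (fun x => x.1 * ((∏ k, x.2.2 k : ℕ) : ℤ)) : Finset ℤ) : Set ℤ) := by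
    rintro d ⟨hdX, hd, δ, hδ0, hsq, hloc, hNC⟩
    -- squarefree parts
    choose s1 t1 ht1 hs1 hst1 using fun k => exists_sqf (δ k) (hδ0 k)
    have hHas1 : ∀ (p : ℕ) [Fact p.Prime], HasPt f s1 ℚ_[p] := by
      intro p _
      obtain ⟨x, w, hxw, hy⟩ := hloc p
      refine ⟨x, w, hxw, fun k => ?_⟩
      obtain ⟨y, hy⟩ := hy k
      refine ⟨(t1 k : ℚ_[p]) * y, ?_⟩
      rw [hy, hst1 k]
      push_cast
      ring
    have hsq1 : IsSquare (d * ∏ k, s1 k) := by
      obtain ⟨r, hr⟩ := hsq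
      apply isSquare_of_mul_sq (b := ∏ k, t1 k) (e := r)
        (Finset.prod_ne_zero_iff.mpr fun k _ => ht1 k)
      rw [sq r, ← hr, Finset.prod_congr rfl (fun k _ => hst1 k), Finset.prod_mul_distrib,
        Finset.prod_pow]
      ring
    have hNC1 : NCG (val f) (Ln f) (Od f) s1 := by
      intro i hi
      obtain ⟨T, hT1, hT2, hns⟩ := hNC i hi
      refine ⟨T, hT1, hT2, ?_⟩
      rintro ⟨r, hr⟩
      apply hns
      refine ⟨r * ∏ k ∈ T, t1 k, ?_⟩
      have h5 : ∏ k ∈ T, (δ k * val f i k) =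
          (∏ k ∈ T, (s1 k * val f i k)) * (∏ k ∈ T, t1 k) ^ 2 := by
        rw [← Finset.prod_pow, ← Finset.prod_mul_distrib]
        refine Finset.prod_congr rfl fun k _ => ?_
        rw [hst1 k]
        ring
      rw [h5, hr]
      ring
    -- the change of the covering
    set P : Finset ℕ := (∏ k, s1 k).natAbs.primeFactors.filter (fun p =>
      z < p ∧ 2 ≤ ((Od f).filter (fun k => (p : ℤ) ∣ s1 k)).card) with hP
    set lam : ℕ := ∏ p ∈ P, p with hlam
    have hPp : ∀ p ∈ P, p.Prime := fun p hp =>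
      Nat.prime_of_mem_primeFactors (Finset.mem_filter.mp hp).1
    have hlam0 : (lam : ℤ) ≠ 0 := by
      rw [Nat.cast_ne_zero, hlam, Finset.prod_ne_zero_iff]
      exact fun p hp => (hPp p hp).ne_zero
    have hlamd : ∀ p : ℕ, p.Prime → (p ∣ lam ↔ p ∈ P) := by
      intro p hp
      rw [hlam, Prime.dvd_finsetProd_iff hp.prime]
      constructor
      · rintro ⟨q, hq, hpq⟩
        have h1 : p = q := (Nat.prime_dvd_prime_iff_eq hp (hPp q hq)).mp hpq
        rw [h1]
        exact hq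
      · intro h1
        exact ⟨p, h1, dvd_rfl⟩
    have hlams : Squarefree (lam : ℤ) := by
      rw [Int.squarefree_natCast]
      rw [hlam]
      refine Finset.squarefree_prod_of_pairwise_isCoprime (fun a ha b hb hab => ?_)
        fun a ha => (hPp a ha).squarefree
      exact Nat.coprime_iff_isRelPrime.mp ((Nat.coprime_primes (hPp a ha) (hPp b hb)).mpr hab)
    set e : K → ℤ := fun k => if k ∈ Od f then (lam : ℤ) else 1 with he
    have hes : ∀ k, Squarefree (e k) := by
      intro k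
      change Squarefree (if k ∈ Od f then (lam : ℤ) else 1)
      split_ifs
      · exact hlams
      · exact squarefree_one
    choose s t ht hs hst using fun k => exists_sqf (e k * s1 k)
      (mul_ne_zero (hes k).ne_zero (hs1 k).ne_zero)
    have hHas : ∀ (p : ℕ) [Fact p.Prime], HasPt f s ℚ_[p] := fun p _ =>
      change f rfl hlam0 hst (hHas1 p)
    obtain ⟨u, hu⟩ : IsSquare (d * ∏ k, s k) := by
      obtain ⟨r, hr⟩ := hsq1
      obtain ⟨j, hj⟩ := hOe
      apply isSquare_of_mul_sq (b := ∏ k, t k) (e := (lam : ℤ) ^ j * r)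
        (Finset.prod_ne_zero_iff.mpr fun k _ => ht k)
      have h1 : (∏ k, s k) * (∏ k, t k) ^ 2 = (lam : ℤ) ^ (Od f).card * ∏ k, s1 k := by
        rw [← Finset.prod_pow, ← Finset.prod_mul_distrib, ← Finset.prod_congr rfl fun k _ => hst k,
          Finset.prod_mul_distrib]
        congr 1
        have h2 := prod_ite_pow (Od f) Finset.univ (lam : ℤ)
        rwa [Finset.univ_inter] at h2
      rw [mul_assoc, h1, hj, mul_pow, sq r, ← hr]
      ring
    have hNC' : NCG (val f) (Ln f) (Od f) s := by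
      intro i hi
      obtain ⟨T, hT1, hT2, hns⟩ := hNC1 i hi
      exact ⟨T, hT1, hT2, fun h => hns (change_sq hlam0 hst hT2 h)⟩
    -- divisibility
    have hdvd : ∀ p : ℕ, p.Prime → ∀ k ∈ Od f, ((p : ℤ) ∣ s k ↔
        ((p ∈ P ∧ ¬ (p : ℤ) ∣ s1 k) ∨ (p ∉ P ∧ (p : ℤ) ∣ s1 k))) := by
      intro p hp k hk
      have h1 := dvd_sqf_iff (hes k) (hs1 k) (hs k) (ht k) (hst k) hp
      have h2 : e k = (lam : ℤ) := if_pos hk
      rw [h2, Int.natCast_dvd_natCast, hlamd p hp] at h1
      exact h1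
    have hone : ∀ p : ℕ, p.Prime → z < p → ((Od f).filter (fun k => (p : ℤ) ∣ s k)).card ≤ 1 := by
      intro p hp hzp
      have : Fact p.Prime := ⟨hp⟩
      have h1 := (hz0 p (by omega) s1 hs1 (hHas1 p)).1
      by_cases hpP : p ∈ P
      · have h2 := (Finset.mem_filter.mp hpP).2.2
        have h3 : (Od f).filter (fun k => (p : ℤ) ∣ s k) =
            (Od f).filter (fun k => ¬ (p : ℤ) ∣ s1 k) := by
          apply Finset.filter_congr
          intro k hk
          rw [hdvd p hp k hk]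
          tauto
        rw [h3]
        have h4 := Finset.card_filter_add_card_filter_not (s := Od f) (fun k => (p : ℤ) ∣ s1 k)
        omega
      · have h3 : (Od f).filter (fun k => (p : ℤ) ∣ s k) =
            (Od f).filter (fun k => (p : ℤ) ∣ s1 k) := by
          apply Finset.filter_congr
          intro k hk
          rw [hdvd p hp k hk]
          tauto
        rw [h3]
        by_contra hcon
        apply hpP
        have h5 : 2 ≤ ((Od f).filter (fun k => (p : ℤ) ∣ s1 k)).card := by omega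
        obtain ⟨k, hk⟩ := Finset.card_pos.mp (show 0 < ((Od f).filter (fun k => (p : ℤ) ∣ s1 k)).card by omega)
        refine Finset.mem_filter.mpr ⟨Nat.mem_primeFactors.mpr ⟨hp, ?_, ?_⟩, hzp, h5⟩
        · rw [← Int.natCast_dvd]
          exact (Finset.mem_filter.mp hk).2.trans (Finset.dvd_prod_of_mem s1 (Finset.mem_univ k))
        · exact Int.natAbs_ne_zero.mpr (Finset.prod_ne_zero_iff.mpr fun k _ => (hs1 k).ne_zero)
    -- local information
    have hL : ∀ p : ℕ, p.Prime → z < p → ∀ i, (p : ℤ) ∣ s i →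
        (∀ k, k ≠ i → ¬ (p : ℤ) ∣ s k) ∧ ngs s i p ∈ Tog (Od f) (Th f) i p := by
      intro p hp hzp i hi
      have : Fact p.Prime := ⟨hp⟩
      exact (hz0 p (by omega) s hs (hHas p)).2 (hone p hp hzp) i hi
    have hdiv : ∀ p : ℕ, p.Prime → z < p → ((p : ℤ) ∣ d ↔ ∃ k, (p : ℤ) ∣ s k) := by
      intro p hp hzp
      have hpZ : _root_.Prime (p : ℤ) := Nat.prime_iff_prime_int.mp hp
      have hpu : (p : ℤ) ∣ d * ∏ k, s k → (p : ℤ) ^ 2 ∣ d * ∏ k, s k := by
        intro h1
        rw [hu] at h1 ⊢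
        have : (p : ℤ) ∣ u := by
          rcases hpZ.dvd_or_dvd h1 with h | h <;> exact h
        rw [← sq]
        exact pow_dvd_pow_of_dvd this 2
      constructor
      · intro h1
        by_contra h2
        push Not at h2
        have h3 := hpu (h1.mul_right _)
        have h4 : ¬ (p : ℤ) ∣ ∏ k, s k := by
          rw [Prime.dvd_finsetProd_iff hpZ]
          rintro ⟨k, -, hk⟩
          exact h2 k hk
        have h5 : (p : ℤ) ^ 2 ∣ d := by
          have hc : IsCoprime ((p : ℤ) ^ 2) (∏ k, s k) :=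
            IsCoprime.pow_left ((Prime.coprime_iff_not_dvd hpZ).mpr h4)
          exact hc.dvd_of_dvd_mul_right h3
        exact hpZ.not_isUnit (hd _ (by rw [← sq]; exact h5))
      · rintro ⟨k, hk⟩
        by_contra h2
        have h3 := hpu (Dvd.dvd.mul_left (hk.trans (Finset.dvd_prod_of_mem s (Finset.mem_univ k))) _)
        have hc : IsCoprime ((p : ℤ) ^ 2) d :=
          IsCoprime.pow_left ((Prime.coprime_iff_not_dvd hpZ).mpr h2)
        have h4 : (p : ℤ) ^ 2 ∣ ∏ k, s k := hc.dvd_of_dvd_mul_left h3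
        rw [← Finset.mul_prod_erase _ _ (Finset.mem_univ k)] at h4
        have h5 : ¬ (p : ℤ) ∣ ∏ j ∈ Finset.univ.erase k, s j := by
          rw [Prime.dvd_finsetProd_iff hpZ]
          rintro ⟨j, hj, hj'⟩
          exact (hL p hp hzp k hk).1 j (Finset.ne_of_mem_erase hj) hj'
        have hc' : IsCoprime ((p : ℤ) ^ 2) (∏ j ∈ Finset.univ.erase k, s j) :=
          IsCoprime.pow_left ((Prime.coprime_iff_not_dvd hpZ).mpr h5)
        have h6 : (p : ℤ) ^ 2 ∣ s k := hc'.dvd_of_dvd_mul_right h4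
        exact hpZ.not_isUnit (hs k _ (by rw [← sq]; exact h6))
    have hcop : ∀ i j, i ≠ j → (Dz z (s i)).Coprime (Dz z (s j)) := by
      intro i j hij
      rw [Nat.coprime_iff_gcd_eq_one]
      by_contra hg
      obtain ⟨p, hp, hpd⟩ := Nat.exists_prime_and_dvd hg
      have h1 := (dvd_Dz (hs i) hp).mp (hpd.trans (Nat.gcd_dvd_left _ _))
      have h2 := (dvd_Dz (hs j) hp).mp (hpd.trans (Nat.gcd_dvd_right _ _))
      exact (hL p hp h1.1 i h1.2).1 j (Ne.symm hij) h2.2
    have hprod : ∏ k, Dz z (s k) = Dz z d := by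
      have hs0 : ∀ k, (s k).natAbs ≠ 0 := fun k => by
        rw [Int.natAbs_ne_zero]; exact (hs k).ne_zero
      have hd0 : d.natAbs ≠ 0 := by
        rw [Int.natAbs_ne_zero]; exact hd.ne_zero
      unfold Dz
      rw [← Finset.prod_biUnion]
      · apply Finset.prod_congr _ (fun _ _ => rfl)
        ext p
        simp only [Finset.mem_biUnion, Finset.mem_univ, true_and, Finset.mem_filter,
          Nat.mem_primeFactors]
        constructor
        · rintro ⟨k, ⟨hp, hpk, -⟩, hzp⟩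
          exact ⟨⟨hp, Int.natCast_dvd.mp ((hdiv p hp hzp).mpr ⟨k, Int.natCast_dvd.mpr hpk⟩), hd0⟩, hzp⟩
        · rintro ⟨⟨hp, hpd, -⟩, hzp⟩
          obtain ⟨k, hk⟩ := (hdiv p hp hzp).mp (Int.natCast_dvd.mpr hpd)
          exact ⟨k, ⟨hp, Int.natCast_dvd.mp hk, hs0 k⟩, hzp⟩
      · intro i _ j _ hij
        rw [Function.onFun, Finset.disjoint_left]
        intro p hp hp'
        rw [Finset.mem_filter, Nat.mem_primeFactors] at hp hp'
        exact (hL p hp.1.1 hp.2 i (Int.natCast_dvd.mpr hp.1.2.1)).1 j (Ne.symm hij)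
          (Int.natCast_dvd.mpr hp'.1.2.1)
    choose κ hκ hκs using fun k => exists_EE (z := z) (hs k)
    obtain ⟨d0, hd0, hdd⟩ := exists_EE (z := z) hd
    have hPX : ∏ k, Dz z (s k) ≤ X := by
      rw [hprod]
      exact (Dz_le hd).trans hdX
    have h3 : (fun k => κ k * (Dz z (s k) : ℤ)) = s := by
      funext k
      exact (hκs k).symm
    rw [Finset.mem_coe, Finset.mem_image]
    refine ⟨(d0, ⟨κ, fun k => Dz z (s k)⟩), ?_, ?_⟩
    · rw [hTt, Finset.mem_product, Finset.mem_sigma]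
      refine ⟨hd0, Fintype.mem_piFinset.mpr hκ, ?_⟩
      rw [hG]
      simp only [Finset.mem_filter, Fintype.mem_piFinset, Finset.mem_Icc]
      refine ⟨fun k => ⟨Dz_pos, ?_⟩, fun i => Dz_sqf (hs i), hcop, hPX, ?_, ?_⟩
      · refine le_trans ?_ hPX
        exact Finset.single_le_prod' (f := fun k => Dz z (s k)) (fun k _ => Dz_pos) (Finset.mem_univ k)
      · intro i p hp
        have hpp := Nat.prime_of_mem_primeFactors hp
        have h1 := (dvd_Dz (hs i) hpp).mp (Nat.dvd_of_mem_primeFactors hp)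
        have h2 := (hL p hpp h1.1 i h1.2).2
        rw [h3]
        exact h2
      · rw [h3]
        exact hNC'
    · show d0 * ((∏ k, Dz z (s k) : ℕ) : ℤ) = d
      rw [hprod]
      exact hdd.symm
  calc _ ≤ ((Tt.image (fun x => x.1 * ((∏ k, x.2.2 k : ℕ) : ℤ)) : Finset ℤ) : Set ℤ).ncard :=
        Set.ncard_le_ncard hsub (Finset.finite_toSet _)
    _ = (Tt.image (fun x => x.1 * ((∏ k, x.2.2 k : ℕ) : ℤ)) : Finset ℤ).card := Set.ncard_coe_finset _
    _ ≤ Tt.card := Finset.card_image_le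

end Pool.Agent.Y488.TM

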