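import Pool.Agent.W262.TW.Full
import Pool.Agent.Y488.TM.Main
import Pool.Agent.Y488.TM.PLoc
import Pool.Agent.Y488.TM.RedL
import Pool.Agent.Y488.TM.FinL

/-! # Project TM: locally soluble coverings of the twists, mixed factors -/

set_option autoImplicit false

namespace Pool.Agent.Y488.TM

open Finset Polynomial Pool.Agent.W262.RK Pool.Agent.W262.TW

theorem finl_all : FINL :=
  finl (redl ploc) (keyg abs1_all regg) (prg Pool.Agent.W578.TW.UBQ.ubq) linm antm

section K

variable {K : Type} [Fintype K] [DecidableEq K]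

/-- the covering `F k (x, w) = δ k * y k ^ 2` is of constant type -/
def ConstC (f : K → ℤ[X]) (δ : K → ℤ) : Prop :=
  ∃ i, (f i).natDegree = 1 ∧ ∀ T : Finset K, i ∉ T → Even (∑ k ∈ T, (f k).natDegree) →
    IsSquare (∏ k ∈ T, (δ k * val f i k))

theorem mainl (f : K → ℤ[X]) (hf : Hyp f) : ∃ δ : ℝ, 0 < δ ∧ ∃ C : ℝ, ∀ X : ℕ, 3 ≤ X →
    ({d : ℤ | d.natAbs ≤ X ∧ Squarefree d ∧ ∃ δ : K → ℤ, (∀ k, δ k ≠ 0) ∧
      IsSquare (d * ∏ k, δ k) ∧ (∀ (p : ℕ) [Fact p.Prime], HasPt f δ ℚ_[p]) ∧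
      ¬ ConstC f δ}.ncard : ℝ) ≤ C * X * (Real.log X) ^ (-δ) := by
  have hev : Even (Od f).card := by
    have h1 := (even_iff f univ).1 hf.even
    rwa [univ_inter] at h1
  obtain ⟨δ, hδ, C, hC⟩ := finl_all K f hf.irr hf.ass hev hf.four hf.pair hf.quad
  refine ⟨δ, hδ, C, fun X hX => le_trans ?_ (hC X hX)⟩
  refine Nat.cast_le.2 (Set.ncard_le_ncard ?_ (Pool.Agent.TH213.SP.fin_le X _))
  rintro d ⟨h1, h2, δ, h3, h4, h5, h6⟩
  refine ⟨h1, h2, δ, h3, h4, fun p _ => h5 p, fun i hi => ?_⟩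
  by_contra hne
  push Not at hne
  apply h6
  unfold Ln at hi
  rw [mem_filter] at hi
  exact ⟨i, hi.2, fun T hT hT2 => hne T hT ((even_iff f T).1 hT2)⟩

/-- a covering of constant type has a rational point -/
theorem pt_of_const (f : K → ℤ[X]) (hO : 2 ≤ (Od f).card)
    (hval : ∀ i ∈ Ln f, ∀ k, k ≠ i → val f i k ≠ 0) {δ : K → ℤ} (hδ : ∀ k, δ k ≠ 0)
    (h : ConstC f δ) : HasPt f δ ℚ := by
  obtain ⟨i, hi, h⟩ := h
  have hiL : i ∈ Ln f := by
    unfold Ln
    rw [mem_filter]
    exact ⟨mem_univ _, hi⟩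
  -- an index of odd degree
  obtain ⟨l, hlO, hli⟩ : ∃ l ∈ Od f, l ≠ i := by
    by_contra hcon
    push Not at hcon
    have : (Od f).card ≤ 1 := by
      rw [card_le_one]
      intro a ha b hb
      rw [hcon a ha, hcon b hb]
    omega
  have hlodd : Odd (f l).natDegree := by
    unfold Od at hlO
    rw [mem_filter] at hlO
    exact hlO.2
  set c : ℚ := δ l * val f i l with hc
  have hl0 : val f i l ≠ 0 := hval i hiL l hli
  have hc0 : c ≠ 0 := mul_ne_zero (by exact_mod_cast hδ l) (by exact_mod_cast hl0)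
  have ha0 : ((f i).coeff 1 : ℚ) ≠ 0 := by
    have h1 : (f i).leadingCoeff ≠ 0 := by
      rw [Ne, leadingCoeff_eq_zero]
      rintro h0
      rw [h0, natDegree_zero] at hi
      omega
    rw [leadingCoeff, hi] at h1
    exact_mod_cast h1
  refine ⟨c * (-((f i).coeff 0 : ℚ)), c * ((f i).coeff 1 : ℚ), Or.inr (mul_ne_zero hc0 ha0),
    fun k => ?_⟩
  rw [hom_smul, val_cast]
  by_cases hki : k = i
  · subst hki
    refine ⟨0, ?_⟩
    have h0 : val f k k = 0 := by
      unfold val hom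
      rw [hi, sum_range_succ, sum_range_one]
      push_cast
      ring
    rw [h0]
    push_cast
    ring
  · rcases Nat.even_or_odd (f k).natDegree with hk | hk
    · obtain ⟨r, hr⟩ := h {k} (by rw [mem_singleton]; exact Ne.symm hki)
        (by rw [sum_singleton]; exact hk)
      rw [prod_singleton] at hr
      have hr' : (δ k : ℚ) * val f i k = r * r := by exact_mod_cast hr
      obtain ⟨m, hm⟩ := hk
      have hδk : (δ k : ℚ) ≠ 0 := by exact_mod_cast hδ k
      refine ⟨c ^ m * r / δ k, ?_⟩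
      rw [hm, pow_add]
      field_simp
      linear_combination hr'
    · by_cases hkl : k = l
      · subst hkl
        obtain ⟨m, hm⟩ := hk
        refine ⟨c ^ m * val f i k, ?_⟩
        rw [hm, pow_add, pow_mul, pow_one]
        rw [hc]
        ring
      · obtain ⟨r, hr⟩ := h {k, l} (by
            rw [mem_insert, mem_singleton]
            push Not
            exact ⟨Ne.symm hki, Ne.symm hli⟩)
          (by rw [sum_pair hkl]; exact hk.add_odd hlodd)
        rw [prod_pair hkl] at hr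
        have hr' : (δ k : ℚ) * val f i k * c = r * r := by
          rw [hc]
          exact_mod_cast hr
        obtain ⟨m, hm⟩ := hk
        have hδk : (δ k : ℚ) ≠ 0 := by exact_mod_cast hδ k
        refine ⟨c ^ m * r / δ k, ?_⟩
        have e0 : c ^ (2 * m + 1) = (c ^ m) ^ 2 * c := by ring
        rw [hm, e0]
        calc (c ^ m) ^ 2 * c * (val f i k : ℚ)
            = (c ^ m) ^ 2 * ((δ k : ℚ) * val f i k * c) / δ k := by field_simp
          _ = (c ^ m) ^ 2 * ((r : ℚ) * r) / δ k := by rw [hr']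
          _ = (δ k : ℚ) * (c ^ m * r / δ k) ^ 2 := by field_simp

end K

end Pool.Agent.Y488.TM
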