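import Pool.Agent.W313.BMX.Stm

/-!
# Project TM (helper488): Brauer classes on the twists with mixed factors, statements
-/

set_option autoImplicit false

namespace Pool.Agent.Y488.TM

open Finset Polynomial Pool.Agent.W313.BMX

/-- VALM: simple properties of the values over any field of characteristic zero (adapt
`W930.BMX.val_`) -/
def VALM : Prop := ∀ (K : Type) [Fintype K] [DecidableEq K] (f : K → ℤ[X]),
  (∀ k, Irreducible ((f k).map (Int.castRingHom ℚ))) →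
  (∀ k l, k ≠ l → ¬ Associated ((f k).map (Int.castRingHom ℚ)) ((f l).map (Int.castRingHom ℚ))) →
  ∀ d : ℤ, d ≠ 0 → ∀ (F : Type) [Field F] [CharZero F] (P : Point f d F),
    (∀ k, value P k ≠ 0) ∧ IsSquare ((d : F) * ∏ k, value P k) ∧
    ∀ (n : K → ℤ) (c : F), c ≠ 0 → (∀ k, n k ≠ 0) →
      (∀ k, Even (f k).natDegree → IsSquare (value P k * (n k : F))) →
      (∀ k, Odd (f k).natDegree → IsSquare (c * value P k * (n k : F))) →
      ∃ x w : F, (x ≠ 0 ∨ w ≠ 0) ∧ ∀ k, ∃ y : F, homog (f k) x w = (n k : F) * y ^ 2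

/-- FINB: even valuations at almost all primes (adapt `W928.BMX.fin_`) -/
def FINB : Prop := ∀ (K : Type) [Fintype K] [DecidableEq K] (f : K → ℤ[X]),
  (∀ k, Irreducible ((f k).map (Int.castRingHom ℚ))) →
  (∀ k l, k ≠ l → ¬ Associated ((f k).map (Int.castRingHom ℚ)) ((f l).map (Int.castRingHom ℚ))) →
  Even (∑ k, (f k).natDegree) →
  ∀ d : ℤ, d ≠ 0 → ∃ z : ℕ, ∀ (p : ℕ) [Fact p.Prime], z < p → ∀ (P : Point f d ℚ_[p]),
    (∀ k, Even (f k).natDegree → ∃ (m : ℤ) (c : ℚ_[p]), ¬ (p : ℤ) ∣ m ∧ c ≠ 0 ∧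
      value P k = m * c ^ 2) ∧
    ∀ k l, Odd (f k).natDegree → Odd (f l).natDegree → ∃ (m : ℤ) (c : ℚ_[p]),
      ¬ (p : ℤ) ∣ m ∧ c ≠ 0 ∧ value P k * value P l = m * c ^ 2

end Pool.Agent.Y488.TM
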