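import Pool.Agent.Y488.TM.StmB

/-!
# Project TM, part TM-VALM: values of the factors at a point of the twist, mixed degrees

(adapted from `Pool/Agent/W930/BMX/Val.lean`)
-/

set_option autoImplicit false
set_option linter.unusedVariables false

namespace Pool.Agent.Y488.TM

open Finset Polynomial Pool.Agent.W313.BMX

namespace ValM

lemma homog_div {F : Type} [Field F] (f : ℤ[X]) {x w : F} (hw : w ≠ 0) :
    homog f x w = w ^ f.natDegree * f.eval₂ (Int.castRingHom F) (x / w) := by
  unfold homog
  rw [eval₂_eq_sum_range, Finset.mul_sum]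
  refine Finset.sum_congr rfl fun i hi => ?_
  have hi' : i ≤ f.natDegree := by
    rw [Finset.mem_range] at hi; omega
  have e : w ^ f.natDegree = w ^ (f.natDegree - i) * w ^ i := by
    rw [← pow_add, Nat.sub_add_cancel hi']
  rw [e, div_pow]
  have := pow_ne_zero i hw
  simp only [eq_intCast]
  field_simp

lemma homog_zero {F : Type} [Field F] (f : ℤ[X]) (x : F) :
    homog f x 0 = (f.leadingCoeff : F) * x ^ f.natDegree := by
  unfold homog
  rw [Finset.sum_range_succ, Finset.sum_eq_zero, zero_add, Nat.sub_self, pow_zero, mul_one]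
  · rfl
  · intro i hi
    rw [Finset.mem_range] at hi
    rw [zero_pow (by omega), mul_zero]

lemma homog_smul {F : Type} [Field F] (f : ℤ[X]) (c x w : F) :
    homog f (c * x) (c * w) = c ^ f.natDegree * homog f x w := by
  unfold homog
  rw [Finset.mul_sum]
  refine Finset.sum_congr rfl fun i hi => ?_
  have hi' : i ≤ f.natDegree := by
    rw [Finset.mem_range] at hi; omega
  have e : c ^ f.natDegree = c ^ (f.natDegree - i) * c ^ i := by
    rw [← pow_add, Nat.sub_add_cancel hi']
  rw [e, mul_pow, mul_pow]
  ring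

lemma no_common {F : Type} [Field F] [CharZero F] {f g : ℤ[X]}
    (hf : Irreducible (f.map (Int.castRingHom ℚ))) (hg : Irreducible (g.map (Int.castRingHom ℚ)))
    (hn : ¬ Associated (f.map (Int.castRingHom ℚ)) (g.map (Int.castRingHom ℚ)))
    {x w : F} (ne : x ≠ 0 ∨ w ≠ 0) (h1 : homog f x w = 0) : homog g x w ≠ 0 := by
  intro h2
  by_cases hw : w = 0
  · subst hw
    have hx : x ≠ 0 := ne.resolve_right (by simp)
    rw [homog_zero] at h1
    have hf0 : f ≠ 0 := by
      rintro rfl
      rw [Polynomial.map_zero] at hf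
      exact hf.ne_zero rfl
    have : (f.leadingCoeff : F) ≠ 0 := by
      rw [Int.cast_ne_zero]
      exact leadingCoeff_ne_zero.2 hf0
    exact mul_ne_zero this (pow_ne_zero _ hx) h1
  · rw [homog_div f hw] at h1
    rw [homog_div g hw] at h2
    have h1' := (mul_eq_zero.1 h1).resolve_left (pow_ne_zero _ hw)
    have h2' := (mul_eq_zero.1 h2).resolve_left (pow_ne_zero _ hw)
    have hc : IsCoprime (f.map (Int.castRingHom ℚ)) (g.map (Int.castRingHom ℚ)) := by
      rw [Irreducible.coprime_iff_not_dvd hf, hf.dvd_irreducible_iff_associated hg]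
      exact hn
    obtain ⟨a, b, hab⟩ := hc
    have h3 := congrArg (eval₂ (algebraMap ℚ F) (x / w)) hab
    rw [eval₂_add, eval₂_mul, eval₂_mul, eval₂_map, eval₂_map, eval₂_one] at h3
    have e : (algebraMap ℚ F).comp (Int.castRingHom ℚ) = Int.castRingHom F :=
      Subsingleton.elim _ _
    rw [e, h1', h2', mul_zero, mul_zero, add_zero] at h3
    exact zero_ne_one h3

end ValM

open ValM in
theorem valm : VALM := by
  classical
  intro K _ _ f hirr hass d hd F _ _ P
  have hnc : ∀ k l, k ≠ l → homog (f k) P.x P.w = 0 → homog (f l) P.x P.w ≠ 0 := by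
    intro k l hkl h
    exact no_common (hirr k) (hirr l) (hass k l hkl) P.ne h
  have hd' : (d : F) ≠ 0 := Int.cast_ne_zero.2 hd
  have hv1 : ∀ k, homog (f k) P.x P.w ≠ 0 → value P k = homog (f k) P.x P.w := by
    intro k hk
    unfold value
    rw [if_pos hk]
  have hv2 : ∀ k, homog (f k) P.x P.w = 0 →
      value P k = d * ∏ l ∈ univ.erase k, homog (f l) P.x P.w := by
    intro k hk
    unfold value
    rw [if_neg (by simpa using hk)]
  refine ⟨?_, ?_, ?_⟩
  · intro k
    by_cases hk : homog (f k) P.x P.w = 0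
    · rw [hv2 k hk]
      refine mul_ne_zero hd' (Finset.prod_ne_zero_iff.2 fun l hl => ?_)
      exact hnc k l (Ne.symm (Finset.ne_of_mem_erase hl)) hk
    · rw [hv1 k hk]
      exact hk
  · by_cases hex : ∃ j, homog (f j) P.x P.w = 0
    · obtain ⟨j, hj⟩ := hex
      refine ⟨d * ∏ l ∈ univ.erase j, homog (f l) P.x P.w, ?_⟩
      rw [← Finset.mul_prod_erase univ (fun k => value P k) (Finset.mem_univ j), hv2 j hj]
      have : ∏ l ∈ univ.erase j, value P l = ∏ l ∈ univ.erase j, homog (f l) P.x P.w := by
        refine Finset.prod_congr rfl fun l hl => ?_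
        exact hv1 l (hnc j l (Ne.symm (Finset.ne_of_mem_erase hl)) hj)
      rw [this]
      ring
    · push Not at hex
      refine ⟨d * P.y, ?_⟩
      rw [Finset.prod_congr rfl fun k _ => hv1 k (hex k), ← P.eq]
      ring
  · intro n c hc hn hev hodd
    refine ⟨c * P.x, c * P.w, ?_, ?_⟩
    · rcases P.ne with h | h
      · exact Or.inl (mul_ne_zero hc h)
      · exact Or.inr (mul_ne_zero hc h)
    intro k
    rw [homog_smul]
    by_cases hk : homog (f k) P.x P.w = 0
    · exact ⟨0, by rw [hk]; ring⟩
    · have hnk : (n k : F) ≠ 0 := Int.cast_ne_zero.2 (hn k)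
      rcases Nat.even_or_odd (f k).natDegree with he | ho
      · obtain ⟨s, hs⟩ := hev k he
        rw [hv1 k hk] at hs
        obtain ⟨m, hm⟩ := he
        refine ⟨c ^ m * s / n k, ?_⟩
        rw [hm]
        have e : homog (f k) P.x P.w = s * s / n k := by
          rw [eq_div_iff hnk, hs]
        rw [e, pow_add]
        field_simp
      · obtain ⟨s, hs⟩ := hodd k ho
        rw [hv1 k hk] at hs
        obtain ⟨m, hm⟩ := ho
        refine ⟨c ^ m * s / n k, ?_⟩
        rw [hm]
        have e : c * homog (f k) P.x P.w = s * s / n k := by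
          rw [eq_div_iff hnk, hs]
        calc c ^ (2 * m + 1) * homog (f k) P.x P.w
            = (c ^ m) ^ 2 * (c * homog (f k) P.x P.w) := by ring
          _ = (c ^ m) ^ 2 * (s * s / n k) := by rw [e]
          _ = (n k : F) * (c ^ m * s / n k) ^ 2 := by
            field_simp

end Pool.Agent.Y488.TM
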