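import Pool.Agent.W313.BMX.Final
import Pool.Agent.Y488.TM.StmB
import Pool.Agent.Y488.TM.ValM
import Pool.Agent.Y488.TM.MainL

/-! # Project TM: adelic points orthogonal to the Brauer classes -/

set_option autoImplicit false

namespace Pool.Agent.Y488.TM

open Finset Polynomial Pool.Agent.W313.BMX

section K

variable {K : Type} [Fintype K] [DecidableEq K]

/-- The family of the values of `F k * F l` at the components of an adelic point. -/
noncomputable def values2 {f : K → ℤ[X]} {d : ℤ} (P : AdelicPoint f d) (k l : K) : Fam :=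
  ⟨value P.re k * value P.re l, fun p => value (P.pa p) k * value (P.pa p) l⟩

/-- The adelic point is orthogonal to the classes `(F k, e)`, `deg F k` even, and `(F k * F l, e)`,
`deg F k`, `deg F l` odd. -/
def OrthM {f : K → ℤ[X]} {d : ℤ} (P : AdelicPoint f d) : Prop :=
  ∀ e : ℤ, e ≠ 0 → (∀ k, Even (f k).natDegree → Even (ram (values P k) e).ncard) ∧
    ∀ k l, k ≠ l → Odd (f k).natDegree → Odd (f l).natDegree → Even (ram (values2 P k l) e).ncard

lemma test_ne {e : ℤ} (he : IsTest e) : e ≠ 0 := by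
  rcases he with rfl | rfl | ⟨h1, h2⟩
  · norm_num
  · norm_num
  · rintro rfl
    norm_num at h2

/-- products of local squares -/
lemma prod_sq {F : Type} [Field F] (f : K → ℤ[X]) {v : K → F} {n : K → F} {c : F} (hc : c ≠ 0)
    (h1 : ∀ k, Even (f k).natDegree → IsSquare (v k * n k))
    (h2 : ∀ k, Odd (f k).natDegree → IsSquare (c * v k * n k)) {T : Finset K}
    (hT : Even (∑ k ∈ T, (f k).natDegree)) : IsSquare (∏ k ∈ T, (v k * n k)) := by
  have hT' : Even (T ∩ Od f).card := (even_iff f T).1 hT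
  have e1 : (∏ k ∈ T, (v k * n k)) * c ^ (T ∩ Od f).card =
      ∏ k ∈ T, (if k ∈ Od f then c * v k * n k else v k * n k) := by
    have e2 : c ^ (T ∩ Od f).card = ∏ k ∈ T, (if k ∈ Od f then c else 1) := by
      rw [prod_ite_mem, prod_const]
    rw [e2, ← prod_mul_distrib]
    refine prod_congr rfl fun k _ => ?_
    split_ifs
    · ring
    · ring
  have h3 : IsSquare (∏ k ∈ T, (if k ∈ Od f then c * v k * n k else v k * n k)) := by
    have h4 : ∀ k, ∃ r, (if k ∈ Od f then c * v k * n k else v k * n k) = r * r := by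
      intro k
      by_cases hk : k ∈ Od f
      · rw [if_pos hk]
        unfold Od at hk
        exact h2 k (mem_filter.1 hk).2
      · rw [if_neg hk]
        apply h1 k
        by_contra hno
        apply hk
        unfold Od
        exact mem_filter.2 ⟨mem_univ _, Nat.not_even_iff_odd.1 hno⟩
    choose r hr using h4
    refine ⟨∏ k ∈ T, r k, ?_⟩
    rw [← prod_mul_distrib]
    exact prod_congr rfl fun k _ => hr k
  obtain ⟨m, hm⟩ := hT'
  rw [← e1, hm] at h3
  obtain ⟨r, hr⟩ := h3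
  refine ⟨r / c ^ m, ?_⟩
  rw [pow_add] at hr
  field_simp
  linear_combination hr

theorem selM (hfin : FINB) (f : K → ℤ[X])
    (hirr : ∀ k, Irreducible ((f k).map (Int.castRingHom ℚ)))
    (hass : ∀ k l, k ≠ l →
      ¬ Associated ((f k).map (Int.castRingHom ℚ)) ((f l).map (Int.castRingHom ℚ)))
    (hev : Even (∑ k, (f k).natDegree)) (hO : ∃ k, Odd (f k).natDegree) (d : ℤ) (hd : d ≠ 0)
    (P : AdelicPoint f d) (hP : OrthM P) :
    ∃ n : K → ℤ, (∀ k, n k ≠ 0) ∧ IsSquare (d * ∏ k, n k) ∧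
      Pool.Agent.W262.TW.HasPt f n ℝ ∧
      (∀ (p : ℕ) [Fact p.Prime], Pool.Agent.W262.TW.HasPt f n ℚ_[p]) ∧
      ∀ T : Finset K, Even (∑ k ∈ T, (f k).natDegree) →
        IsSquare (∏ k ∈ T, (value P.re k * (n k : ℝ))) ∧
        ∀ p : Nat.Primes, IsSquare (∏ k ∈ T, (value (P.pa p) k * (n k : ℚ_[(p : ℕ)]))) := by
  classical
  obtain ⟨k0, hk0⟩ := hO
  have hvr := valm K f hirr hass d hd ℝ P.re
  have hvp := fun p : Nat.Primes => valm K f hirr hass d hd ℚ_[(p : ℕ)] (P.pa p)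
  obtain ⟨z, hz⟩ := hfin K f hirr hass hev d hd
  have hzf : {p : Nat.Primes | (p : ℕ) ≤ z}.Finite := by
    have h2 : (Set.Iic z).Finite := Set.finite_Iic z
    exact h2.preimage (Subtype.val_injective.injOn)
  have hex : ∀ k, ∃ n : ℤ, n ≠ 0 ∧
      (Even (f k).natDegree → IsSquare (value P.re k * (n : ℝ)) ∧
        ∀ p : Nat.Primes, IsSquare (value (P.pa p) k * (n : ℚ_[(p : ℕ)]))) ∧
      (Odd (f k).natDegree → IsSquare (value P.re k0 * value P.re k * (n : ℝ)) ∧
        ∀ p : Nat.Primes, IsSquare (value (P.pa p) k0 * value (P.pa p) k *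
          (n : ℚ_[(p : ℕ)]))) := by
    intro k
    rcases Nat.even_or_odd (f k).natDegree with hk | hk
    · obtain ⟨n, h1, h2, h3⟩ := hexact (values P k) (hvr.1 k) (fun p => (hvp p).1 k) (by
        apply hzf.subset
        intro p hp
        by_contra hpz
        obtain ⟨m, c, hm, -, hmc⟩ := (hz (p : ℕ) (not_le.1 hpz) (P.pa p)).1 k hk
        exact hp m c hm hmc) (fun e he _ => (hP e (test_ne he)).1 k hk)
      exact ⟨n, h1.ne_zero, fun _ => ⟨h2, h3⟩, fun h => absurd hk (Nat.not_even_iff_odd.2 h)⟩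
    · by_cases hkk : k0 = k
      · subst hkk
        refine ⟨1, one_ne_zero, fun h => absurd h (Nat.not_even_iff_odd.2 hk), fun _ => ⟨?_, ?_⟩⟩
        · exact ⟨value P.re k0, by push_cast; ring⟩
        · intro p
          exact ⟨value (P.pa p) k0, by push_cast; ring⟩
      · obtain ⟨n, h1, h2, h3⟩ := hexact (values2 P k0 k)
          (mul_ne_zero (hvr.1 k0) (hvr.1 k))
          (fun p => mul_ne_zero ((hvp p).1 k0) ((hvp p).1 k)) (by
          apply hzf.subset
          intro p hp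
          by_contra hpz
          obtain ⟨m, c, hm, -, hmc⟩ := (hz (p : ℕ) (not_le.1 hpz) (P.pa p)).2 k0 k hk0 hk
          exact hp m c hm hmc) (fun e he _ => (hP e (test_ne he)).2 k0 k hkk hk0 hk)
        exact ⟨n, h1.ne_zero, fun h => absurd h (Nat.not_even_iff_odd.2 hk), fun _ => ⟨h2, h3⟩⟩
  choose n hn0 hn1 hn2 using hex
  have hT : ∀ T : Finset K, Even (∑ k ∈ T, (f k).natDegree) →
      IsSquare (∏ k ∈ T, (value P.re k * (n k : ℝ))) ∧
      ∀ p : Nat.Primes, IsSquare (∏ k ∈ T, (value (P.pa p) k * (n k : ℚ_[(p : ℕ)]))) := by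
    intro T hT
    refine ⟨prod_sq f (hvr.1 k0) (fun k hk => (hn1 k hk).1) (fun k hk => (hn2 k hk).1) hT,
      fun p => prod_sq f ((hvp p).1 k0) (fun k hk => (hn1 k hk).2 p)
        (fun k hk => (hn2 k hk).2 p) hT⟩
  have hprod : ∀ {F : Type} [Field F] [CharZero F] (v : K → F), (∀ k, v k ≠ 0) →
      IsSquare (∏ k, (v k * (n k : F))) → IsSquare ((d : F) * ∏ k, v k) →
      IsSquare (((d * ∏ k, n k : ℤ)) : F) := by
    intro F _ _ v hv h1 hdv
    rw [prod_mul_distrib] at h1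
    have h2 := isSquare_div hdv (prod_ne_zero_iff.2 fun k _ => hv k) h1
    push_cast
    exact h2
  refine ⟨n, hn0, ?_, ?_, ?_, hT⟩
  · apply isSquare_of_local
    · exact mul_ne_zero hd (prod_ne_zero_iff.2 fun k _ => hn0 k)
    · exact hprod (fun k => value P.re k) hvr.1 (hT univ hev).1 hvr.2.1
    · intro p
      exact hprod (fun k => value (P.pa p) k) (hvp p).1 ((hT univ hev).2 p) (hvp p).2.1
  · exact hvr.2.2 n (value P.re k0) (hvr.1 k0) hn0 (fun k hk => (hn1 k hk).1)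
      (fun k hk => (hn2 k hk).1)
  · intro p hp
    exact (hvp ⟨p, hp.out⟩).2.2 n (value (P.pa ⟨p, hp.out⟩) k0) ((hvp ⟨p, hp.out⟩).1 k0) hn0
      (fun k hk => (hn1 k hk).2 ⟨p, hp.out⟩) (fun k hk => (hn2 k hk).2 ⟨p, hp.out⟩)

/-- the adelic point has the type of the zero of the linear form `F i` -/
def TypeOf {f : K → ℤ[X]} {d : ℤ} (P : AdelicPoint f d) (i : K) : Prop :=
  ∀ T : Finset K, i ∉ T → Even (∑ k ∈ T, (f k).natDegree) →
    IsSquare (∏ k ∈ T, (value P.re k * (val f i k : ℝ))) ∧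
    ∀ p : Nat.Primes, IsSquare (∏ k ∈ T, (value (P.pa p) k * (val f i k : ℚ_[(p : ℕ)])))

lemma combine {F : Type} [Field F] {T : Finset K} {v n w : K → F} (hn : ∀ k, n k ≠ 0)
    (h1 : IsSquare (∏ k ∈ T, (v k * n k))) (h2 : IsSquare (∏ k ∈ T, (n k * w k))) :
    IsSquare (∏ k ∈ T, (v k * w k)) := by
  rw [prod_mul_distrib] at h1 h2 ⊢
  exact isSquare_div h1 (prod_ne_zero_iff.2 fun k _ => hn k) h2

theorem bm_main (hfin : FINB) (f : K → ℤ[X]) (hf : Hyp f) :
    ∃ δ : ℝ, 0 < δ ∧ ∃ C : ℝ, ∀ X : ℕ, 3 ≤ X →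
    ({d : ℤ | d.natAbs ≤ X ∧ Squarefree d ∧ ∃ P : AdelicPoint f d, OrthM P ∧
      ∀ i, (f i).natDegree = 1 → ¬ TypeOf P i}.ncard : ℝ) ≤ C * X * (Real.log X) ^ (-δ) := by
  obtain ⟨δ, hδ, C, hC⟩ := mainl f hf
  refine ⟨δ, hδ, C, fun X hX => le_trans ?_ (hC X hX)⟩
  refine Nat.cast_le.2 (Set.ncard_le_ncard ?_ (Pool.Agent.TH213.SP.fin_le X _))
  rintro d ⟨h1, h2, P, hP, hno⟩
  have hodd : ∃ k, Odd (f k).natDegree := by
    have h3 : 0 < (Od f).card := by have := hf.four; omega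
    obtain ⟨k, hk⟩ := card_pos.1 h3
    unfold Od at hk
    exact ⟨k, (mem_filter.1 hk).2⟩
  obtain ⟨n, hn0, hn1, -, hn2, hn3⟩ := selM hfin f hf.irr hf.ass hf.even hodd d h2.ne_zero P hP
  refine ⟨h1, h2, n, hn0, hn1, fun p _ => hn2 p, ?_⟩
  rintro ⟨i, hi, hc⟩
  apply hno i hi
  intro T hT hev
  have h5 := hc T hT hev
  obtain ⟨r, hr⟩ := h5
  refine ⟨combine (n := fun k => (n k : ℝ)) (fun k => by exact_mod_cast hn0 k) (hn3 T hev).1
    ⟨r, ?_⟩, fun p => combine (n := fun k => (n k : ℚ_[(p : ℕ)]))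
    (fun k => by exact_mod_cast hn0 k) ((hn3 T hev).2 p) ⟨r, ?_⟩⟩
  · exact_mod_cast congrArg (fun q : ℤ => (q : ℝ)) hr
  · exact_mod_cast congrArg (fun q : ℤ => (q : ℚ_[(p : ℕ)])) hr

end K

end Pool.Agent.Y488.TM
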