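import Pool.Agent.Y488.TM.StmE

set_option autoImplicit false

namespace Pool.Agent.Y488.TM

open Polynomial

/-- no rational cube roots -/
lemma nocube (a : ℤ) (ha : a = 2 ∨ a = 3 ∨ a = 5 ∨ a = 19) (b : ℚ) : b ^ 3 ≠ (a : ℚ) := by
  intro h
  have h1 : b.num ^ 3 = a := by
    have := congrArg Rat.num h
    rw [Rat.num_pow] at this
    simpa using this
  generalize b.num = n at h1
  have hpos : 0 < n := by
    by_contra hcon
    push Not at hcon
    have : n ^ 3 ≤ 0 := Odd.pow_nonpos (by decide) hcon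
    omega
  have hlt : n < 3 := by
    by_contra hcon
    push Not at hcon
    have : 3 ^ 3 ≤ n ^ 3 := pow_le_pow_left₀ (by norm_num) hcon 3
    omega
  interval_cases n <;> omega

lemma irr_cube (a : ℤ) (ha : a = 2 ∨ a = 3 ∨ a = 5 ∨ a = 19) :
    Irreducible (X ^ 3 - C (a : ℚ)) :=
  X_pow_sub_C_irreducible_of_prime (by norm_num) (nocube a ha)

lemma irr_quad : Irreducible (X ^ 2 + X + 1 : ℚ[X]) := by
  have hd : (X ^ 2 + X + 1 : ℚ[X]).natDegree = 2 := by compute_degree!
  rw [irreducible_iff_roots_eq_zero_of_degree_le_three (by omega) (by omega)]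
  rw [Multiset.eq_zero_iff_forall_notMem]
  intro x hx
  have h1 := (mem_roots'.1 hx).2
  simp only [IsRoot.def, eval_add, eval_pow, eval_X, eval_one] at h1
  nlinarith [sq_nonneg (2 * x + 1)]

lemma map0 : (gE 0).map (Int.castRingHom ℚ) = X ^ 2 + X + 1 := by
  simp [gE]

lemma map1 : (gE 1).map (Int.castRingHom ℚ) = X ^ 3 - C ((2 : ℤ) : ℚ) := by
  simp [gE]
  exact (map_ofNat C 2).symm

lemma map2 : (gE 2).map (Int.castRingHom ℚ) = X ^ 3 - C ((3 : ℤ) : ℚ) := by
  simp [gE]
  exact (map_ofNat C 3).symm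

lemma map3 : (gE 3).map (Int.castRingHom ℚ) = X ^ 3 - C ((5 : ℤ) : ℚ) := by
  simp [gE]
  exact (map_ofNat C 5).symm

lemma map4 : (gE 4).map (Int.castRingHom ℚ) = X ^ 3 - C ((19 : ℤ) : ℚ) := by
  simp [gE]
  exact (map_ofNat C 19).symm

lemma na_cube (a b : ℤ) (hab : a ≠ b) :
    ¬ Associated (X ^ 3 - C (a : ℚ)) (X ^ 3 - C (b : ℚ)) := by
  intro h
  have h1 := eq_of_monic_of_associated (monic_X_pow_sub_C (a : ℚ) (by norm_num))
    (monic_X_pow_sub_C (b : ℚ) (by norm_num)) h
  have h2 := congrArg (fun p : ℚ[X] => p.coeff 0) h1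
  simp at h2
  exact hab h2

lemma na_quad (a : ℤ) : ¬ Associated (X ^ 2 + X + 1 : ℚ[X]) (X ^ 3 - C (a : ℚ)) := by
  intro h
  have h1 := degree_eq_degree_of_associated h
  have hd : (X ^ 2 + X + 1 : ℚ[X]).degree = 2 := by compute_degree!
  rw [hd, degree_X_pow_sub_C (by norm_num)] at h1
  exact absurd h1 (by decide)

theorem exa : EXA := by
  refine ⟨?_, ?_, ?_, ?_⟩
  · intro k
    fin_cases k
    · exact map0 ▸ irr_quad
    · exact map1 ▸ irr_cube 2 (by norm_num)
    · exact map2 ▸ irr_cube 3 (by norm_num)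
    · exact map3 ▸ irr_cube 5 (by norm_num)
    · exact map4 ▸ irr_cube 19 (by norm_num)
  · have key : ∀ k l : Fin 5, k < l →
        ¬ Associated ((gE k).map (Int.castRingHom ℚ)) ((gE l).map (Int.castRingHom ℚ)) := by
      intro k l hkl
      fin_cases k <;> fin_cases l <;> first | exact absurd hkl (by decide) | skip
      · exact map0 ▸ map1 ▸ na_quad 2
      · exact map0 ▸ map2 ▸ na_quad 3
      · exact map0 ▸ map3 ▸ na_quad 5
      · exact map0 ▸ map4 ▸ na_quad 19
      · exact map1 ▸ map2 ▸ na_cube 2 3 (by norm_num)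
      · exact map1 ▸ map3 ▸ na_cube 2 5 (by norm_num)
      · exact map1 ▸ map4 ▸ na_cube 2 19 (by norm_num)
      · exact map2 ▸ map3 ▸ na_cube 3 5 (by norm_num)
      · exact map2 ▸ map4 ▸ na_cube 3 19 (by norm_num)
      · exact map3 ▸ map4 ▸ na_cube 5 19 (by norm_num)
    intro k l hkl h
    rcases lt_or_gt_of_ne hkl with h1 | h1
    · exact key k l h1 h
    · exact key l k h1 h.symm
  · show (X ^ 2 + X + 1 : ℤ[X]).natDegree = 2
    compute_degree!
  · intro k hk
    fin_cases k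
    · exact absurd rfl hk
    · show (X ^ 3 - 2 : ℤ[X]).natDegree = 3
      compute_degree!
    · show (X ^ 3 - 3 : ℤ[X]).natDegree = 3
      compute_degree!
    · show (X ^ 3 - 5 : ℤ[X]).natDegree = 3
      compute_degree!
    · show (X ^ 3 - 19 : ℤ[X]).natDegree = 3
      compute_degree!

end Pool.Agent.Y488.TM
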