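import Pool.Agent.Y488.TM.StmE

/-!
# Project TM (helper488), task TM-EXB (by helper383)
-/

set_option autoImplicit false

namespace Pool.Agent.Y488.TM

open Polynomial

lemma exb_aev {p : ℕ} [Fact p.Prime] (F : ℤ[X]) (s : ℤ) :
    aeval ((s : ℤ) : ℤ_[p]) F = ((F.eval s : ℤ) : ℤ_[p]) := by
  have h := Polynomial.aeval_algebraMap_apply ℤ_[p] s F
  rw [coe_aeval_eq_eval] at h
  simpa only [algebraMap_int_eq, eq_intCast] using h

lemma exb_hens {p : ℕ} [Fact p.Prime] (F : ℤ[X]) (s : ℤ) (h1 : (p : ℤ) ∣ F.eval s)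
    (h2 : ¬ (p : ℤ) ∣ (derivative F).eval s) : ∃ z : ℤ_[p], aeval z F = 0 := by
  obtain ⟨z, hz, -⟩ := hensels_lemma (p := p) (R := ℤ) (F := F) (a := (s : ℤ_[p])) (by
    rw [exb_aev, exb_aev]
    have h3 : ‖((F.eval s : ℤ) : ℤ_[p])‖ < 1 := by
      rw [PadicInt.norm_intCast_lt_one_iff]
      exact h1
    have h4 : ‖(((derivative F).eval s : ℤ) : ℤ_[p])‖ = 1 := by
      have h5 : ¬ ‖(((derivative F).eval s : ℤ) : ℤ_[p])‖ < 1 := by
        rw [PadicInt.norm_intCast_lt_one_iff]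
        exact h2
      exact le_antisymm (PadicInt.norm_le_one _) (not_lt.1 h5)
    rw [h4, one_pow]
    exact h3)
  exact ⟨z, hz⟩

lemma exb_quad {p : ℕ} [Fact p.Prime] {z : ℤ_[p]} (h : aeval z (X ^ 2 + X + 1 : ℤ[X]) = 0) :
    ∃ x : ℚ_[p], x ^ 2 + x + 1 = 0 := by
  refine ⟨(z : ℚ_[p]), ?_⟩
  simp only [map_add, map_pow, aeval_X, map_one] at h
  exact_mod_cast congrArg (fun w : ℤ_[p] => (w : ℚ_[p])) h

lemma exb_cub {p : ℕ} [Fact p.Prime] {z : ℤ_[p]} (h : aeval z (X ^ 3 - 19 : ℤ[X]) = 0) :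
    ∃ x : ℚ_[p], x ^ 3 = 19 := by
  refine ⟨(z : ℚ_[p]), ?_⟩
  simp only [map_sub, map_pow, aeval_X, map_ofNat] at h
  have h1 : z ^ 3 = 19 := by linear_combination h
  exact_mod_cast congrArg (fun w : ℤ_[p] => (w : ℚ_[p])) h1

lemma exb_three [Fact (Nat.Prime 3)] : ∃ x : ℚ_[3], x ^ 3 = 19 := by
  obtain ⟨z, hz, -⟩ := hensels_lemma (p := 3) (R := ℤ) (F := (X ^ 3 - 19 : ℤ[X]))
    (a := ((7 : ℤ) : ℤ_[3])) (by
    rw [exb_aev, exb_aev]
    have e1 : (X ^ 3 - 19 : ℤ[X]).eval 7 = 324 := by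
      simp only [eval_sub, eval_pow, eval_X, eval_ofNat]
      norm_num
    have e2 : (derivative (X ^ 3 - 19 : ℤ[X])).eval 7 = 147 := by
      simp
    rw [e1, e2]
    have h3 : ‖((324 : ℤ) : ℤ_[3])‖ ≤ ((3 : ℕ) : ℝ) ^ (-((4 : ℕ) : ℤ)) := by
      rw [PadicInt.norm_int_le_pow_iff_dvd]
      norm_num
    have h4 : ¬ ‖((147 : ℤ) : ℤ_[3])‖ ≤ ((3 : ℕ) : ℝ) ^ (-((2 : ℕ) : ℤ)) := by
      rw [PadicInt.norm_int_le_pow_iff_dvd]
      norm_num
    push Not at h4
    have h5 := pow_lt_pow_left₀ h4 (by positivity) two_ne_zero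
    refine h3.trans_lt (lt_of_eq_of_lt ?_ h5)
    norm_num)
  exact exb_cub hz

theorem exb : EXB := by
  constructor
  · refine ⟨(19 : ℝ) ^ (1 / 3 : ℝ), ?_⟩
    rw [← Real.rpow_natCast, ← Real.rpow_mul (by norm_num)]
    norm_num
  · intro p hp
    have hpp : p.Prime := hp.out
    rcases Nat.lt_or_ge p 3 with h3 | h3
    · -- `p = 2`
      have h2 : p = 2 := le_antisymm (by omega) hpp.two_le
      subst h2
      right
      obtain ⟨z, hz⟩ := exb_hens (p := 2) (X ^ 3 - 19 : ℤ[X]) 1 (by simp) (by simp)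
      exact exb_cub hz
    rcases eq_or_ne p 3 with rfl | hp3
    · right
      exact exb_three
    have hm : p % 3 = 1 ∨ p % 3 = 2 := by
      have h1 : p % 3 ≠ 0 := by
        intro h
        exact hp3 ((Nat.prime_dvd_prime_iff_eq Nat.prime_three hpp).1
          (Nat.dvd_of_mod_eq_zero h)).symm
      omega
    have hpi : Prime (p : ℤ) := Nat.prime_iff_prime_int.1 hpp
    have hd3 : ¬ (p : ℤ) ∣ 3 := by
      intro h
      have h5 : p ∣ 3 := by exact_mod_cast h
      exact hp3 ((Nat.prime_dvd_prime_iff_eq hpp Nat.prime_three).1 h5)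
    have hcard : Nat.card (ZMod p)ˣ = p - 1 := by
      rw [Nat.card_eq_fintype_card, ZMod.card_units]
    rcases hm with hm | hm
    · left
      obtain ⟨u, hu⟩ := exists_prime_orderOf_dvd_card' (G := (ZMod p)ˣ) 3 (by
        rw [hcard]
        omega)
      have h1 : (u : ZMod p) ^ 3 = 1 := by
        have := pow_orderOf_eq_one u
        rw [hu] at this
        rw [← Units.val_pow_eq_pow_val, this, Units.val_one]
      have h2 : (u : ZMod p) ≠ 1 := by
        intro h
        have h4 : u = 1 := Units.ext h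
        rw [h4, orderOf_one] at hu
        omega
      have h4 : (u : ZMod p) ^ 2 + u + 1 = 0 := by
        have h5 : ((u : ZMod p) - 1) * ((u : ZMod p) ^ 2 + u + 1) = 0 := by
          linear_combination h1
        rcases mul_eq_zero.1 h5 with h6 | h6
        · exact absurd (sub_eq_zero.1 h6) h2
        · exact h6
      obtain ⟨s, hs⟩ := ZMod.intCast_surjective (u : ZMod p)
      have h5 : (p : ℤ) ∣ s ^ 2 + s + 1 := by
        rw [← ZMod.intCast_zmod_eq_zero_iff_dvd]
        push_cast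
        rw [hs]
        exact h4
      obtain ⟨z, hz⟩ := exb_hens (p := p) (X ^ 2 + X + 1 : ℤ[X]) s (by simpa using h5) (by
        have e : (derivative (X ^ 2 + X + 1 : ℤ[X])).eval s = 2 * s + 1 := by simp
        rw [e]
        intro h6
        apply hd3
        have h7 := dvd_sub (h5.mul_left 4) (h6.mul_left (2 * s + 1))
        have h8 : 4 * (s ^ 2 + s + 1) - (2 * s + 1) * (2 * s + 1) = 3 := by ring
        rwa [h8] at h7)
      exact exb_quad hz
    · right
      have h19 : ((19 : ℕ) : ZMod p) ≠ 0 := by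
        intro h
        have h1 : p ∣ 19 := (ZMod.natCast_eq_zero_iff 19 p).1 h
        have h2 : p = 19 := (Nat.prime_dvd_prime_iff_eq hpp (by norm_num)).1 h1
        omega
      have hco : (Nat.card (ZMod p)ˣ).Coprime 3 := by
        rw [hcard, Nat.coprime_comm, Nat.Prime.coprime_iff_not_dvd Nat.prime_three]
        omega
      obtain ⟨v, hv⟩ := (powCoprime hco).surjective (Units.mk0 _ h19)
      have h1 : (v : ZMod p) ^ 3 = 19 := by
        have h2 := congrArg (fun w : (ZMod p)ˣ => (w : ZMod p)) hv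
        simpa using h2
      obtain ⟨s, hs⟩ := ZMod.intCast_surjective (v : ZMod p)
      have h5 : (p : ℤ) ∣ s ^ 3 - 19 := by
        rw [← ZMod.intCast_zmod_eq_zero_iff_dvd]
        push_cast
        rw [hs, h1]
        ring
      obtain ⟨z, hz⟩ := exb_hens (p := p) (X ^ 3 - 19 : ℤ[X]) s (by simpa using h5) (by
        have e : (derivative (X ^ 3 - 19 : ℤ[X])).eval s = 3 * s ^ 2 := by simp
        rw [e]
        intro h6
        rcases hpi.dvd_or_dvd h6 with h7 | h7
        · exact hd3 h7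
        · have h8 := hpi.dvd_of_dvd_pow h7
          have h9 : (v : ZMod p) = 0 := by
            rw [← hs]
            exact (ZMod.intCast_zmod_eq_zero_iff_dvd s p).2 h8
          exact v.ne_zero h9)
      exact exb_cub hz

end Pool.Agent.Y488.TM
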