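import Pool.Agent.Y488.TM.StmB
import Pool.Agent.W975.TW.Loc3
import Pool.Agent.W310.BMX.Rep
import Pool.Agent.W930.BMX.Val

/-!
# Even valuations at large primes, mixed degrees (TM-FINB, helper435)
-/

set_option autoImplicit false
set_option linter.all false

namespace Pool.Agent.Y488.TM

open Finset Polynomial Pool.Agent.W313.BMX

namespace FinB

open Pool.Agent.W975.TW

section pad

variable {p : ℕ} [hp : Fact p.Prime]

theorem val_one {a : ℚ_[p]} (h : ‖a‖ = 1) : a.valuation = 0 := by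
  have ha : a ≠ 0 := by
    rintro rfl
    simp at h
  have hp1 : (1 : ℝ) < p := by exact_mod_cast hp.out.one_lt
  rw [Padic.norm_eq_zpow_neg_valuation ha] at h
  have h2 : (p : ℝ) ^ (-a.valuation) = (p : ℝ) ^ (0 : ℤ) := by rw [h, zpow_zero]
  have := zpow_right_injective₀ (by linarith) hp1.ne' h2
  omega

theorem val_int {d : ℤ} (hd : ¬ (p : ℤ) ∣ d) : (d : ℚ_[p]).valuation = 0 := by
  rw [Padic.valuation_intCast]
  have h2 : padicValInt p d = 0 := by
    rw [padicValInt.eq_zero_iff]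
    exact Or.inr (Or.inr hd)
  rw [h2]
  rfl

theorem val_prod {K : Type} (S : Finset K) (g : K → ℚ_[p]) (h : ∀ k ∈ S, g k ≠ 0) :
    (∏ k ∈ S, g k).valuation = ∑ k ∈ S, (g k).valuation := by
  classical
  induction S using Finset.induction_on with
  | empty => simp
  | insert a S ha ih =>
    rw [Finset.prod_insert ha, Finset.sum_insert ha,
      Padic.valuation_mul (h a (mem_insert_self _ _))
        (Finset.prod_ne_zero_iff.2 fun k hk => h k (mem_insert_of_mem hk)),
      ih fun k hk => h k (mem_insert_of_mem hk)]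

theorem rep {a : ℚ_[p]} (ha : a ≠ 0) (he : Even a.valuation) :
    ∃ (m : ℤ) (c : ℚ_[p]), ¬ (p : ℤ) ∣ m ∧ c ≠ 0 ∧ a = m * c ^ 2 := by
  obtain ⟨t, m, c, ht, hm, hc, e⟩ := Pool.Agent.W310.BMX.odd4 p a ha
  refine ⟨m, c, hm, hc, ?_⟩
  have hp0 : (p : ℚ_[p]) ≠ 0 := by
    have := hp.out.ne_zero
    exact_mod_cast this
  have hm0 : (m : ℚ_[p]) ≠ 0 := by
    have : m ≠ 0 := by
      rintro rfl
      exact hm (dvd_zero _)
    exact_mod_cast this
  have h1 := congrArg Padic.valuation e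
  push_cast at h1
  rw [Padic.valuation_mul (mul_ne_zero (pow_ne_zero _ hp0) hm0) (pow_ne_zero _ hc),
    Padic.valuation_mul (pow_ne_zero _ hp0) hm0, Padic.valuation_pow, Padic.valuation_pow,
    Padic.valuation_p, val_int hm] at h1
  have h2 : t = 0 := by
    obtain ⟨r, hr⟩ := he
    push_cast at h1
    omega
  rw [e, h2, pow_zero, one_mul]

variable {K : Type} [Fintype K] [DecidableEq K]

theorem scaled (f : K → ℤ[X]) (hplc : ∀ k, ¬ (p : ℤ) ∣ (f k).leadingCoeff)
    (hR : ∀ k l, k ≠ l → ∃ (R : ℤ) (A B : ℤ[X]), ¬ (p : ℤ) ∣ R ∧ A * f k + B * f l = C R)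
    (x w : ℚ_[p]) (hxw : x ≠ 0 ∨ w ≠ 0) :
    ∃ (s : ℚ_[p]) (G : K → ℤ_[p]), s ≠ 0 ∧
      (∀ k, homog (f k) x w = s ^ (f k).natDegree * ((G k : ℤ_[p]) : ℚ_[p])) ∧
      ∀ k l, k ≠ l → ‖G k‖ < 1 → ¬ ‖G l‖ < 1 := by
  rcases lt_or_ge ‖w‖ ‖x‖ with hlt | hge
  · have hx : x ≠ 0 := by
      intro h; rw [h, norm_zero] at hlt
      exact absurd (norm_nonneg w) (not_le.2 hlt)
    have hxn : 0 < ‖x‖ := norm_pos_iff.2 hx
    have hv : ‖w / x‖ < 1 := by rw [norm_div, div_lt_one hxn]; exact hlt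
    set v : ℤ_[p] := ⟨w / x, hv.le⟩ with hvdef
    refine ⟨x, fun k => Pool.Agent.W262.TW.hom (f k) (1 : ℤ_[p]) v, hx, ?_, ?_⟩
    · intro k
      have h1 : Pool.Agent.W262.TW.hom (f k) (1 : ℚ_[p]) (w / x) =
          ((Pool.Agent.W262.TW.hom (f k) (1 : ℤ_[p]) v : ℤ_[p]) : ℚ_[p]) := by
        have := hom_map (PadicInt.Coe.ringHom (p := p)) (f k) 1 v
        simp only [map_one] at this
        exact this.symm
      rw [← h1, ← hom_smul, mul_one, mul_div_cancel₀ _ hx]
      rfl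
    · intro k l hkl hk
      exfalso
      have h2 : PadicInt.toZMod (Pool.Agent.W262.TW.hom (f k) (1 : ℤ_[p]) v) ≠ 0 := by
        rw [hom_map, map_one, (toZ_iff v).2 hv, hom_lc]
        intro h3
        exact hplc k ((ZMod.intCast_zmod_eq_zero_iff_dvd _ p).1 h3)
      exact h2 ((toZ_iff _).2 hk)
  · have hw : w ≠ 0 := by
      intro h
      rw [h, norm_zero] at hge
      have hx := norm_le_zero_iff.1 hge
      rcases hxw with h' | h'
      · exact h' hx
      · exact h' h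
    have hwn : 0 < ‖w‖ := norm_pos_iff.2 hw
    have hu : ‖x / w‖ ≤ 1 := by rw [norm_div, div_le_one hwn]; exact hge
    set u : ℤ_[p] := ⟨x / w, hu⟩ with hudef
    refine ⟨w, fun k => (f k).eval₂ (Int.castRingHom ℤ_[p]) u, hw, ?_, ?_⟩
    · intro k
      have h1 : Pool.Agent.W262.TW.hom (f k) (x / w) (1 : ℚ_[p]) =
          (((f k).eval₂ (Int.castRingHom ℤ_[p]) u : ℤ_[p]) : ℚ_[p]) := by
        have := hom_map (PadicInt.Coe.ringHom (p := p)) (f k) u 1
        simp only [map_one] at this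
        rw [hom_one] at this
        exact this.symm
      rw [← h1, ← hom_smul, mul_one, mul_div_cancel₀ _ hw]
      rfl
    · intro k l hkl hk hl
      obtain ⟨R, A, B, hpR, hAB⟩ := hR k l hkl
      have h1 := congrArg (fun q : ℤ[X] => PadicInt.toZMod (q.eval₂ (Int.castRingHom ℤ_[p]) u)) hAB
      simp only [eval₂_add, eval₂_mul, map_add, map_mul, eval₂_C] at h1
      have h2 : PadicInt.toZMod ((f k).eval₂ (Int.castRingHom ℤ_[p]) u) = 0 := (toZ_iff _).2 hk
      have h3 : PadicInt.toZMod ((f l).eval₂ (Int.castRingHom ℤ_[p]) u) = 0 := (toZ_iff _).2 hl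
      rw [h2, h3, mul_zero, mul_zero, add_zero] at h1
      simp only [eq_intCast, map_intCast] at h1
      exact hpR ((ZMod.intCast_zmod_eq_zero_iff_dvd _ p).1 h1.symm)

theorem claim (f : K → ℤ[X]) (hplc : ∀ k, ¬ (p : ℤ) ∣ (f k).leadingCoeff)
    (hR : ∀ k l, k ≠ l → ∃ (R : ℤ) (A B : ℤ[X]), ¬ (p : ℤ) ∣ R ∧ A * f k + B * f l = C R)
    (hD : Even (∑ k, (f k).natDegree)) (d : ℤ) (hd : ¬ (p : ℤ) ∣ d) (P : Point f d ℚ_[p]) :
    ∃ e : ℤ, ∀ k, value P k ≠ 0 ∧ Even ((value P k).valuation - (f k).natDegree * e) := by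
  classical
  obtain ⟨s, G, hs, hG, hGG⟩ := scaled f hplc hR P.x P.w P.ne
  have hd0 : (d : ℚ_[p]) ≠ 0 := by
    have : d ≠ 0 := by
      rintro rfl
      exact hd (dvd_zero _)
    exact_mod_cast this
  have hvd := val_int hd
  -- unit values
  have hunit : ∀ k, ¬ ‖G k‖ < 1 → ((G k : ℤ_[p]) : ℚ_[p]) ≠ 0 ∧
      ((G k : ℤ_[p]) : ℚ_[p]).valuation = 0 := by
    intro k hk
    have h1 : ‖((G k : ℤ_[p]) : ℚ_[p])‖ = 1 :=
      le_antisymm (PadicInt.norm_le_one _) (not_lt.1 hk)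
    exact ⟨by intro h; rw [h, norm_zero] at h1; exact zero_ne_one h1, val_one h1⟩
  have hval : ∀ k, ((G k : ℤ_[p]) : ℚ_[p]) ≠ 0 → (homog (f k) P.x P.w).valuation =
      (f k).natDegree * s.valuation + ((G k : ℤ_[p]) : ℚ_[p]).valuation := by
    intro k hk
    rw [hG k, Padic.valuation_mul (pow_ne_zero _ hs) hk, Padic.valuation_pow]
  have hne : ∀ k, ((G k : ℤ_[p]) : ℚ_[p]) ≠ 0 → homog (f k) P.x P.w ≠ 0 := by
    intro k hk
    rw [hG k]
    exact mul_ne_zero (pow_ne_zero _ hs) hk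
  refine ⟨s.valuation, ?_⟩
  by_cases hz : ∃ i, ((G i : ℤ_[p]) : ℚ_[p]) = 0
  · obtain ⟨i, hi⟩ := hz
    have hi0 : homog (f i) P.x P.w = 0 := by rw [hG i, hi, mul_zero]
    have hi1 : ‖G i‖ < 1 := by
      have : ‖((G i : ℤ_[p]) : ℚ_[p])‖ < 1 := by rw [hi, norm_zero]; exact one_pos
      exact this
    have hoth : ∀ k, k ≠ i → ((G k : ℤ_[p]) : ℚ_[p]) ≠ 0 ∧
        ((G k : ℤ_[p]) : ℚ_[p]).valuation = 0 := fun k hk =>
      hunit k (hGG i k (Ne.symm hk) hi1)
    intro k
    by_cases hk : k = i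
    · subst hk
      have hv : value P k = d * ∏ l ∈ univ.erase k, homog (f l) P.x P.w := by
        unfold value
        rw [if_neg (by simpa using hi0)]
      have hpr : ∀ l ∈ univ.erase k, homog (f l) P.x P.w ≠ 0 := fun l hl =>
        hne l (hoth l (Finset.ne_of_mem_erase hl)).1
      have hpr0 := Finset.prod_ne_zero_iff.2 hpr
      refine ⟨by rw [hv]; exact mul_ne_zero hd0 hpr0, ?_⟩
      rw [hv, Padic.valuation_mul hd0 hpr0, hvd, val_prod _ _ hpr, zero_add]
      have h1 : ∑ l ∈ univ.erase k, (homog (f l) P.x P.w).valuation =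
          (∑ l ∈ univ.erase k, ((f l).natDegree : ℤ)) * s.valuation := by
        rw [Finset.sum_mul]
        refine Finset.sum_congr rfl fun l hl => ?_
        have h2 := hoth l (Finset.ne_of_mem_erase hl)
        rw [hval l h2.1, h2.2, add_zero]
      rw [h1]
      have h3 : ((f k).natDegree : ℤ) + ∑ l ∈ univ.erase k, ((f l).natDegree : ℤ) =
          ∑ l, ((f l).natDegree : ℤ) :=
        Finset.add_sum_erase univ (fun l => ((f l).natDegree : ℤ)) (mem_univ k)
      obtain ⟨r, hr⟩ := hD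
      have h4 : (∑ l, ((f l).natDegree : ℤ)) = r + r := by exact_mod_cast hr
      rw [h4] at h3
      refine ⟨(r - (f k).natDegree) * s.valuation, ?_⟩
      linear_combination s.valuation * h3
    · have h2 := hoth k hk
      have hv : value P k = homog (f k) P.x P.w := by
        unfold value
        rw [if_pos (hne k h2.1)]
      rw [hv]
      refine ⟨hne k h2.1, ?_⟩
      rw [hval k h2.1, h2.2]
      exact ⟨0, by ring⟩
  · push Not at hz
    have hv : ∀ k, value P k = homog (f k) P.x P.w := by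
      intro k
      unfold value
      rw [if_pos (hne k (hz k))]
    intro k
    rw [hv k]
    refine ⟨hne k (hz k), ?_⟩
    rw [hval k (hz k)]
    have e1 : ((f k).natDegree : ℤ) * s.valuation + ((G k : ℤ_[p]) : ℚ_[p]).valuation -
        (f k).natDegree * s.valuation = ((G k : ℤ_[p]) : ℚ_[p]).valuation := by ring
    rw [e1]
    by_cases hk : ‖G k‖ < 1
    swap
    · rw [(hunit k hk).2]
      exact ⟨0, rfl⟩
    have hoth : ∀ l, l ≠ k → ((G l : ℤ_[p]) : ℚ_[p]).valuation = 0 := fun l hl =>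
      (hunit l (hGG k l (Ne.symm hl) hk)).2
    have hprod0 : ∏ l, homog (f l) P.x P.w ≠ 0 :=
      Finset.prod_ne_zero_iff.2 fun l _ => hne l (hz l)
    have hy0 : P.y ≠ 0 := by
      intro h
      have := P.eq
      rw [h] at this
      apply hprod0
      rw [← this]
      ring
    have h1 := congrArg Padic.valuation P.eq
    rw [Padic.valuation_mul hd0 (pow_ne_zero _ hy0), hvd, Padic.valuation_pow,
      val_prod _ _ (fun l _ => hne l (hz l)), Finset.sum_congr rfl (fun l _ => hval l (hz l)),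
      Finset.sum_add_distrib, ← Finset.sum_mul,
      ← Finset.add_sum_erase univ (fun l => ((G l : ℤ_[p]) : ℚ_[p]).valuation) (mem_univ k),
      Finset.sum_eq_zero (s := univ.erase k) (fun l hl => hoth l (Finset.ne_of_mem_erase hl))] at h1
    obtain ⟨r, hr⟩ := hD
    have h4 : (∑ l, ((f l).natDegree : ℤ)) = r + r := by exact_mod_cast hr
    rw [h4] at h1
    refine ⟨P.y.valuation - r * s.valuation, ?_⟩
    push_cast at h1
    linear_combination -h1

end pad

end FinB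

open FinB in
theorem finb : FINB := by
  classical
  intro K _ _ f hirr hna hD d hd
  have hR : ∀ k l, ∃ R : ℤ, R ≠ 0 ∧ (k ≠ l → ∃ A B : ℤ[X], A * f k + B * f l = C R) := by
    intro k l
    by_cases hkl : k = l
    · exact ⟨1, one_ne_zero, fun h => absurd hkl h⟩
    · obtain ⟨R, A, B, hR, hAB⟩ := Pool.Agent.W975.TW.bez (f k) (f l) (hirr k) (hirr l)
        (hna k l hkl)
      exact ⟨R, hR, fun _ => ⟨A, B, hAB⟩⟩
  choose R hR0 hR using hR
  have hlc : ∀ k, (f k).leadingCoeff ≠ 0 := by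
    intro k h
    rw [leadingCoeff_eq_zero] at h
    have := (hirr k).ne_zero
    rw [h] at this
    simp at this
  refine ⟨d.natAbs + (∑ k, (f k).leadingCoeff.natAbs + ∑ k, ∑ l, (R k l).natAbs), ?_⟩
  intro p hp hz P
  have hbig : ∀ m : ℤ, m ≠ 0 → m.natAbs < p → ¬ (p : ℤ) ∣ m := by
    intro m hm hlt h
    have h5 := Nat.le_of_dvd (Int.natAbs_pos.2 hm) (Int.natCast_dvd.1 h)
    omega
  have hplc : ∀ k, ¬ (p : ℤ) ∣ (f k).leadingCoeff := by
    intro k
    have h3 : (f k).leadingCoeff.natAbs ≤ ∑ k, (f k).leadingCoeff.natAbs :=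
      Finset.single_le_sum (f := fun k => (f k).leadingCoeff.natAbs) (fun _ _ => Nat.zero_le _)
        (mem_univ k)
    exact hbig _ (hlc k) (by omega)
  have hpR : ∀ k l, ¬ (p : ℤ) ∣ R k l := by
    intro k l
    have h3 : (R k l).natAbs ≤ ∑ l, (R k l).natAbs :=
      Finset.single_le_sum (f := fun l => (R k l).natAbs) (fun _ _ => Nat.zero_le _)
        (mem_univ l)
    have h4 : ∑ l, (R k l).natAbs ≤ ∑ k, ∑ l, (R k l).natAbs :=
      Finset.single_le_sum (f := fun k => ∑ l, (R k l).natAbs) (fun _ _ => Nat.zero_le _)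
        (mem_univ k)
    exact hbig _ (hR0 k l) (by omega)
  have hpd : ¬ (p : ℤ) ∣ d := hbig d hd (by omega)
  obtain ⟨e, he⟩ := claim f hplc (fun k l hkl => by
    obtain ⟨A, B, hAB⟩ := hR k l hkl
    exact ⟨R k l, A, B, hpR k l, hAB⟩) hD d hpd P
  refine ⟨?_, ?_⟩
  · intro k hk
    obtain ⟨h1, h2⟩ := he k
    refine rep h1 ?_
    obtain ⟨a, ha⟩ := hk
    obtain ⟨b, hb⟩ := h2
    refine ⟨b + a * e, ?_⟩
    rw [ha] at hb
    push_cast at hb
    linear_combination hb
  · intro k l hk hl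
    obtain ⟨h1, h2⟩ := he k
    obtain ⟨h3, h4⟩ := he l
    refine rep (mul_ne_zero h1 h3) ?_
    rw [Padic.valuation_mul h1 h3]
    obtain ⟨a, ha⟩ := hk
    obtain ⟨a', ha'⟩ := hl
    obtain ⟨b, hb⟩ := h2
    obtain ⟨b', hb'⟩ := h4
    refine ⟨b + b' + (a + a' + 1) * e, ?_⟩
    rw [ha] at hb
    rw [ha'] at hb'
    push_cast at hb hb'
    linear_combination hb + hb'

end Pool.Agent.Y488.TM
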