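import Pool.Agent.Y488.TM.StmS
import Pool.Agent.W262.S3.Stm
import Pool.Agent.W623.SecE.Glb
import Pool.Agent.W32.S3.Sqg

/-!
# Project TM: the global square classes of a section, mixed degrees (task TM-ARG)

helper833.
-/

set_option autoImplicit false

namespace Pool.Agent.Y488.TM

open Finset Polynomial Pool.Agent.W620.SC Pool.Agent.W623.SecE

universe v w

theorem arg_sep {K : Type} [Fintype K] [DecidableEq K] (f : K → ℤ[X])
    (h1 : ∀ k, Irreducible ((f k).map (Int.castRingHom ℚ)))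
    (h3 : ∀ k l, k ≠ l →
      ¬ Associated ((f k).map (Int.castRingHom ℚ)) ((f l).map (Int.castRingHom ℚ))) :
    (∏ k, (f k).map (Int.castRingHom ℚ)).Separable := by
  refine separable_prod ?_ fun k => (h1 k).separable
  intro k l hkl
  by_cases h : (f k).map (Int.castRingHom ℚ) ∣ (f l).map (Int.castRingHom ℚ)
  · exact absurd ((h1 k).associated_of_dvd (h1 l) h) (h3 k l hkl)
  · exact (h1 k).coprime_iff_not_dvd.2 h

theorem arg_glob (h1 : SECGLOB.{0, v, w}) {K : Type} [Fintype K]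
    [DecidableEq K] (f : K → ℤ[X])
    (hirr : ∀ k, Irreducible ((f k).map (Int.castRingHom ℚ)))
    (hsep : (∏ k, (f k).map (Int.castRingHom ℚ)).Separable)
    (hev : Even (∑ k, (f k).natDegree)) (d : ℤ) (hd : d ≠ 0)
    (F : Type v) (Ω : Type w) [Field F] [Field Ω] [Algebra ℚ F]
    [Algebra F Ω] [Algebra ℚ Ω] [IsScalarTower ℚ F Ω] [IsAlgClosed Ω] [Algebra.IsAlgebraic F Ω]
    (U : Set (ValuationSubring F)) (hU : ∀ O ∈ U, ∀ c : ℚ, algebraMap ℚ F c ∈ O)
    (G : GSection ℚ F Ω U) (x y : F) (hxy : (d : F) * y ^ 2 = ∏ k, aeval x (f k))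
    (hx : Transcendental ℚ x) (r : ℤ[X])
    (hr : r.map (Int.castRingHom ℚ) ∣ ∏ k, (f k).map (Int.castRingHom ℚ))
    (hre : Even r.natDegree) :
    ∃ (s : ℤ) (β : unramified F Ω U), s ≠ 0 ∧ (∀ σ, G.toHom σ β = β) ∧
      algebraMap ℚ Ω (s : ℚ) * (β : Ω) ^ 2 = algebraMap F Ω (aeval x r) := by
  have hinj : Function.Injective (Int.castRingHom ℚ) := RingHom.injective_int _
  have hne : ∀ k, (f k).map (Int.castRingHom ℚ) ≠ 0 := fun k => (hirr k).ne_zero
  have haev : ∀ g : ℤ[X], aeval x (g.map (Int.castRingHom ℚ)) = aeval x g := by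
    intro g
    rw [← algebraMap_int_eq, aeval_map_algebraMap]
  obtain ⟨c, β, hc, hβ, hcβ⟩ := h1 ℚ F Ω (∏ k, (f k).map (Int.castRingHom ℚ)) hsep
      (by
        rw [natDegree_prod _ _ fun k _ => hne k]
        simpa only [natDegree_map_eq_of_injective hinj] using hev)
      (d : ℚ) (by exact_mod_cast hd) U hU G x y
      (by
        rw [map_intCast, hxy, map_prod]
        exact Finset.prod_congr rfl fun k _ => (haev (f k)).symm) hx
      (r.map (Int.castRingHom ℚ)) hr (by rw [natDegree_map_eq_of_injective hinj]; exact hre)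
  rw [haev] at hcβ
  have hden : (c.den : ℚ) ≠ 0 := by exact_mod_cast c.den_ne_zero
  refine ⟨c.num * c.den, algebraMap F (unramified F Ω U) (algebraMap ℚ F (1 / c.den)) * β,
    mul_ne_zero (Rat.num_ne_zero.2 hc) (by exact_mod_cast c.den_ne_zero), ?_, ?_⟩
  · intro σ
    rw [map_mul, AlgEquiv.commutes, hβ]
  · have e1 : ((algebraMap F (unramified F Ω U) (algebraMap ℚ F (1 / c.den)) * β :
        unramified F Ω U) : Ω) = algebraMap ℚ Ω (1 / c.den) * (β : Ω) := by
      rw [IsScalarTower.algebraMap_apply ℚ F Ω]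
      rfl
    rw [e1, ← hcβ, mul_pow, ← map_pow, ← mul_assoc, ← map_mul]
    congr 2
    have e : (c.num : ℚ) = c * c.den := (Rat.mul_den_eq_num c).symm
    push_cast
    rw [e]
    field_simp

theorem arg_of (h1 : SECGLOB.{0, v, w}) (h6 : Pool.Agent.W262.S3.SQG.{v, w}) : ARG.{v, w} := by
  classical
  intro K _ _ f hirr hna hev hO d hd F Ω _ _ _ _ _ _ _ _ U hU G x y hxy hx
  have hsep := arg_sep f hirr hna
  have hf0 : ∀ k, f k ≠ 0 := by
    intro k h
    apply (hirr k).ne_zero
    rw [h, Polynomial.map_zero]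
  obtain ⟨k0, hk0⟩ := hO
  have hk0' : Odd (f k0).natDegree := (Finset.mem_filter.1 hk0).2
  have hx0 : ∀ k, aeval x (f k) ≠ 0 := by
    intro k h
    have h2 : aeval x ((f k).map (Int.castRingHom ℚ)) = 0 := by
      rw [← algebraMap_int_eq, aeval_map_algebraMap]
      exact h
    exact (hirr k).ne_zero ((transcendental_iff.mp hx) _ h2)
  have key : ∀ k, ∃ (s : ℤ) (β : unramified F Ω U), s ≠ 0 ∧ (∀ σ, G.toHom σ β = β) ∧
      algebraMap ℚ Ω (s : ℚ) * (β : Ω) ^ 2 =
        algebraMap F Ω (aeval x (f k) * if k ∈ Od f then aeval x (f k0) else 1) := by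
    intro k
    by_cases hk : k ∈ Od f
    · rw [if_pos hk]
      by_cases hkk : k = k0
      · subst hkk
        refine ⟨1, algebraMap F (unramified F Ω U) (aeval x (f k)), one_ne_zero,
          fun σ => AlgEquiv.commutes _ _, ?_⟩
        have e1 : ((algebraMap F (unramified F Ω U) (aeval x (f k)) : unramified F Ω U) : Ω) =
          algebraMap F Ω (aeval x (f k)) := rfl
        rw [e1, Int.cast_one, map_one, one_mul, map_mul, sq]
      · have hk' : Odd (f k).natDegree := (Finset.mem_filter.1 hk).2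
        have h := arg_glob h1 f hirr hsep hev d hd F Ω U hU G x y hxy hx (f k * f k0)
          (by
            rw [Polynomial.map_mul, ← Finset.mul_prod_erase Finset.univ _ (Finset.mem_univ k)]
            exact mul_dvd_mul_left _ (Finset.dvd_prod_of_mem _ (Finset.mem_erase.mpr
              ⟨fun h => hkk h.symm, Finset.mem_univ k0⟩)))
          (by
            rw [natDegree_mul (hf0 k) (hf0 k0)]
            exact hk'.add_odd hk0')
        rwa [map_mul (aeval x)] at h
    · rw [if_neg hk, mul_one]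
      have hk' : Even (f k).natDegree := by
        rw [← Nat.not_odd_iff_even]
        exact fun h => hk (Finset.mem_filter.2 ⟨Finset.mem_univ _, h⟩)
      exact arg_glob h1 f hirr hsep hev d hd F Ω U hU G x y hxy hx (f k)
        (Finset.dvd_prod_of_mem (fun k => (f k).map (Int.castRingHom ℚ)) (Finset.mem_univ k)) hk'
  choose s β hs hβ hsβ using key
  have hR : Roots f G x s := by
    intro T hT
    obtain ⟨m, hm⟩ := hT
    set a : F := aeval x (f k0) with ha
    have ha0 : a ≠ 0 := hx0 k0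
    refine ⟨algebraMap F (unramified F Ω U) (a⁻¹ ^ m) * ∏ k ∈ T, β k, ?_, ?_⟩
    · intro σ
      rw [map_mul, AlgEquiv.commutes, map_prod]
      congr 1
      exact Finset.prod_congr rfl fun k _ => hβ k σ
    · have e0 : ((∏ k ∈ T, β k : unramified F Ω U) : Ω) = ∏ k ∈ T, (β k : Ω) := by
        have := map_prod (unramified F Ω U).val β T
        exact this
      have e1 : ((algebraMap F (unramified F Ω U) (a⁻¹ ^ m) * ∏ k ∈ T, β k :
          unramified F Ω U) : Ω) = algebraMap F Ω (a⁻¹ ^ m) * ∏ k ∈ T, (β k : Ω) := by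
        rw [← e0]
        rfl
      have e2 : algebraMap ℚ Ω (∏ k ∈ T, (s k : ℚ)) * ∏ k ∈ T, (β k : Ω) ^ 2 =
          algebraMap F Ω ((∏ k ∈ T, aeval x (f k)) * a ^ (m + m)) := by
        rw [map_prod, ← Finset.prod_mul_distrib, Finset.prod_congr rfl fun k _ => hsβ k,
          ← map_prod, Finset.prod_mul_distrib, Finset.prod_ite_mem, Finset.prod_const, hm]
      have e3 : a ^ (m + m) * (a⁻¹ ^ m) ^ 2 = 1 := by
        rw [inv_pow, pow_add]
        field_simp
      calc _ = algebraMap ℚ Ω (∏ k ∈ T, (s k : ℚ)) * (∏ k ∈ T, (β k : Ω) ^ 2) *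
            algebraMap F Ω (a⁻¹ ^ m) ^ 2 := by
            rw [e1, mul_pow, ← Finset.prod_pow]
            ring
        _ = algebraMap F Ω ((∏ k ∈ T, aeval x (f k)) * (a ^ (m + m) * (a⁻¹ ^ m) ^ 2)) := by
            rw [e2, ← map_pow (algebraMap F Ω), ← map_mul, mul_assoc]
        _ = _ := by rw [e3, mul_one]
  refine ⟨s, hs, ?_, hR⟩
  obtain ⟨γ, hγ, hγ2⟩ := hR univ (by
    rw [Finset.univ_inter]
    exact (Finset.even_sum_iff_even_card_odd _).1 hev)
  have hP0 : algebraMap F Ω (∏ k, aeval x (f k)) ≠ 0 := by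
    rw [Ne, map_eq_zero]
    exact Finset.prod_ne_zero_iff.2 fun k _ => hx0 k
  have hγΩ : (γ : Ω) ≠ 0 := by
    intro h
    apply hP0
    rw [← hγ2, h]
    ring
  rw [← hxy] at hγ2
  have hsqq := h6 F Ω U G (algebraMap F (unramified F Ω U) ((d : F) * y) * γ⁻¹)
    ((d * ∏ k, s k : ℤ) : ℚ)
    (by
      intro σ
      rw [map_mul, AlgEquiv.commutes, map_inv₀, hγ])
    (by
      have e1 : ((algebraMap F (unramified F Ω U) ((d : F) * y) * γ⁻¹ :
          unramified F Ω U) : Ω) =
          algebraMap F Ω ((d : F) * y) * (γ : Ω)⁻¹ := rfl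
      rw [e1, mul_pow, inv_pow, ← div_eq_mul_inv, div_eq_iff (pow_ne_zero 2 hγΩ)]
      have e2 : algebraMap ℚ Ω ((d * ∏ k, s k : ℤ) : ℚ) =
          (d : Ω) * algebraMap ℚ Ω (∏ k, (s k : ℚ)) := by
        rw [Int.cast_mul, map_mul, map_intCast, Int.cast_prod]
      rw [e2, mul_assoc, hγ2, map_mul, map_mul, map_intCast, map_pow]
      ring)
  rwa [Rat.isSquare_intCast_iff] at hsqq

theorem arg : ARG.{v, w} := arg_of secglob Pool.Agent.W32.S3.sqg

end Pool.Agent.Y488.TM
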