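import Pool.Agent.Y488.TM.StmS
import Pool.Agent.W405.S3.Arith
import Pool.Agent.W762.S3.Sepz
import Pool.Agent.W240.S3.ZLoc
import Pool.Agent.W623.SecG.Loc2

/-!
# TM-ARL: the local condition for the square classes of a section, mixed degrees (helper363)
-/

set_option autoImplicit false

namespace Pool.Agent.Y488.TM

open Polynomial Pool.Agent.W620.SC Pool.Agent.W405.S3

universe v w

/-- leading coefficients and separability modulo large primes -/
theorem arl_sep {K : Type} [Fintype K] [DecidableEq K] (f : K → ℤ[X])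
    (h1 : ∀ k, Irreducible ((f k).map (Int.castRingHom ℚ)))
    (h3 : ∀ k l, k ≠ l →
      ¬ Associated ((f k).map (Int.castRingHom ℚ)) ((f l).map (Int.castRingHom ℚ))) :
    ∃ z0 : ℕ, ∀ p : ℕ, p.Prime → z0 < p →
    (∀ k, ¬ (p : ℤ) ∣ (f k).leadingCoeff) ∧
    (∏ k, (f k).map (Int.castRingHom (ZMod p))).Separable := by
  have hsep : (∏ k, (f k).map (Int.castRingHom ℚ)).Separable := by
    refine separable_prod ?_ fun k => (h1 k).separable
    intro k l hkl
    by_cases h : (f k).map (Int.castRingHom ℚ) ∣ (f l).map (Int.castRingHom ℚ)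
    · exact absurd ((h1 k).associated_of_dvd (h1 l) h) (h3 k l hkl)
    · exact (h1 k).coprime_iff_not_dvd.2 h
  have hsep' := hsep
  rw [← Polynomial.map_prod] at hsep'
  obtain ⟨A, B, N, hN, hAB⟩ := Pool.Agent.W762.S3.exists_bezout _ hsep'
  refine ⟨N.natAbs + ∑ k, (f k).leadingCoeff.natAbs, fun p hp hpz => ?_⟩
  have hdvd : ∀ a : ℤ, a ≠ 0 → (p : ℤ) ∣ a → p ≤ a.natAbs := by
    intro a ha h
    exact Nat.le_of_dvd (Int.natAbs_pos.2 ha) (Int.natCast_dvd.1 h)
  constructor
  · intro k hk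
    have h4 : (f k).leadingCoeff ≠ 0 := by
      intro h
      rw [leadingCoeff_eq_zero] at h
      have := (h1 k).ne_zero
      rw [h, Polynomial.map_zero] at this
      exact this rfl
    have h5 := hdvd _ h4 hk
    have h6 : (f k).leadingCoeff.natAbs ≤ ∑ k, (f k).leadingCoeff.natAbs :=
      Finset.single_le_sum (f := fun k => (f k).leadingCoeff.natAbs) (fun _ _ => Nat.zero_le _)
        (Finset.mem_univ k)
    omega
  · have : Fact p.Prime := ⟨hp⟩
    have hNp : ((Int.castRingHom (ZMod p)) N) ≠ 0 := by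
      intro h
      have h5 := hdvd _ hN ((ZMod.intCast_zmod_eq_zero_iff_dvd N p).1 h)
      omega
    rw [← Polynomial.map_prod]
    have h6 := congrArg (Polynomial.map (Int.castRingHom (ZMod p))) hAB
    simp only [Polynomial.map_add, Polynomial.map_mul, Polynomial.map_C] at h6
    refine ⟨C ((Int.castRingHom (ZMod p)) N)⁻¹ * A.map (Int.castRingHom (ZMod p)),
      C ((Int.castRingHom (ZMod p)) N)⁻¹ * B.map (Int.castRingHom (ZMod p)), ?_⟩
    rw [derivative_map, mul_assoc, mul_assoc, ← mul_add, h6, ← C_mul, inv_mul_cancel₀ hNp, C_1]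

/-- a square modulo `p` -/
theorem arl_jac {p : ℕ} (hp : p.Prime) (a n : ℤ) (ha : ¬ (p : ℤ) ∣ a)
    (h : (p : ℤ) ∣ a - n ^ 2) : jacobiSym a p = 1 := by
  have h1 : jacobiSym 1 p = 1 := jacobiSym.one_left p
  rw [← h1]
  refine sign_eq hp a 1 n ha ?_ (by rwa [mul_one])
  intro h2
  exact hp.one_lt.ne' (Nat.dvd_one.1 (by exact_mod_cast h2))

section loc

variable {A : Type} [CommRing A] [IsDomain A] [IsDiscreteValuationRing A] [Algebra A ℚ]
  [IsFractionRing A ℚ] {p : ℕ}

/-- units are quotients of integers prime to `p` -/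
theorem arl_unit (hm : ∀ n : ℤ, (n : A) ∈ IsLocalRing.maximalIdeal A ↔ (p : ℤ) ∣ n)
    (hp : p.Prime) {u : A} (hu : IsUnit u) :
    ∃ n m : ℤ, ¬ (p : ℤ) ∣ n ∧ ¬ (p : ℤ) ∣ m ∧ u * (m : A) = (n : A) := by
  set q := algebraMap A ℚ u with hq
  have hinj := IsFractionRing.injective A ℚ
  have h1 : u * (((q.den : ℤ)) : A) = ((q.num : ℤ) : A) := by
    apply hinj
    rw [map_mul, map_intCast, map_intCast, ← hq]
    exact_mod_cast Rat.mul_den_eq_num q
  have hnot : ¬ ((p : ℤ) ∣ q.num ∧ (p : ℤ) ∣ (q.den : ℤ)) := by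
    rintro ⟨ha, hb⟩
    have h2 : p ∣ Nat.gcd q.num.natAbs q.den :=
      Nat.dvd_gcd (Int.natCast_dvd.1 ha) (Int.natCast_dvd_natCast.1 hb)
    rw [Nat.Coprime.gcd_eq_one q.reduced] at h2
    exact hp.one_lt.ne' (Nat.dvd_one.1 h2)
  have hmem : ((q.num : ℤ) : A) ∈ IsLocalRing.maximalIdeal A ↔
      ((q.den : ℤ) : A) ∈ IsLocalRing.maximalIdeal A := by
    rw [← h1]
    constructor
    · intro h
      rcases (IsLocalRing.maximalIdeal.isMaximal A).isPrime.mem_or_mem h with h | h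
      · exact absurd hu ((IsLocalRing.mem_maximalIdeal u).1 h)
      · exact h
    · exact fun h => Ideal.mul_mem_left _ _ h
  rw [hm, hm] at hmem
  exact ⟨q.num, q.den, by tauto, by tauto, h1⟩

omit [IsDomain A] [IsDiscreteValuationRing A] [IsFractionRing A ℚ] in
theorem arl_even (hp : p.Prime) {u : A} {n m : ℤ} (hmp : ¬ (p : ℤ) ∣ m)
    (h : u * (m : A) = (n : A)) {c : ℚ} {j : ℤ}
    (hc : c = algebraMap A ℚ u * algebraMap A ℚ (p : A) ^ (2 * j)) :
    ∃ q : ℚ, q ≠ 0 ∧ c = ((n * m : ℤ) : ℚ) * q ^ 2 := by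
  have hp0 : (p : ℚ) ≠ 0 := by exact_mod_cast hp.ne_zero
  have hm0 : (m : ℚ) ≠ 0 := by
    intro h0
    apply hmp
    have : m = 0 := by exact_mod_cast h0
    rw [this]
    exact dvd_zero _
  have h1 : algebraMap A ℚ u * (m : ℚ) = n := by
    have := congrArg (algebraMap A ℚ) h
    simpa using this
  have h2 : algebraMap A ℚ u = n / m := by
    rw [eq_div_iff hm0, h1]
  refine ⟨(p : ℚ) ^ j / m, div_ne_zero (zpow_ne_zero _ hp0) hm0, ?_⟩
  rw [hc, h2, map_natCast, two_mul, zpow_add₀ hp0]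
  push_cast
  field_simp

omit [IsDomain A] [IsDiscreteValuationRing A] [IsFractionRing A ℚ] in
theorem arl_odd (hp : p.Prime) {u : A} {n m : ℤ} (hmp : ¬ (p : ℤ) ∣ m)
    (h : u * (m : A) = (n : A)) {c : ℚ} {j : ℤ}
    (hc : c = algebraMap A ℚ u * algebraMap A ℚ (p : A) ^ (2 * j + 1)) :
    ∃ q : ℚ, q ≠ 0 ∧ c = p * ((n * m : ℤ) : ℚ) * q ^ 2 := by
  have hp0 : (p : ℚ) ≠ 0 := by exact_mod_cast hp.ne_zero
  have h1 : algebraMap A ℚ (p : A) = p := map_natCast _ _
  have hc' : c / p = algebraMap A ℚ u * algebraMap A ℚ (p : A) ^ (2 * j) := by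
    rw [hc, h1, zpow_add₀ hp0, zpow_one]
    field_simp
  obtain ⟨q, hq, e⟩ := arl_even hp hmp h hc'
  refine ⟨q, hq, ?_⟩
  rw [div_eq_iff hp0] at e
  rw [e]
  ring

end loc

/-- the local part for one prime -/
theorem arl_local (h3 : Pool.Agent.W623.SecG.SECLOC2.{0, v, w}) (h4 : Pool.Agent.W262.S3.ZLOC)
    {K : Type} [Fintype K] [DecidableEq K]
    (f : K → ℤ[X]) (hne : ∀ k, f k ≠ 0) (hev : Even (∑ k, (f k).natDegree))
    (h4d : 4 ≤ ∑ k, (f k).natDegree)
    (p : ℕ) (hp : p.Prime) (hp2 : 2 < p) (hlc : ∀ k, ¬ (p : ℤ) ∣ (f k).leadingCoeff)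
    (hsep : (∏ k, (f k).map (Int.castRingHom (ZMod p))).Separable) (d : ℤ) (hd : Squarefree d)
    (F : Type v) (Ω : Type w) [Field F] [Field Ω] [Algebra ℚ F]
    [Algebra F Ω] [Algebra ℚ Ω] [IsScalarTower ℚ F Ω] [IsAlgClosed Ω] [Algebra.IsAlgebraic F Ω]
    (U : Set (ValuationSubring F)) (hU : ∀ O ∈ U, ∀ c : ℚ, algebraMap ℚ F c ∈ O)
    (G : GSection ℚ F Ω U) (x y : F) (hxy : (d : F) * y ^ 2 = ∏ k, aeval x (f k))
    (hx : Transcendental ℚ x) (s : K → ℤ) (hs : ∀ k, s k ≠ 0) (hR : Roots f G x s) :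
    CL f p s := by
  classical
  obtain ⟨A, _, _, _, _, hfin, hfrac, hpi, hm, hres⟩ := h4 p hp
  have hpz := Nat.prime_iff_prime_int.mp hp
  have hMp : (IsLocalRing.maximalIdeal A).IsPrime := (IsLocalRing.maximalIdeal.isMaximal A).isPrime
  -- the number `d`
  obtain ⟨t, m, ht, hd'⟩ : ∃ (t : A) (m : ℤ), IsUnit t ∧
      (d : ℚ) = algebraMap A ℚ t * algebraMap A ℚ (p : A) ^ m := by
    by_cases hpd : (p : ℤ) ∣ d
    · obtain ⟨n, rfl⟩ := hpd
      have hn : ¬ (p : ℤ) ∣ n := by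
        rintro ⟨n', rfl⟩
        exact hpz.not_isUnit (hd (p : ℤ) ⟨n', by ring⟩)
      refine ⟨(n : A), 1, unit_of hm hn, ?_⟩
      rw [map_intCast, map_natCast, zpow_one]
      push_cast
      ring
    · refine ⟨(d : A), 0, unit_of hm hpd, ?_⟩
      rw [map_intCast, zpow_zero, mul_one]
  have haev : ∀ k, aeval x (((f k).map (Int.castRingHom A)).map (algebraMap A ℚ)) =
      aeval x (f k) := by
    intro k
    rw [map_AQ, ← algebraMap_int_eq, aeval_map_algebraMap]
  have h2u : IsUnit (2 : A) := by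
    have h5 : ¬ (p : ℤ) ∣ 2 := by
      intro h
      have := Int.le_of_dvd (by norm_num) h
      omega
    have := unit_of hm h5
    simpa using this
  have hinj : Function.Injective (Int.castRingHom A) := charZ (A := A)
  -- the products over `T`
  have hneA : ∀ k, (f k).map (Int.castRingHom A) ≠ 0 := fun k =>
    (Polynomial.map_ne_zero_iff hinj).2 (hne k)
  have hlcT : ∀ T : Finset K, IsUnit (∏ k ∈ T, (f k).map (Int.castRingHom A)).leadingCoeff := by
    intro T
    rw [leadingCoeff_prod]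
    refine Finset.prod_induction _ IsUnit (fun _ _ => IsUnit.mul) isUnit_one fun k _ => ?_
    rw [leadingCoeff_map_of_injective hinj]
    exact unit_of hm (hlc k)
  have hdegT : ∀ T : Finset K, (∏ k ∈ T, (f k).map (Int.castRingHom A)).natDegree =
      ∑ k ∈ T, (f k).natDegree := by
    intro T
    rw [natDegree_prod _ _ fun k _ => hneA k]
    exact Finset.sum_congr rfl fun k _ => natDegree_map_eq_of_injective hinj _
  have hevT : ∀ T : Finset K, Even (T ∩ Od f).card → Even (∑ k ∈ T, (f k).natDegree) := by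
    intro T hT
    rw [Finset.even_sum_iff_even_card_odd]
    have e : T ∩ Od f = T.filter (fun k => Odd (f k).natDegree) := by
      ext k
      simp [Od]
    rwa [e] at hT
  have haevT : ∀ T : Finset K, aeval x ((∏ k ∈ T, (f k).map (Int.castRingHom A)).map
      (algebraMap A ℚ)) = ∏ k ∈ T, aeval x (f k) := by
    intro T
    rw [Polynomial.map_prod, map_prod]
    exact Finset.prod_congr rfl fun k _ => haev k
  obtain ⟨b, hb, hloc⟩ := h3 A ℚ F Ω h2u (∏ k, (f k).map (Int.castRingHom A)) (hlcT Finset.univ)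
    (by rw [hdegT]; exact hev) (by rw [hdegT]; exact h4d)
    (sep_residue hm f hsep) (p : A) hpi (d : ℚ) t m ht hd' U hU G x y
    (by rw [map_intCast, hxy, haevT]) hx
  have hlocT : ∀ T : Finset K, Even (T ∩ Od f).card → _ := fun T hT =>
    hloc (∏ k ∈ T, (f k).map (Int.castRingHom A)) (hlcT T) (by rw [hdegT]; exact hevT T hT)
      (Finset.prod_dvd_prod_of_subset _ _ _ (Finset.subset_univ T)) (∏ k ∈ T, (s k : ℚ))
  have hc0 : ∀ T : Finset K, ∏ k ∈ T, (s k : ℚ) ≠ 0 := fun T =>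
    Finset.prod_ne_zero_iff.2 fun k _ => by exact_mod_cast hs k
  rcases Int.even_or_odd m with hme | hmo
  · left
    intro T hT
    obtain ⟨β, hβ, hβe⟩ := hR T hT
    obtain ⟨u, j, hu, hc⟩ := (hlocT T hT β (hc0 T) hβ (by rw [haevT]; exact hβe)).1 hme
    obtain ⟨n, m', hn, hm', e⟩ := arl_unit hm hp hu
    obtain ⟨q, hq, hq'⟩ := arl_even hp hm' e hc
    refine ⟨n * m', q, ?_, hq, hq'⟩
    intro h
    exact (hpz.dvd_or_dvd h).elim hn hm'
  · right
    have hb := hb hmo
    obtain ⟨i, hi⟩ : ∃ i, ((f i).map (Int.castRingHom A)).eval b ∈ IsLocalRing.maximalIdeal A := by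
      rw [eval_prod] at hb
      obtain ⟨i, -, hi⟩ := (hMp.prod_mem_iff).1 hb
      exact ⟨i, hi⟩
    obtain ⟨n, hn⟩ := hres b
    have hev2 : ∀ k, ((f k).map (Int.castRingHom A)).eval b - (((f k).eval n : ℤ) : A) ∈
        IsLocalRing.maximalIdeal A := by
      intro k
      rw [← eval_cast]
      exact Ideal.mem_of_dvd _ (Polynomial.sub_dvd_eval_sub _ _ _) hn
    have hfi : (p : ℤ) ∣ (f i).eval n := by
      rw [← hm]
      have h6 := Ideal.sub_mem _ hi (hev2 i)
      simpa using h6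
    refine ⟨i, n, hfi, fun T hT => ⟨fun hiT => ?_, fun hiT => ?_⟩⟩
    · obtain ⟨β, hβ, hβe⟩ := hR T hT
      have hmem : (∏ k ∈ T, (f k).map (Int.castRingHom A)).eval b ∈
          IsLocalRing.maximalIdeal A := by
        rw [eval_prod]
        exact hMp.prod_mem_iff.2 ⟨i, hiT, hi⟩
      obtain ⟨u, j, hu, hc⟩ := (hlocT T hT β (hc0 T) hβ (by rw [haevT]; exact hβe)).2.2 hmo hmem
      obtain ⟨n', m', hn', hm', e⟩ := arl_unit hm hp hu
      obtain ⟨q, hq, hq'⟩ := arl_odd hp hm' e hc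
      refine ⟨n' * m', q, ?_, hq, hq'⟩
      intro h
      exact (hpz.dvd_or_dvd h).elim hn' hm'
    · obtain ⟨β, hβ, hβe⟩ := hR T hT
      have hnd : ∀ k ∈ T, ¬ (p : ℤ) ∣ (f k).eval n := fun k hk =>
        not_dvd_of_sep hp f hsep (fun h : k = i => hiT (h ▸ hk)) n hfi
      have hmem : (∏ k ∈ T, (f k).map (Int.castRingHom A)).eval b ∉
          IsLocalRing.maximalIdeal A := by
        rw [eval_prod]
        intro h
        obtain ⟨k, hk, hk'⟩ := hMp.prod_mem_iff.1 h
        apply hnd k hk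
        rw [← hm]
        have h6 := Ideal.sub_mem _ hk' (hev2 k)
        simpa using h6
      obtain ⟨u, e, j, hu, hc, hue⟩ :=
        (hlocT T hT β (hc0 T) hβ (by rw [haevT]; exact hβe)).2.1 hmo hmem
      obtain ⟨n', m', hn', hm', he⟩ := arl_unit hm hp hu
      obtain ⟨q, hq, hq'⟩ := arl_even hp hm' he hc
      have hu' : ¬ (p : ℤ) ∣ n' * m' := fun h => (hpz.dvd_or_dvd h).elim hn' hm'
      refine ⟨n' * m', q, hu', hq, hq', ?_⟩
      obtain ⟨e', he'⟩ := hres e
      refine arl_jac hp _ (m' * e') ?_ ?_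
      · intro h
        rcases hpz.dvd_or_dvd h with h | h
        · exact hu' h
        · obtain ⟨k, hk, hk'⟩ := (hpz.dvd_finsetProd_iff _).1 h
          exact hnd k hk hk'
      · rw [← hm]
        have hprod : (∏ k ∈ T, (f k).map (Int.castRingHom A)).eval b -
            ((∏ k ∈ T, (f k).eval n : ℤ) : A) ∈ IsLocalRing.maximalIdeal A := by
          rw [← Ideal.Quotient.eq, eval_prod]
          push_cast
          rw [map_prod, map_prod]
          exact Finset.prod_congr rfl fun k _ => Ideal.Quotient.eq.2 (by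
            have := hev2 k
            exact_mod_cast this)
        have h6 : ((n' * m' * ∏ k ∈ T, (f k).eval n - (m' * e') ^ 2 : ℤ) : A) =
            (m' : A) ^ 2 * (u * (∏ k ∈ T, (f k).map (Int.castRingHom A)).eval b - e ^ 2) -
            (m' : A) ^ 2 * u * ((∏ k ∈ T, (f k).map (Int.castRingHom A)).eval b -
              ((∏ k ∈ T, (f k).eval n : ℤ) : A)) + (m' : A) ^ 2 * (e + e') * (e - e') := by
          push_cast
          rw [← he]
          ring
        rw [h6]
        exact Ideal.add_mem _ (Ideal.sub_mem _ (Ideal.mul_mem_left _ _ hue)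
          (Ideal.mul_mem_left _ _ hprod)) (Ideal.mul_mem_left _ _ he')

/-- TM-ARL -/
theorem arl : ARL.{v, w} := by
  intro K _ _ f h1 h2 hev h4
  obtain ⟨z0, hz0⟩ := arl_sep f h1 h2
  refine ⟨max 2 z0, ?_⟩
  intro d hd F Ω _ _ _ _ _ _ _ _ U hU G x y hxy hx s hs hR p hp hpz
  have hp1 : 2 < p := lt_of_le_of_lt (le_max_left _ _) hpz
  have hp2 : z0 < p := lt_of_le_of_lt (le_max_right _ _) hpz
  obtain ⟨hlc, hsepp⟩ := hz0 p hp hp2
  refine arl_local Pool.Agent.W623.SecG.secloc2 Pool.Agent.W240.S3.zloc f ?_ hev ?_ p hp hp1 hlc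
    hsepp d hd F Ω U hU G x y hxy hx s hs hR
  · intro k h
    have := (h1 k).ne_zero
    rw [h, Polynomial.map_zero] at this
    exact this rfl
  · refine h4.trans ?_
    rw [Finset.card_eq_sum_ones]
    refine (Finset.sum_le_sum fun k hk => ?_).trans
      (Finset.sum_le_univ_sum_of_nonneg (s := Od f) (f := fun k => (f k).natDegree)
        fun _ => Nat.zero_le _)
    have : Odd (f k).natDegree := (Finset.mem_filter.1 hk).2
    exact this.pos

end Pool.Agent.Y488.TM
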