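import Pool.Agent.Y488.TM.StmS
import Pool.Agent.Y488.TM.RedL
import Pool.Agent.Y488.TM.Loc

/-!
# Project TM: REDC, reduction of the twists with square classes of nonconstant type to tuples
(proof by helper484, adapted from `Pool.Agent.Y488.TM.redl` of helper983)
-/

set_option autoImplicit false

namespace Pool.Agent.Y488.TM

open Finset Polynomial Pool.Agent.W262.RK Pool.Agent.W262.TW Pool.Agent.W311.TW

/-- the valuation of a product of squarefree numbers -/
theorem val_prod {p : ℕ} (hp : p.Prime) {K : Type} [DecidableEq K] (s : K → ℤ)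
    (hs : ∀ k, Squarefree (s k)) (T : Finset K) :
    padicValRat p (∏ k ∈ T, (s k : ℚ)) = ((T.filter (fun k => (p : ℤ) ∣ s k)).card : ℤ) := by
  have : Fact p.Prime := ⟨hp⟩
  have h1 : ∀ k, padicValRat p (s k : ℚ) = if (p : ℤ) ∣ s k then 1 else 0 := by
    intro k
    have h0 : (s k).natAbs ≠ 0 := Int.natAbs_ne_zero.mpr (hs k).ne_zero
    have h2 : (s k).natAbs.factorization p ≤ 1 :=
      (Int.squarefree_natAbs.mpr (hs k)).natFactorization_le_one p
    rw [padicValRat.of_int, padicValInt, ← Nat.factorization_def _ hp]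
    split_ifs with h
    · have h3 : (s k).natAbs.factorization p ≠ 0 :=
        (hp.factorization_pos_of_dvd h0 (Int.natCast_dvd.mp h)).ne'
      have h4 : (s k).natAbs.factorization p = 1 := by omega
      rw [h4]
      rfl
    · have h4 : (s k).natAbs.factorization p = 0 :=
        Nat.factorization_eq_zero_of_not_dvd fun h5 => h (Int.natCast_dvd.mpr h5)
      rw [h4]
      rfl
  induction T using Finset.induction_on with
  | empty => simp
  | insert a T ha ih =>
    have ha0 : (s a : ℚ) ≠ 0 := Int.cast_ne_zero.mpr (hs a).ne_zero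
    have hT0 : ∏ k ∈ T, (s k : ℚ) ≠ 0 :=
      Finset.prod_ne_zero_iff.mpr fun k _ => Int.cast_ne_zero.mpr (hs k).ne_zero
    rw [Finset.prod_insert ha, padicValRat.mul ha0 hT0, ih, h1 a, Finset.filter_insert]
    split_ifs with h
    · have h2 : a ∉ T.filter (fun k => (p : ℤ) ∣ s k) := fun h3 => ha (Finset.mem_filter.mp h3).1
      rw [Finset.card_insert_of_notMem h2]
      push_cast
      ring
    · rw [zero_add]

theorem val_unit {p : ℕ} (hp : p.Prime) {u : ℤ} (hu : ¬ (p : ℤ) ∣ u) :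
    padicValRat p (u : ℚ) = 0 := by
  have : Fact p.Prime := ⟨hp⟩
  rw [padicValRat.of_int, padicValInt, padicValNat.eq_zero_of_not_dvd]
  · rfl
  · intro h
    exact hu (Int.natCast_dvd.mpr h)

theorem ne_zero_of_not_dvd {p : ℕ} {u : ℤ} (hu : ¬ (p : ℤ) ∣ u) : (u : ℚ) ≠ 0 := by
  intro h
  apply hu
  rw [Int.cast_eq_zero.mp h]
  exact dvd_zero _

/-- unramified products -/
theorem par_even {p : ℕ} (hp : p.Prime) {K : Type} [DecidableEq K] {s : K → ℤ}
    (hs : ∀ k, Squarefree (s k)) {T : Finset K} {u : ℤ} {q : ℚ} (hu : ¬ (p : ℤ) ∣ u) (hq : q ≠ 0)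
    (h : ∏ k ∈ T, (s k : ℚ) = u * q ^ 2) :
    Even (T.filter (fun k => (p : ℤ) ∣ s k)).card := by
  have : Fact p.Prime := ⟨hp⟩
  have h1 := val_prod hp s hs T
  rw [h, padicValRat.mul (ne_zero_of_not_dvd hu) (pow_ne_zero 2 hq), val_unit hp hu, zero_add,
    padicValRat.pow] at h1
  have h2 : Even ((T.filter (fun k => (p : ℤ) ∣ s k)).card : ℤ) := by
    rw [← h1]
    exact ⟨padicValRat p q, by push_cast; ring⟩
  exact (Int.even_coe_nat _).mp h2

/-- ramified products -/
theorem par_odd {p : ℕ} (hp : p.Prime) {K : Type} [DecidableEq K] {s : K → ℤ}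
    (hs : ∀ k, Squarefree (s k)) {T : Finset K} {u : ℤ} {q : ℚ} (hu : ¬ (p : ℤ) ∣ u) (hq : q ≠ 0)
    (h : ∏ k ∈ T, (s k : ℚ) = p * u * q ^ 2) :
    Odd (T.filter (fun k => (p : ℤ) ∣ s k)).card := by
  have : Fact p.Prime := ⟨hp⟩
  have h1 := val_prod hp s hs T
  have hp0 : (p : ℚ) ≠ 0 := Nat.cast_ne_zero.mpr hp.ne_zero
  rw [h, padicValRat.mul (mul_ne_zero hp0 (ne_zero_of_not_dvd hu)) (pow_ne_zero 2 hq),
    padicValRat.mul hp0 (ne_zero_of_not_dvd hu), val_unit hp hu, add_zero,
    padicValRat.pow, padicValRat.self hp.one_lt] at h1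
  have h2 : Odd ((T.filter (fun k => (p : ℤ) ∣ s k)).card : ℤ) := by
    rw [← h1]
    exact ⟨padicValRat p q, by push_cast; ring⟩
  exact (Int.odd_coe_nat _).mp h2

/-- the sign of an unramified product -/
theorem jac_sq {p : ℕ} (hp : p.Prime) {A u : ℤ} {q : ℚ} (hA : ¬ (p : ℤ) ∣ A)
    (hu : ¬ (p : ℤ) ∣ u) (h : (A : ℚ) = u * q ^ 2) : jacobiSym A p = jacobiSym u p := by
  have hpZ : _root_.Prime (p : ℤ) := Nat.prime_iff_prime_int.mp hp
  have hd0 : (q.den : ℚ) ≠ 0 := Nat.cast_ne_zero.mpr q.den_ne_zero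
  have h1 : A * (q.den : ℤ) ^ 2 = u * q.num ^ 2 := by
    have h2 : (A : ℚ) * (q.den : ℚ) ^ 2 = u * (q.num : ℚ) ^ 2 := by
      have h3 : (q.num : ℚ) = q * q.den := (Rat.mul_den_eq_num q).symm
      rw [h3, h]
      ring
    exact_mod_cast h2
  have hcop : ∀ _ : (p : ℤ) ∣ (q.den : ℤ), ∀ _ : (p : ℤ) ∣ q.num, False := by
    intro h2 h3
    have h4 : p ∣ q.den := Int.natCast_dvd_natCast.mp h2
    have h5 : p ∣ q.num.natAbs := Int.natCast_dvd.mp h3
    exact Nat.not_coprime_of_dvd_of_dvd hp.one_lt h5 h4 q.reduced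
  have hden : ¬ (p : ℤ) ∣ (q.den : ℤ) := by
    intro h2
    refine hcop h2 ?_
    have h3 : (p : ℤ) ∣ u * q.num ^ 2 := by
      rw [← h1]
      exact Dvd.dvd.mul_left (dvd_pow h2 two_ne_zero) _
    exact hpZ.dvd_of_dvd_pow ((hpZ.dvd_or_dvd h3).resolve_left hu)
  have hnum : ¬ (p : ℤ) ∣ q.num := by
    intro h2
    apply hden
    have h3 : (p : ℤ) ∣ A * (q.den : ℤ) ^ 2 := by
      rw [h1]
      exact Dvd.dvd.mul_left (dvd_pow h2 two_ne_zero) _
    exact hpZ.dvd_of_dvd_pow ((hpZ.dvd_or_dvd h3).resolve_left hA)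
  have h4 := congrArg (fun a : ℤ => jacobiSym a p) h1
  simp only [jacobiSym.mul_left, jacobiSym.pow_left] at h4
  have h5 : jacobiSym (q.den : ℤ) p ^ 2 = 1 := by
    rcases jac_unit hp hden with h | h <;> rw [h] <;> norm_num
  have h6 : jacobiSym q.num p ^ 2 = 1 := by
    rcases jac_unit hp hnum with h | h <;> rw [h] <;> norm_num
  rw [h5, h6, mul_one, mul_one] at h4
  exact h4

/-- change of the square classes by a scalar -/
theorem cl_change {K : Type} [Fintype K] [DecidableEq K] (f : K → ℤ[X]) {s s' t' : K → ℤ}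
    {lam : ℤ} (hlam : lam ≠ 0) (ht : ∀ k, t' k ≠ 0)
    (hst : ∀ k, (if k ∈ Od f then lam else 1) * s k = s' k * t' k ^ 2) {p : ℕ}
    (h : CL f p s) : CL f p s' := by
  have key : ∀ T : Finset K, Even (T ∩ Od f).card → ∃ r : ℚ, r ≠ 0 ∧
      ∏ k ∈ T, (s' k : ℚ) = (∏ k ∈ T, (s k : ℚ)) * r ^ 2 := by
    intro T hT
    obtain ⟨j, hj⟩ := hT
    have h0 : (∏ k ∈ T, (t' k : ℚ)) ≠ 0 :=
      Finset.prod_ne_zero_iff.mpr fun k _ => Int.cast_ne_zero.mpr (ht k)
    have h1 : ((lam : ℚ) ^ j) ^ 2 * (∏ k ∈ T, (s k : ℚ)) =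
        (∏ k ∈ T, (s' k : ℚ)) * (∏ k ∈ T, (t' k : ℚ)) ^ 2 := by
      have h2 : (lam ^ j) ^ 2 * (∏ k ∈ T, s k) = (∏ k ∈ T, s' k) * (∏ k ∈ T, t' k) ^ 2 := by
        rw [← pow_mul, mul_two, ← hj, ← prod_ite_pow (Od f) T lam, ← Finset.prod_mul_distrib,
          ← Finset.prod_pow, ← Finset.prod_mul_distrib]
        exact Finset.prod_congr rfl fun k _ => hst k
      exact_mod_cast h2
    refine ⟨(lam : ℚ) ^ j / ∏ k ∈ T, (t' k : ℚ),
      div_ne_zero (pow_ne_zero _ (Int.cast_ne_zero.mpr hlam)) h0, ?_⟩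
    rw [div_pow, mul_div_assoc', eq_div_iff (pow_ne_zero 2 h0), ← h1]
    ring
  rcases h with h | ⟨i, b, hb, h⟩
  · left
    intro T hT
    obtain ⟨u, q, hu, hq, h1⟩ := h T hT
    obtain ⟨r, hr, h2⟩ := key T hT
    exact ⟨u, q * r, hu, mul_ne_zero hq hr, by rw [h2, h1]; ring⟩
  · right
    refine ⟨i, b, hb, fun T hT => ⟨fun hi => ?_, fun hi => ?_⟩⟩
    · obtain ⟨u, q, hu, hq, h1⟩ := (h T hT).1 hi
      obtain ⟨r, hr, h2⟩ := key T hT
      exact ⟨u, q * r, hu, mul_ne_zero hq hr, by rw [h2, h1]; ring⟩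
    · obtain ⟨u, q, hu, hq, h1, h3⟩ := (h T hT).2 hi
      obtain ⟨r, hr, h2⟩ := key T hT
      exact ⟨u, q * r, hu, mul_ne_zero hq hr, by rw [h2, h1]; ring, h3⟩

/-- the toggles -/
theorem tog_mem {K : Type} [Fintype K] [DecidableEq K] {O : Finset K}
    {Θ0 : K → ℕ → Finset (Finset K)} {i : K} {p : ℕ} {N : Finset K} (h : N ∈ Tog O Θ0 i p) :
    symmDiff N (O.erase i) ∈ Tog O Θ0 i p := by
  unfold Tog at h ⊢
  rw [mem_union, mem_image] at h ⊢
  rcases h with h | ⟨M, hM, rfl⟩
  · exact Or.inr ⟨N, h, rfl⟩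
  · left
    rw [symmDiff_symmDiff_cancel_right]
    exact hM

theorem hom_eval (f : ℤ[X]) (b : ℤ) : hom f b 1 = f.eval b := by
  rw [Pool.Agent.W975.TW.hom_one]
  have : Int.castRingHom ℤ = RingHom.id ℤ := RingHom.ext_int _ _
  rw [this]
  rfl

/-- the patterns of a square class at a prime which divides exactly one of the numbers -/
theorem ngs_tog {K : Type} [Fintype K] [DecidableEq K] {f : K → ℤ[X]} {p : ℕ} {s : K → ℤ} {i : K}
    {g : K → ℤ}
    (hO : ∃ k, k ∈ Od f ∧ k ≠ i)
    (hg : ∀ k, k ≠ i → jacobiSym (g k) p = 1 ∨ jacobiSym (g k) p = -1)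
    (hs : ∀ k, k ≠ i → jacobiSym (s k) p = 1 ∨ jacobiSym (s k) p = -1)
    (hmem : ngs g i p ∈ Tog (Od f) (Th f) i p)
    (h1 : ∀ k, k ∉ Od f → k ≠ i → jacobiSym (s k) p = jacobiSym (g k) p)
    (h2 : ∀ k l, k ∈ Od f → l ∈ Od f → k ≠ l → k ≠ i → l ≠ i →
      jacobiSym (s k) p * jacobiSym (s l) p = jacobiSym (g k) p * jacobiSym (g l) p) :
    ngs s i p ∈ Tog (Od f) (Th f) i p := by
  obtain ⟨k0, hk0, hk0i⟩ := hO
  by_cases h3 : jacobiSym (s k0) p = jacobiSym (g k0) p
  · have h4 : ∀ k, k ≠ i → jacobiSym (s k) p = jacobiSym (g k) p := by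
      intro k hk
      by_cases hkO : k ∈ Od f
      · by_cases hkk : k = k0
        · rw [hkk]
          exact h3
        · have h5 := h2 k k0 hkO hk0 hkk hk hk0i
          rw [h3] at h5
          have h6 : jacobiSym (g k0) p ≠ 0 := by
            rcases hg k0 hk0i with h | h <;> rw [h] <;> norm_num
          exact mul_right_cancel₀ h6 h5
      · exact h1 k hkO hk
    have h5 : ngs s i p = ngs g i p := by
      unfold ngs
      refine filter_congr fun k _ => ?_
      constructor
      · rintro ⟨h6, h7⟩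
        exact ⟨h6, by rw [← h4 k h6]; exact h7⟩
      · rintro ⟨h6, h7⟩
        exact ⟨h6, by rw [h4 k h6]; exact h7⟩
    rw [h5]
    exact hmem
  · have h3' : jacobiSym (s k0) p = - jacobiSym (g k0) p := by
      rcases hg k0 hk0i with h | h <;> rcases hs k0 hk0i with h' | h' <;>
        rw [h, h'] at h3 ⊢ <;> first | exact absurd rfl h3 | norm_num
    have h4 : ∀ k, k ≠ i → k ∈ Od f → jacobiSym (s k) p = - jacobiSym (g k) p := by
      intro k hk hkO
      by_cases hkk : k = k0
      · rw [hkk]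
        exact h3'
      · have h5 := h2 k k0 hkO hk0 hkk hk hk0i
        rw [h3'] at h5
        have h6 : jacobiSym (g k0) p ≠ 0 := by
          rcases hg k0 hk0i with h | h <;> rw [h] <;> norm_num
        apply mul_right_cancel₀ h6
        linear_combination -h5
    have h5 : ngs s i p = symmDiff (ngs g i p) ((Od f).erase i) := by
      ext k
      rw [mem_symmDiff]
      unfold ngs
      simp only [mem_filter, mem_univ, true_and, mem_erase]
      by_cases hk : k = i
      · simp [hk]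
      · by_cases hkO : k ∈ Od f
        · rw [h4 k hk hkO]
          rcases hg k hk with h | h <;> rw [h] <;> simp [hk, hkO]
        · rw [h1 k hkO hk]
          simp [hk, hkO]
    rw [h5]
    exact tog_mem hmem

theorem cl_loc {K : Type} [Fintype K] [DecidableEq K] (f : K → ℤ[X])
    (hf1 : ∀ k, Irreducible ((f k).map (Int.castRingHom ℚ)))
    (hf3 : ∀ k l, k ≠ l →
      ¬ Associated ((f k).map (Int.castRingHom ℚ)) ((f l).map (Int.castRingHom ℚ)))
    (hO4 : 4 ≤ (Od f).card) :
    ∃ z0 : ℕ, ∀ p : ℕ, p.Prime → z0 < p → ∀ s : K → ℤ, (∀ k, Squarefree (s k)) → CL f p s →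
      (((Od f).filter (fun k => (p : ℤ) ∣ s k)).card ≤ 1 ∨
        (Od f).card ≤ ((Od f).filter (fun k => (p : ℤ) ∣ s k)).card + 1) ∧
      (((Od f).filter (fun k => (p : ℤ) ∣ s k)).card ≤ 1 → ∀ i, (p : ℤ) ∣ s i →
        (∀ k, k ≠ i → ¬ (p : ℤ) ∣ s k) ∧ ngs s i p ∈ Tog (Od f) (Th f) i p) := by
  obtain ⟨z0, hz0⟩ := locm K f hf1 hf3
  refine ⟨z0, fun p hp hzp s hs h => ?_⟩
  -- parities for one or two indices
  have hE1 : ∀ k, k ∉ Od f → Even (({k} : Finset K) ∩ Od f).card := by
    intro k hk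
    rw [Finset.singleton_inter_of_notMem hk]
    exact ⟨0, rfl⟩
  have hE2 : ∀ k l, k ∈ Od f → l ∈ Od f → k ≠ l → Even (({k, l} : Finset K) ∩ Od f).card := by
    intro k l hk hl hkl
    have h1 : ({k, l} : Finset K) ∩ Od f = {k, l} := by
      rw [Finset.inter_eq_left]
      intro x hx
      rw [Finset.mem_insert, Finset.mem_singleton] at hx
      rcases hx with rfl | rfl
      · exact hk
      · exact hl
    rw [h1, Finset.card_pair hkl]
    exact ⟨1, rfl⟩
  have hc1 : ∀ k, (({k} : Finset K).filter (fun k => (p : ℤ) ∣ s k)).card =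
      if (p : ℤ) ∣ s k then 1 else 0 := by
    intro k
    rw [Finset.filter_singleton]
    split_ifs <;> simp
  have hc2 : ∀ k l, k ≠ l → (({k, l} : Finset K).filter (fun k => (p : ℤ) ∣ s k)).card =
      (if (p : ℤ) ∣ s k then 1 else 0) + if (p : ℤ) ∣ s l then 1 else 0 := by
    intro k l hkl
    rw [Finset.card_filter, Finset.sum_pair hkl]
  rcases h with h | ⟨i0, b, hb, h⟩
  · -- unramified
    have h1 : ∀ k, k ∉ Od f → ¬ (p : ℤ) ∣ s k := by
      intro k hk hd
      obtain ⟨u, q, hu, hq, h2⟩ := h {k} (hE1 k hk)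
      have h3 := par_even hp hs hu hq h2
      rw [hc1, if_pos hd] at h3
      exact absurd h3 (by decide)
    have h2 : ∀ k l, k ∈ Od f → l ∈ Od f → (p : ℤ) ∣ s k → (p : ℤ) ∣ s l := by
      intro k l hk hl hd
      by_cases hkl : k = l
      · rw [← hkl]
        exact hd
      · by_contra hd'
        obtain ⟨u, q, hu, hq, h2⟩ := h {k, l} (hE2 k l hk hl hkl)
        have h3 := par_even hp hs hu hq h2
        rw [hc2 k l hkl, if_pos hd, if_neg hd'] at h3
        exact absurd h3 (by decide)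
    have h3 : ∀ k ∈ Od f, (p : ℤ) ∣ s k → (Od f).filter (fun k => (p : ℤ) ∣ s k) = Od f := by
      intro k hk hd
      exact Finset.filter_true_of_mem fun l hl => h2 k l hk hl hd
    constructor
    · by_cases h4 : ∃ k ∈ Od f, (p : ℤ) ∣ s k
      · obtain ⟨k, hk, hd⟩ := h4
        right
        rw [h3 k hk hd]
        omega
      · left
        push Not at h4
        rw [Finset.filter_false_of_mem h4]
        simp
    · intro hcard i hi
      exfalso
      have hiO : i ∈ Od f := by
        by_contra h4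
        exact h1 i h4 hi
      rw [h3 i hiO hi] at hcard
      omega
  · -- ramified
    have h1 : ∀ k, k ∉ Od f → k ≠ i0 → ¬ (p : ℤ) ∣ s k := by
      intro k hk hki hd
      obtain ⟨u, q, hu, hq, h2, -⟩ := (h {k} (hE1 k hk)).2
        (by rw [Finset.mem_singleton]; exact fun h => hki h.symm)
      have h3 := par_even hp hs hu hq h2
      rw [hc1, if_pos hd] at h3
      exact absurd h3 (by decide)
    have h2 : ∀ k l, k ∈ Od f → l ∈ Od f → k ≠ i0 → l ≠ i0 → (p : ℤ) ∣ s k → (p : ℤ) ∣ s l := by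
      intro k l hk hl hki hli hd
      by_cases hkl : k = l
      · rw [← hkl]
        exact hd
      · by_contra hd'
        obtain ⟨u, q, hu, hq, h2, -⟩ := (h {k, l} (hE2 k l hk hl hkl)).2 (by
          rw [Finset.mem_insert, Finset.mem_singleton]
          rintro (h | h)
          · exact hki h.symm
          · exact hli h.symm)
        have h3 := par_even hp hs hu hq h2
        rw [hc2 k l hkl, if_pos hd, if_neg hd'] at h3
        exact absurd h3 (by decide)
    have h3 : ∀ k ∈ Od f, i0 ∈ Od f → k ≠ i0 → ((p : ℤ) ∣ s k ↔ ¬ (p : ℤ) ∣ s i0) := by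
      intro k hk hi0 hki
      obtain ⟨u, q, hu, hq, h2⟩ := (h {k, i0} (hE2 k i0 hk hi0 hki)).1 (by simp)
      have h3 := par_odd hp hs hu hq h2
      rw [hc2 k i0 hki] at h3
      by_cases h4 : (p : ℤ) ∣ s k <;> by_cases h5 : (p : ℤ) ∣ s i0
      · rw [if_pos h4, if_pos h5] at h3
        exact absurd h3 (by decide)
      · exact ⟨fun _ => h5, fun _ => h4⟩
      · exact ⟨fun h => absurd h h4, fun h => absurd h5 h⟩
      · rw [if_neg h4, if_neg h5] at h3
        exact absurd h3 (by decide)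
    -- there are three indices of odd degree different from `i0`
    have h5 : 3 ≤ ((Od f).erase i0).card := by
      have h6 := Finset.pred_card_le_card_erase (s := Od f) (a := i0)
      omega
    constructor
    · by_cases h4 : ∃ k ∈ Od f, k ≠ i0 ∧ (p : ℤ) ∣ s k
      · obtain ⟨k, hk, hki, hd⟩ := h4
        right
        have h6 : (Od f).erase i0 ⊆ (Od f).filter (fun k => (p : ℤ) ∣ s k) := by
          intro l hl
          rw [Finset.mem_erase] at hl
          exact Finset.mem_filter.mpr ⟨hl.2, h2 k l hk hl.2 hki hl.1 hd⟩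
        have h7 := Finset.card_le_card h6
        have h8 := Finset.pred_card_le_card_erase (s := Od f) (a := i0)
        omega
      · left
        push Not at h4
        rw [Finset.card_le_one]
        intro a ha c hc
        rw [Finset.mem_filter] at ha hc
        have h6 : a = i0 := by
          by_contra h7
          exact h4 a ha.1 h7 ha.2
        have h7 : c = i0 := by
          by_contra h7
          exact h4 c hc.1 h7 hc.2
        rw [h6, h7]
    · intro hcard i hi
      have h4 : ∀ k ∈ Od f, k ≠ i0 → ¬ (p : ℤ) ∣ s k := by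
        intro k hk hki hd
        have h6 : (Od f).erase i0 ⊆ (Od f).filter (fun k => (p : ℤ) ∣ s k) := by
          intro l hl
          rw [Finset.mem_erase] at hl
          exact Finset.mem_filter.mpr ⟨hl.2, h2 k l hk hl.2 hki hl.1 hd⟩
        have h7 := Finset.card_le_card h6
        omega
      have h6 : ∀ k, k ≠ i0 → ¬ (p : ℤ) ∣ s k := by
        intro k hk
        by_cases hkO : k ∈ Od f
        · exact h4 k hkO hk
        · exact h1 k hkO hk
      have hii : i = i0 := by
        by_contra h7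
        exact h6 i h7 hi
      subst hii
      refine ⟨h6, ?_⟩
      -- the values at `b`
      obtain ⟨h7, h8⟩ := hz0 p hp hzp b 1 isCoprime_one_right i (by rw [hom_eval]; exact hb)
      have h9 : (fun k => hom (f k) b 1) = fun k => (f k).eval b := by
        funext k
        exact hom_eval (f k) b
      rw [h9] at h8
      have h10 : ∀ k, k ≠ i → ¬ (p : ℤ) ∣ (f k).eval b := by
        intro k hk
        rw [← hom_eval]
        exact h7 k hk
      have hj : ∀ T : Finset K, Even (T ∩ Od f).card → i ∉ T →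
          jacobiSym (∏ k ∈ T, s k) p = jacobiSym (∏ k ∈ T, (f k).eval b) p := by
        intro T hT hiT
        obtain ⟨u, q, hu, hq, h11, h12⟩ := (h T hT).2 hiT
        have hpZ : _root_.Prime (p : ℤ) := Nat.prime_iff_prime_int.mp hp
        have h13 : ¬ (p : ℤ) ∣ ∏ k ∈ T, s k := by
          rw [Prime.dvd_finsetProd_iff hpZ]
          rintro ⟨k, hk, hk'⟩
          exact h6 k (fun h => hiT (h ▸ hk)) hk'
        have h14 : jacobiSym (∏ k ∈ T, s k) p = jacobiSym u p := by
          apply jac_sq hp h13 hu (q := q)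
          rw [← h11]
          push_cast
          rfl
        rw [h14]
        rw [jacobiSym.mul_left] at h12
        rcases jac_unit hp hu with h15 | h15
        · rw [h15, one_mul] at h12
          rw [h15, h12]
        · rw [h15] at h12
          rw [h15]
          linarith
      apply ngs_tog (g := fun k => (f k).eval b) ?_ ?_ ?_ h8 ?_ ?_
      · obtain ⟨k, hk⟩ := Finset.card_pos.mp (show 0 < ((Od f).erase i).card by omega)
        rw [Finset.mem_erase] at hk
        exact ⟨k, hk.2, hk.1⟩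
      · intro k hk
        exact jac_unit hp (h10 k hk)
      · intro k hk
        exact jac_unit hp (h6 k hk)
      · intro k hk hki
        have h11 := hj {k} (hE1 k hk) (by rw [Finset.mem_singleton]; exact fun h => hki h.symm)
        rw [Finset.prod_singleton, Finset.prod_singleton] at h11
        exact h11
      · intro k l hk hl hkl hki hli
        have h11 := hj {k, l} (hE2 k l hk hl hkl) (by
          rw [Finset.mem_insert, Finset.mem_singleton]
          rintro (h | h)
          · exact hki h.symm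
          · exact hli h.symm)
        rw [Finset.prod_pair hkl, Finset.prod_pair hkl, jacobiSym.mul_left,
          jacobiSym.mul_left] at h11
        exact h11

theorem redc : REDC := by
  classical
  intro K _ _ f hf1 hf3 hO4 hOe z1
  obtain ⟨z0, hz0⟩ := cl_loc f hf1 hf3 hO4
  refine ⟨max z0 z1, fun z hz' X => ?_⟩
  have hz : z0 ≤ z := le_trans (le_max_left _ _) hz'
  have hz1 : z1 ≤ z := le_trans (le_max_right _ _) hz'
  set G : (K → ℤ) → Finset (K → ℕ) := fun κ =>
    (Fintype.piFinset (fun _ : K => Icc 1 X)).filter (fun D => (∀ i, Rg z (D i)) ∧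
    (∀ i j, i ≠ j → (D i).Coprime (D j)) ∧ ∏ i, D i ≤ X ∧
    (∀ i, ∀ p ∈ (D i).primeFactors, ngs (fun k => κ k * D k) i p ∈ Tog (Od f) (Th f) i p) ∧
    NCG (val f) (Ln f) (Od f) (fun k => κ k * D k)) with hG
  set Tt : Finset (ℤ × (Σ _ : K → ℤ, K → ℕ)) :=
    (EE z) ×ˢ ((Fintype.piFinset (fun _ : K => EE z)).sigma G) with hTt
  have hcard : Tt.card = (EE z).card * ∑ κ ∈ Fintype.piFinset (fun _ : K => EE z),
      cntG z X κ (Tog (Od f) (Th f)) (val f) (Ln f) (Od f) := by
    rw [hTt, Finset.card_product, Finset.card_sigma]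
    rfl
  rw [← hcard]
  have hsub : {d : ℤ | d.natAbs ≤ X ∧ Squarefree d ∧ BadC f z1 d} ⊆
      ((Tt.image (fun x => x.1 * ((∏ k, x.2.2 k : ℕ) : ℤ)) : Finset ℤ) : Set ℤ) := by
    rintro d ⟨hdX, hd, δ, hδ0, hsq, hloc, hNC⟩
    -- squarefree parts
    choose s1 t1 ht1 hs1 hst1 using fun k => exists_sqf (δ k) (hδ0 k)
    have hHas1 : ∀ p : ℕ, p.Prime → z1 < p → CL f p s1 := by
      intro p hp hzp
      refine cl_change f (lam := 1) one_ne_zero ht1 (fun k => ?_) (hloc p hp hzp)
      rw [ite_self, one_mul]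
      exact hst1 k
    have hsq1 : IsSquare (d * ∏ k, s1 k) := by
      obtain ⟨r, hr⟩ := hsq
      apply isSquare_of_mul_sq (b := ∏ k, t1 k) (e := r)
        (Finset.prod_ne_zero_iff.mpr fun k _ => ht1 k)
      rw [sq r, ← hr, Finset.prod_congr rfl (fun k _ => hst1 k), Finset.prod_mul_distrib,
        Finset.prod_pow]
      ring
    have hNC1 : NCG (val f) (Ln f) (Od f) s1 := by
      intro i hi
      obtain ⟨T, hT1, hT2, hns⟩ := hNC i hi
      refine ⟨T, hT1, hT2, ?_⟩
      rintro ⟨r, hr⟩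
      apply hns
      refine ⟨r * ∏ k ∈ T, t1 k, ?_⟩
      have h5 : ∏ k ∈ T, (δ k * val f i k) =
          (∏ k ∈ T, (s1 k * val f i k)) * (∏ k ∈ T, t1 k) ^ 2 := by
        rw [← Finset.prod_pow, ← Finset.prod_mul_distrib]
        refine Finset.prod_congr rfl fun k _ => ?_
        rw [hst1 k]
        ring
      rw [h5, hr]
      ring
    -- the change of the covering
    set P : Finset ℕ := (∏ k, s1 k).natAbs.primeFactors.filter (fun p =>
      z < p ∧ 2 ≤ ((Od f).filter (fun k => (p : ℤ) ∣ s1 k)).card) with hP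
    set lam : ℕ := ∏ p ∈ P, p with hlam
    have hPp : ∀ p ∈ P, p.Prime := fun p hp =>
      Nat.prime_of_mem_primeFactors (Finset.mem_filter.mp hp).1
    have hlam0 : (lam : ℤ) ≠ 0 := by
      rw [Nat.cast_ne_zero, hlam, Finset.prod_ne_zero_iff]
      exact fun p hp => (hPp p hp).ne_zero
    have hlamd : ∀ p : ℕ, p.Prime → (p ∣ lam ↔ p ∈ P) := by
      intro p hp
      rw [hlam, Prime.dvd_finsetProd_iff hp.prime]
      constructor
      · rintro ⟨q, hq, hpq⟩
        have h1 : p = q := (Nat.prime_dvd_prime_iff_eq hp (hPp q hq)).mp hpq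
        rw [h1]
        exact hq
      · intro h1
        exact ⟨p, h1, dvd_rfl⟩
    have hlams : Squarefree (lam : ℤ) := by
      rw [Int.squarefree_natCast]
      rw [hlam]
      refine Finset.squarefree_prod_of_pairwise_isCoprime (fun a ha b hb hab => ?_)
        fun a ha => (hPp a ha).squarefree
      exact Nat.coprime_iff_isRelPrime.mp ((Nat.coprime_primes (hPp a ha) (hPp b hb)).mpr hab)
    set e : K → ℤ := fun k => if k ∈ Od f then (lam : ℤ) else 1 with he
    have hes : ∀ k, Squarefree (e k) := by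
      intro k
      change Squarefree (if k ∈ Od f then (lam : ℤ) else 1)
      split_ifs
      · exact hlams
      · exact squarefree_one
    choose s t ht hs hst using fun k => exists_sqf (e k * s1 k)
      (mul_ne_zero (hes k).ne_zero (hs1 k).ne_zero)
    have hHas : ∀ p : ℕ, p.Prime → z1 < p → CL f p s := fun p hp hzp =>
      cl_change f hlam0 ht hst (hHas1 p hp hzp)
    obtain ⟨u, hu⟩ : IsSquare (d * ∏ k, s k) := by
      obtain ⟨r, hr⟩ := hsq1
      obtain ⟨j, hj⟩ := hOe
      apply isSquare_of_mul_sq (b := ∏ k, t k) (e := (lam : ℤ) ^ j * r)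
        (Finset.prod_ne_zero_iff.mpr fun k _ => ht k)
      have h1 : (∏ k, s k) * (∏ k, t k) ^ 2 = (lam : ℤ) ^ (Od f).card * ∏ k, s1 k := by
        rw [← Finset.prod_pow, ← Finset.prod_mul_distrib, ← Finset.prod_congr rfl fun k _ => hst k,
          Finset.prod_mul_distrib]
        congr 1
        have h2 := prod_ite_pow (Od f) Finset.univ (lam : ℤ)
        rwa [Finset.univ_inter] at h2
      rw [mul_assoc, h1, hj, mul_pow, sq r, ← hr]
      ring
    have hNC' : NCG (val f) (Ln f) (Od f) s := by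
      intro i hi
      obtain ⟨T, hT1, hT2, hns⟩ := hNC1 i hi
      exact ⟨T, hT1, hT2, fun h => hns (change_sq hlam0 hst hT2 h)⟩
    -- divisibility
    have hdvd : ∀ p : ℕ, p.Prime → ∀ k ∈ Od f, ((p : ℤ) ∣ s k ↔
        ((p ∈ P ∧ ¬ (p : ℤ) ∣ s1 k) ∨ (p ∉ P ∧ (p : ℤ) ∣ s1 k))) := by
      intro p hp k hk
      have h1 := dvd_sqf_iff (hes k) (hs1 k) (hs k) (ht k) (hst k) hp
      have h2 : e k = (lam : ℤ) := if_pos hk
      rw [h2, Int.natCast_dvd_natCast, hlamd p hp] at h1
      exact h1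
    have hone : ∀ p : ℕ, p.Prime → z < p → ((Od f).filter (fun k => (p : ℤ) ∣ s k)).card ≤ 1 := by
      intro p hp hzp
      have h1 := (hz0 p hp (by omega) s1 hs1 (hHas1 p hp (by omega))).1
      by_cases hpP : p ∈ P
      · have h2 := (Finset.mem_filter.mp hpP).2.2
        have h3 : (Od f).filter (fun k => (p : ℤ) ∣ s k) =
            (Od f).filter (fun k => ¬ (p : ℤ) ∣ s1 k) := by
          apply Finset.filter_congr
          intro k hk
          rw [hdvd p hp k hk]
          tauto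
        rw [h3]
        have h4 := Finset.card_filter_add_card_filter_not (s := Od f) (fun k => (p : ℤ) ∣ s1 k)
        omega
      · have h3 : (Od f).filter (fun k => (p : ℤ) ∣ s k) =
            (Od f).filter (fun k => (p : ℤ) ∣ s1 k) := by
          apply Finset.filter_congr
          intro k hk
          rw [hdvd p hp k hk]
          tauto
        rw [h3]
        by_contra hcon
        apply hpP
        have h5 : 2 ≤ ((Od f).filter (fun k => (p : ℤ) ∣ s1 k)).card := by omega
        obtain ⟨k, hk⟩ := Finset.card_pos.mp (show 0 < ((Od f).filter (fun k => (p : ℤ) ∣ s1 k)).card by omega)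
        refine Finset.mem_filter.mpr ⟨Nat.mem_primeFactors.mpr ⟨hp, ?_, ?_⟩, hzp, h5⟩
        · rw [← Int.natCast_dvd]
          exact (Finset.mem_filter.mp hk).2.trans (Finset.dvd_prod_of_mem s1 (Finset.mem_univ k))
        · exact Int.natAbs_ne_zero.mpr (Finset.prod_ne_zero_iff.mpr fun k _ => (hs1 k).ne_zero)
    -- local information
    have hL : ∀ p : ℕ, p.Prime → z < p → ∀ i, (p : ℤ) ∣ s i →
        (∀ k, k ≠ i → ¬ (p : ℤ) ∣ s k) ∧ ngs s i p ∈ Tog (Od f) (Th f) i p := by
      intro p hp hzp i hi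
      exact (hz0 p hp (by omega) s hs (hHas p hp (by omega))).2 (hone p hp hzp) i hi
    have hdiv : ∀ p : ℕ, p.Prime → z < p → ((p : ℤ) ∣ d ↔ ∃ k, (p : ℤ) ∣ s k) := by
      intro p hp hzp
      have hpZ : _root_.Prime (p : ℤ) := Nat.prime_iff_prime_int.mp hp
      have hpu : (p : ℤ) ∣ d * ∏ k, s k → (p : ℤ) ^ 2 ∣ d * ∏ k, s k := by
        intro h1
        rw [hu] at h1 ⊢
        have : (p : ℤ) ∣ u := by
          rcases hpZ.dvd_or_dvd h1 with h | h <;> exact h
        rw [← sq]
        exact pow_dvd_pow_of_dvd this 2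
      constructor
      · intro h1
        by_contra h2
        push Not at h2
        have h3 := hpu (h1.mul_right _)
        have h4 : ¬ (p : ℤ) ∣ ∏ k, s k := by
          rw [Prime.dvd_finsetProd_iff hpZ]
          rintro ⟨k, -, hk⟩
          exact h2 k hk
        have h5 : (p : ℤ) ^ 2 ∣ d := by
          have hc : IsCoprime ((p : ℤ) ^ 2) (∏ k, s k) :=
            IsCoprime.pow_left ((Prime.coprime_iff_not_dvd hpZ).mpr h4)
          exact hc.dvd_of_dvd_mul_right h3
        exact hpZ.not_isUnit (hd _ (by rw [← sq]; exact h5))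
      · rintro ⟨k, hk⟩
        by_contra h2
        have h3 := hpu (Dvd.dvd.mul_left (hk.trans (Finset.dvd_prod_of_mem s (Finset.mem_univ k))) _)
        have hc : IsCoprime ((p : ℤ) ^ 2) d :=
          IsCoprime.pow_left ((Prime.coprime_iff_not_dvd hpZ).mpr h2)
        have h4 : (p : ℤ) ^ 2 ∣ ∏ k, s k := hc.dvd_of_dvd_mul_left h3
        rw [← Finset.mul_prod_erase _ _ (Finset.mem_univ k)] at h4
        have h5 : ¬ (p : ℤ) ∣ ∏ j ∈ Finset.univ.erase k, s j := by
          rw [Prime.dvd_finsetProd_iff hpZ]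
          rintro ⟨j, hj, hj'⟩
          exact (hL p hp hzp k hk).1 j (Finset.ne_of_mem_erase hj) hj'
        have hc' : IsCoprime ((p : ℤ) ^ 2) (∏ j ∈ Finset.univ.erase k, s j) :=
          IsCoprime.pow_left ((Prime.coprime_iff_not_dvd hpZ).mpr h5)
        have h6 : (p : ℤ) ^ 2 ∣ s k := hc'.dvd_of_dvd_mul_right h4
        exact hpZ.not_isUnit (hs k _ (by rw [← sq]; exact h6))
    have hcop : ∀ i j, i ≠ j → (Dz z (s i)).Coprime (Dz z (s j)) := by
      intro i j hij
      rw [Nat.coprime_iff_gcd_eq_one]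
      by_contra hg
      obtain ⟨p, hp, hpd⟩ := Nat.exists_prime_and_dvd hg
      have h1 := (dvd_Dz (hs i) hp).mp (hpd.trans (Nat.gcd_dvd_left _ _))
      have h2 := (dvd_Dz (hs j) hp).mp (hpd.trans (Nat.gcd_dvd_right _ _))
      exact (hL p hp h1.1 i h1.2).1 j (Ne.symm hij) h2.2
    have hprod : ∏ k, Dz z (s k) = Dz z d := by
      have hs0 : ∀ k, (s k).natAbs ≠ 0 := fun k => by
        rw [Int.natAbs_ne_zero]; exact (hs k).ne_zero
      have hd0 : d.natAbs ≠ 0 := by
        rw [Int.natAbs_ne_zero]; exact hd.ne_zero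
      unfold Dz
      rw [← Finset.prod_biUnion]
      · apply Finset.prod_congr _ (fun _ _ => rfl)
        ext p
        simp only [Finset.mem_biUnion, Finset.mem_univ, true_and, Finset.mem_filter,
          Nat.mem_primeFactors]
        constructor
        · rintro ⟨k, ⟨hp, hpk, -⟩, hzp⟩
          exact ⟨⟨hp, Int.natCast_dvd.mp ((hdiv p hp hzp).mpr ⟨k, Int.natCast_dvd.mpr hpk⟩), hd0⟩, hzp⟩
        · rintro ⟨⟨hp, hpd, -⟩, hzp⟩
          obtain ⟨k, hk⟩ := (hdiv p hp hzp).mp (Int.natCast_dvd.mpr hpd)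
          exact ⟨k, ⟨hp, Int.natCast_dvd.mp hk, hs0 k⟩, hzp⟩
      · intro i _ j _ hij
        rw [Function.onFun, Finset.disjoint_left]
        intro p hp hp'
        rw [Finset.mem_filter, Nat.mem_primeFactors] at hp hp'
        exact (hL p hp.1.1 hp.2 i (Int.natCast_dvd.mpr hp.1.2.1)).1 j (Ne.symm hij)
          (Int.natCast_dvd.mpr hp'.1.2.1)
    choose κ hκ hκs using fun k => exists_EE (z := z) (hs k)
    obtain ⟨d0, hd0, hdd⟩ := exists_EE (z := z) hd
    have hPX : ∏ k, Dz z (s k) ≤ X := by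
      rw [hprod]
      exact (Dz_le hd).trans hdX
    have h3 : (fun k => κ k * (Dz z (s k) : ℤ)) = s := by
      funext k
      exact (hκs k).symm
    rw [Finset.mem_coe, Finset.mem_image]
    refine ⟨(d0, ⟨κ, fun k => Dz z (s k)⟩), ?_, ?_⟩
    · rw [hTt, Finset.mem_product, Finset.mem_sigma]
      refine ⟨hd0, Fintype.mem_piFinset.mpr hκ, ?_⟩
      rw [hG]
      simp only [Finset.mem_filter, Fintype.mem_piFinset, Finset.mem_Icc]
      refine ⟨fun k => ⟨Dz_pos, ?_⟩, fun i => Dz_sqf (hs i), hcop, hPX, ?_, ?_⟩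
      · refine le_trans ?_ hPX
        exact Finset.single_le_prod' (f := fun k => Dz z (s k)) (fun k _ => Dz_pos) (Finset.mem_univ k)
      · intro i p hp
        have hpp := Nat.prime_of_mem_primeFactors hp
        have h1 := (dvd_Dz (hs i) hpp).mp (Nat.dvd_of_mem_primeFactors hp)
        have h2 := (hL p hpp h1.1 i h1.2).2
        rw [h3]
        exact h2
      · rw [h3]
        exact hNC'
    · show d0 * ((∏ k, Dz z (s k) : ℕ) : ℤ) = d
      rw [hprod]
      exact hdd.symm
  calc _ ≤ ((Tt.image (fun x => x.1 * ((∏ k, x.2.2 k : ℕ) : ℤ)) : Finset ℤ) : Set ℤ).ncard :=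
        Set.ncard_le_ncard hsub (Finset.finite_toSet _)
    _ = (Tt.image (fun x => x.1 * ((∏ k, x.2.2 k : ℕ) : ℤ)) : Finset ℤ).card := Set.ncard_coe_finset _
    _ ≤ Tt.card := Finset.card_image_le

end Pool.Agent.Y488.TM

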