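import Pool.Agent.Y488.TM.StmS
import Pool.Agent.Y488.TM.MainL
import Pool.Agent.W623.SecE.Glb

/-! # Project TM: sections of the twists, mixed factors -/

set_option autoImplicit false

namespace Pool.Agent.Y488.TM

open Finset Polynomial Pool.Agent.W262.RK Pool.Agent.W262.TW Pool.Agent.W620.SC

universe v w

section K

variable {K : Type} [Fintype K] [DecidableEq K]

/-- the section has the type of the zero of the linear form `F i` -/
def AtM (f : K → ℤ[X]) {F : Type v} {Ω : Type w} [Field F]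
    [Field Ω] [Algebra ℚ F] [Algebra F Ω] [Algebra ℚ Ω] [IsScalarTower ℚ F Ω]
    {U : Set (ValuationSubring F)} (G : GSection ℚ F Ω U) (x : F) (i : K) : Prop :=
  ∀ T : Finset K, i ∉ T → Even (∑ k ∈ T, (f k).natDegree) → ∃ γ : unramified F Ω U,
    (∀ σ, G.toHom σ γ = γ) ∧
    (γ : Ω) ^ 2 = algebraMap F Ω (∏ k ∈ T, (aeval x (f k) * (val f i k : F)))

/-- some section for the twist by `d` does not have the type of a rational branch point -/
def BadG (f : K → ℤ[X]) (d : ℤ) : Prop :=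
  ∃ (F : Type v) (Ω : Type w) (_ : Field F) (_ : Field Ω) (_ : Algebra ℚ F) (_ : Algebra F Ω)
    (_ : Algebra ℚ Ω) (_ : IsScalarTower ℚ F Ω) (_ : IsAlgClosed Ω) (_ : Algebra.IsAlgebraic F Ω)
    (U : Set (ValuationSubring F)) (G : GSection ℚ F Ω U) (x y : F),
    (∀ O ∈ U, ∀ c : ℚ, algebraMap ℚ F c ∈ O) ∧ Transcendental ℚ x ∧
    (d : F) * y ^ 2 = ∏ k, aeval x (f k) ∧ ∀ i, (f i).natDegree = 1 → ¬ AtM f G x i

theorem badC_fin (h2 : REDC) (f : K → ℤ[X]) (hf : Hyp f) (z1 : ℕ) :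
    ∃ δ : ℝ, 0 < δ ∧ ∃ C : ℝ, ∀ X : ℕ, 3 ≤ X →
    ({d : ℤ | d.natAbs ≤ X ∧ Squarefree d ∧ BadC f z1 d}.ncard : ℝ) ≤
      C * X * (Real.log X) ^ (-δ) := by
  have hev : Even (Od f).card := by
    have h1 := (even_iff f univ).1 hf.even
    rwa [univ_inter] at h1
  exact fing (keyg abs1_all regg) (prg Pool.Agent.W578.TW.UBQ.ubq) linm antm K f (BadC f z1)
    hf.irr hf.ass hf.four hf.pair hf.quad (h2 K f hf.irr hf.ass hf.four hev z1)

theorem badC_of (hg : ARG.{v, w}) (hl : ARL.{v, w}) (f : K → ℤ[X]) (hf : Hyp f) :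
    ∃ z0 : ℕ, ∀ d : ℤ, Squarefree d → BadG.{v, w} f d → BadC f z0 d := by
  have hne : (Od f).Nonempty := card_pos.1 (by have := hf.four; omega)
  obtain ⟨z0, hz0⟩ := hl K f hf.irr hf.ass hf.even hf.four
  refine ⟨z0, fun d hd hbad => ?_⟩
  obtain ⟨F, Ω, _, _, _, _, _, _, _, _, U, G, x, y, hU, hx, hxy, hno⟩ := hbad
  obtain ⟨s, hs0, hs1, hs2⟩ := hg K f hf.irr hf.ass hf.even hne d hd.ne_zero F Ω U hU G x y hxy hx
  refine ⟨s, hs0, hs1, fun p hp hzp => hz0 d hd F Ω U hU G x y hxy hx s hs0 hs2 p hp hzp,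
    fun i hi => ?_⟩
  by_contra hcon
  push Not at hcon
  unfold Ln at hi
  apply hno i (mem_filter.1 hi).2
  intro T hT hev
  have hev' := (even_iff f T).1 hev
  obtain ⟨β, hβ1, hβ2⟩ := hs2 T hev'
  obtain ⟨r, hr⟩ := hcon T hT hev'
  refine ⟨β * algebraMap F (unramified F Ω U) (algebraMap ℚ F r), fun σ => ?_, ?_⟩
  · rw [map_mul, hβ1, (G.toHom σ).commutes]
  · have e1 : ((β * algebraMap F (unramified F Ω U) (algebraMap ℚ F r) : unramified F Ω U) : Ω) =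
        (β : Ω) * algebraMap ℚ Ω r := by
      rw [IsScalarTower.algebraMap_apply ℚ F Ω]
      rfl
    have e2 : (r : ℚ) * r = (∏ k ∈ T, (s k : ℚ)) * ∏ k ∈ T, (val f i k : ℚ) := by
      rw [← prod_mul_distrib]
      exact_mod_cast hr.symm
    have e3 : algebraMap F Ω (∏ k ∈ T, (val f i k : F)) =
        algebraMap ℚ Ω (∏ k ∈ T, (val f i k : ℚ)) := by
      rw [map_prod, map_prod]
      refine prod_congr rfl fun k _ => ?_
      rw [map_intCast, map_intCast]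
    rw [e1, prod_mul_distrib, map_mul, ← hβ2, e3, mul_pow, sq (algebraMap ℚ Ω r), ← map_mul, e2,
      map_mul]
    ring

theorem sec_main (h2 : REDC) (hg : ARG.{v, w}) (hl : ARL.{v, w}) (f : K → ℤ[X]) (hf : Hyp f) :
    ∃ δ : ℝ, 0 < δ ∧ ∃ C : ℝ, ∀ X : ℕ, 3 ≤ X →
    ({d : ℤ | d.natAbs ≤ X ∧ Squarefree d ∧ BadG.{v, w} f d}.ncard : ℝ) ≤
      C * X * (Real.log X) ^ (-δ) := by
  obtain ⟨z0, hz0⟩ := badC_of hg hl f hf
  obtain ⟨δ, hδ, C, hC⟩ := badC_fin h2 f hf z0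
  refine ⟨δ, hδ, C, fun X hX => le_trans ?_ (hC X hX)⟩
  refine Nat.cast_le.2 (Set.ncard_le_ncard ?_ (Pool.Agent.TH213.SP.fin_le X _))
  rintro d ⟨h1, h2, h3⟩
  exact ⟨h1, h2, hz0 d h2 h3⟩

/-- the twist has a rational point or a section -/
def BadP (f : K → ℤ[X]) (d : ℤ) : Prop :=
  (∃ x w y : ℚ, (x ≠ 0 ∨ w ≠ 0) ∧ (d : ℚ) * y ^ 2 = ∏ k, hom (f k) x w) ∨
  ∃ (F : Type v) (Ω : Type w) (_ : Field F) (_ : Field Ω) (_ : Algebra ℚ F)
    (_ : Algebra F Ω) (_ : Algebra ℚ Ω) (_ : IsScalarTower ℚ F Ω) (_ : IsAlgClosed Ω)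
    (_ : Algebra.IsAlgebraic F Ω) (U : Set (ValuationSubring F)) (x y : F),
    (∀ O ∈ U, ∀ c : ℚ, algebraMap ℚ F c ∈ O) ∧ Nonempty (GSection ℚ F Ω U) ∧
      (d : F) * y ^ 2 = ∏ k, aeval x (f k)

lemma hom_eval_one (f : ℤ[X]) (x : ℚ) : hom f x 1 = (f.map (Int.castRingHom ℚ)).eval x := by
  unfold hom
  rw [eval_eq_sum_range, natDegree_map_eq_of_injective (RingHom.injective_int (Int.castRingHom ℚ))]
  refine sum_congr rfl fun i _ => ?_
  rw [one_pow, mul_one, coeff_map]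
  rfl

lemma ln_empty {f : K → ℤ[X]} (hl : ∀ k, (f k).natDegree ≠ 1) : Ln f = ∅ := by
  unfold Ln
  rw [filter_eq_empty_iff]
  exact fun k _ => hl k

/-- no rational point for almost all twists, no linear factor -/
theorem nopoint (f : K → ℤ[X]) (hf : Hyp f) (hl : ∀ k, (f k).natDegree ≠ 1) :
    ∃ δ : ℝ, 0 < δ ∧ ∃ C : ℝ, ∀ X : ℕ, 3 ≤ X →
    ({d : ℤ | d.natAbs ≤ X ∧ Squarefree d ∧ ∃ x w y : ℚ, (x ≠ 0 ∨ w ≠ 0) ∧
      (d : ℚ) * y ^ 2 = ∏ k, hom (f k) x w}.ncard : ℝ) ≤ C * X * (Real.log X) ^ (-δ) := by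
  obtain ⟨δ, hδ, C, hC⟩ := main f hf
  refine ⟨δ, hδ, C, fun X hX => le_trans ?_ (hC X hX)⟩
  refine Nat.cast_le.2 (Set.ncard_le_ncard ?_ (Pool.Agent.TH213.SP.fin_le X _))
  rintro d ⟨h1, h2, x, w, y, hxw, h3⟩
  have hne : ∀ k, hom (f k) x w ≠ 0 := by
    intro k
    refine hom_eq_zero_rat (hf.irr k) ?_ hxw
    have e1 : ((f k).map (Int.castRingHom ℚ)).natDegree = (f k).natDegree :=
      natDegree_map_eq_of_injective (RingHom.injective_int (Int.castRingHom ℚ)) _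
    have e2 : 0 < ((f k).map (Int.castRingHom ℚ)).natDegree := (hf.irr k).natDegree_pos
    have e3 := hl k
    omega
  refine ⟨h1, h2, x, w, y, ⟨?_, h3⟩, ?_⟩
  · rintro rfl
    have h4 : ∏ k, hom (f k) x w = 0 := by rw [← h3]; ring
    exact (prod_ne_zero_iff.2 fun k _ => hne k) h4
  · rintro ⟨i, hi, -⟩
    exact hl i hi

theorem sec_final (h2 : REDC) (hg : ARG.{v, w}) (hl : ARL.{v, w}) (f : K → ℤ[X]) (hf : Hyp f)
    (hlin : ∀ k, (f k).natDegree ≠ 1) :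
    ∃ δ : ℝ, 0 < δ ∧ ∃ C : ℝ, ∀ X : ℕ, 3 ≤ X →
    ({d : ℤ | d.natAbs ≤ X ∧ Squarefree d ∧ BadP.{v, w} f d}.ncard : ℝ) ≤
      C * X * (Real.log X) ^ (-δ) := by
  obtain ⟨δ1, hδ1, C1, hC1⟩ := sec_main h2 hg hl f hf
  obtain ⟨δ2, hδ2, C2, hC2⟩ := nopoint f hf hlin
  have hsub : ∀ d : ℤ, Squarefree d → BadP.{v, w} f d → BadG.{v, w} f d ∨
      ∃ x w y : ℚ, (x ≠ 0 ∨ w ≠ 0) ∧ (d : ℚ) * y ^ 2 = ∏ k, hom (f k) x w := by
    intro d hd hbad
    rcases hbad with h | ⟨F, Ω, i1, i2, i3, i4, i5, i6, i7, i8, U, x, y, hU, ⟨G⟩, hxy⟩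
    · exact Or.inr h
    · by_cases hx : Transcendental ℚ x
      · left
        exact ⟨F, Ω, i1, i2, i3, i4, i5, i6, i7, i8, U, G, x, y, hU, hx, hxy,
          fun i hi => absurd hi (hlin i)⟩
      · right
        have e1 : algebraMap ℚ F (d : ℚ) * y ^ 2 =
            aeval x (∏ k, (f k).map (Int.castRingHom ℚ)) := by
          have e2 : ∀ k, aeval x ((f k).map (Int.castRingHom ℚ)) = aeval x (f k) := by
            intro k
            rw [aeval_def, aeval_def, eval₂_map]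
            congr 1
            exact RingHom.ext_int _ _
          rw [map_prod, prod_congr rfl fun k _ => e2 k, ← hxy]
          have e3 : algebraMap ℚ F (d : ℚ) = (d : F) := by simp
          rw [e3]
        obtain ⟨x', y', -, -, h3⟩ := Pool.Agent.W623.SecE.secpt ℚ F Ω
          (∏ k, (f k).map (Int.castRingHom ℚ)) (d : ℚ) (by exact_mod_cast hd.ne_zero) U hU G x y
          e1 hx
        refine ⟨x', 1, y', Or.inr one_ne_zero, ?_⟩
        rw [h3, eval_prod]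
        exact prod_congr rfl fun k _ => (hom_eval_one (f k) x').symm
  obtain ⟨D1, hD1⟩ : ∃ D : ℝ, ∀ X : ℕ, 3 ≤ X → C1 * X * (Real.log X) ^ (-δ1) ≤
      D * X * (Real.log X) ^ (-(min δ1 δ2)) := by
    refine ⟨|C1|, fun X hX => ?_⟩
    have hX3 : (3 : ℝ) ≤ X := by exact_mod_cast hX
    have h1 : 1 ≤ Real.log X := by
      rw [Real.le_log_iff_exp_le (by linarith)]
      exact Real.exp_one_lt_d9.le.trans (by linarith)
    have h3 : (Real.log X) ^ (-δ1) ≤ (Real.log X) ^ (-(min δ1 δ2)) :=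
      Real.rpow_le_rpow_of_exponent_le h1 (neg_le_neg (min_le_left _ _))
    have h4 : 0 ≤ (Real.log X) ^ (-δ1) := Real.rpow_nonneg (by linarith) _
    calc C1 * X * (Real.log X) ^ (-δ1) ≤ |C1| * X * (Real.log X) ^ (-δ1) := by
          apply mul_le_mul_of_nonneg_right _ h4
          exact mul_le_mul_of_nonneg_right (le_abs_self _) (by linarith)
      _ ≤ _ := mul_le_mul_of_nonneg_left h3 (mul_nonneg (abs_nonneg _) (by linarith))
  obtain ⟨D2, hD2⟩ : ∃ D : ℝ, ∀ X : ℕ, 3 ≤ X → C2 * X * (Real.log X) ^ (-δ2) ≤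
      D * X * (Real.log X) ^ (-(min δ1 δ2)) := by
    refine ⟨|C2|, fun X hX => ?_⟩
    have hX3 : (3 : ℝ) ≤ X := by exact_mod_cast hX
    have h1 : 1 ≤ Real.log X := by
      rw [Real.le_log_iff_exp_le (by linarith)]
      exact Real.exp_one_lt_d9.le.trans (by linarith)
    have h3 : (Real.log X) ^ (-δ2) ≤ (Real.log X) ^ (-(min δ1 δ2)) :=
      Real.rpow_le_rpow_of_exponent_le h1 (neg_le_neg (min_le_right _ _))
    have h4 : 0 ≤ (Real.log X) ^ (-δ2) := Real.rpow_nonneg (by linarith) _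
    calc C2 * X * (Real.log X) ^ (-δ2) ≤ |C2| * X * (Real.log X) ^ (-δ2) := by
          apply mul_le_mul_of_nonneg_right _ h4
          exact mul_le_mul_of_nonneg_right (le_abs_self _) (by linarith)
      _ ≤ _ := mul_le_mul_of_nonneg_left h3 (mul_nonneg (abs_nonneg _) (by linarith))
  refine ⟨min δ1 δ2, lt_min hδ1 hδ2, D1 + D2, fun X hX => ?_⟩
  have h5 := Set.ncard_le_ncard (s := {d : ℤ | d.natAbs ≤ X ∧ Squarefree d ∧ BadP.{v, w} f d})
    (t := {d : ℤ | d.natAbs ≤ X ∧ Squarefree d ∧ BadG.{v, w} f d} ∪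
      {d : ℤ | d.natAbs ≤ X ∧ Squarefree d ∧ ∃ x w y : ℚ, (x ≠ 0 ∨ w ≠ 0) ∧
        (d : ℚ) * y ^ 2 = ∏ k, hom (f k) x w}) (by
      rintro d ⟨a1, a2, a3⟩
      rcases hsub d a2 a3 with h | h
      · exact Or.inl ⟨a1, a2, h⟩
      · exact Or.inr ⟨a1, a2, h⟩)
    ((Pool.Agent.TH213.SP.fin_le X _).union (Pool.Agent.TH213.SP.fin_le X _))
  have h6 := h5.trans (Set.ncard_union_le _ _)
  have h7 : ({d : ℤ | d.natAbs ≤ X ∧ Squarefree d ∧ BadP.{v, w} f d}.ncard : ℝ) ≤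
      ({d : ℤ | d.natAbs ≤ X ∧ Squarefree d ∧ BadG.{v, w} f d}.ncard : ℝ) +
      ({d : ℤ | d.natAbs ≤ X ∧ Squarefree d ∧ ∃ x w y : ℚ, (x ≠ 0 ∨ w ≠ 0) ∧
        (d : ℚ) * y ^ 2 = ∏ k, hom (f k) x w}.ncard : ℝ) := by exact_mod_cast h6
  calc _ ≤ C1 * X * (Real.log X) ^ (-δ1) + C2 * X * (Real.log X) ^ (-δ2) :=
        h7.trans (add_le_add (hC1 X hX) (hC2 X hX))
    _ ≤ D1 * X * (Real.log X) ^ (-(min δ1 δ2)) + D2 * X * (Real.log X) ^ (-(min δ1 δ2)) :=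
        add_le_add (hD1 X hX) (hD2 X hX)
    _ = _ := by ring

end K

end Pool.Agent.Y488.TM
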