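import Pool.Agent.Y488.TM.FinB
import Pool.Agent.Y488.TM.BM

/-!
# Project TM: reduction of the adelic points at the primes dividing `d`
-/

set_option autoImplicit false
set_option linter.all false

namespace Pool.Agent.Y488.TM

open Finset Polynomial Pool.Agent.W313.BMX

namespace FinB

open Pool.Agent.W975.TW

section pad

variable {p : ℕ} [hp : Fact p.Prime]

variable {K : Type} [Fintype K] [DecidableEq K]

theorem scaledm (f : K → ℤ[X]) (hplc : ∀ k, ¬ (p : ℤ) ∣ (f k).leadingCoeff)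
    (hR : ∀ k l, k ≠ l → ∃ (R : ℤ) (A B : ℤ[X]), ¬ (p : ℤ) ∣ R ∧ A * f k + B * f l = C R)
    (x w : ℚ_[p]) (hxw : x ≠ 0 ∨ w ≠ 0) :
    ∃ (s : ℚ_[p]) (G : K → ℤ_[p]), s ≠ 0 ∧ ‖s‖ ≤ max ‖x‖ ‖w‖ ∧
      (∀ k, homog (f k) x w = s ^ (f k).natDegree * ((G k : ℤ_[p]) : ℚ_[p])) ∧
      ∀ k l, k ≠ l → ‖G k‖ < 1 → ¬ ‖G l‖ < 1 := by
  rcases lt_or_ge ‖w‖ ‖x‖ with hlt | hge
  · have hx : x ≠ 0 := by
      intro h; rw [h, norm_zero] at hlt
      exact absurd (norm_nonneg w) (not_le.2 hlt)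
    have hxn : 0 < ‖x‖ := norm_pos_iff.2 hx
    have hv : ‖w / x‖ < 1 := by rw [norm_div, div_lt_one hxn]; exact hlt
    set v : ℤ_[p] := ⟨w / x, hv.le⟩ with hvdef
    refine ⟨x, fun k => Pool.Agent.W262.TW.hom (f k) (1 : ℤ_[p]) v, hx, le_max_left _ _, ?_, ?_⟩
    · intro k
      have h1 : Pool.Agent.W262.TW.hom (f k) (1 : ℚ_[p]) (w / x) =
          ((Pool.Agent.W262.TW.hom (f k) (1 : ℤ_[p]) v : ℤ_[p]) : ℚ_[p]) := by
        have := hom_map (PadicInt.Coe.ringHom (p := p)) (f k) 1 v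
        simp only [map_one] at this
        exact this.symm
      rw [← h1, ← hom_smul, mul_one, mul_div_cancel₀ _ hx]
      rfl
    · intro k l hkl hk
      exfalso
      have h2 : PadicInt.toZMod (Pool.Agent.W262.TW.hom (f k) (1 : ℤ_[p]) v) ≠ 0 := by
        rw [hom_map, map_one, (toZ_iff v).2 hv, hom_lc]
        intro h3
        exact hplc k ((ZMod.intCast_zmod_eq_zero_iff_dvd _ p).1 h3)
      exact h2 ((toZ_iff _).2 hk)
  · have hw : w ≠ 0 := by
      intro h
      rw [h, norm_zero] at hge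
      have hx := norm_le_zero_iff.1 hge
      rcases hxw with h' | h'
      · exact h' hx
      · exact h' h
    have hwn : 0 < ‖w‖ := norm_pos_iff.2 hw
    have hu : ‖x / w‖ ≤ 1 := by rw [norm_div, div_le_one hwn]; exact hge
    set u : ℤ_[p] := ⟨x / w, hu⟩ with hudef
    refine ⟨w, fun k => (f k).eval₂ (Int.castRingHom ℤ_[p]) u, hw, le_max_right _ _, ?_, ?_⟩
    · intro k
      have h1 : Pool.Agent.W262.TW.hom (f k) (x / w) (1 : ℚ_[p]) =
          (((f k).eval₂ (Int.castRingHom ℤ_[p]) u : ℤ_[p]) : ℚ_[p]) := by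
        have := hom_map (PadicInt.Coe.ringHom (p := p)) (f k) u 1
        simp only [map_one] at this
        rw [hom_one] at this
        exact this.symm
      rw [← h1, ← hom_smul, mul_one, mul_div_cancel₀ _ hw]
      rfl
    · intro k l hkl hk hl
      obtain ⟨R, A, B, hpR, hAB⟩ := hR k l hkl
      have h1 := congrArg (fun q : ℤ[X] => PadicInt.toZMod (q.eval₂ (Int.castRingHom ℤ_[p]) u)) hAB
      simp only [eval₂_add, eval₂_mul, map_add, map_mul, eval₂_C] at h1
      have h2 : PadicInt.toZMod ((f k).eval₂ (Int.castRingHom ℤ_[p]) u) = 0 := (toZ_iff _).2 hk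
      have h3 : PadicInt.toZMod ((f l).eval₂ (Int.castRingHom ℤ_[p]) u) = 0 := (toZ_iff _).2 hl
      rw [h2, h3, mul_zero, mul_zero, add_zero] at h1
      simp only [eq_intCast, map_intCast] at h1
      exact hpR ((ZMod.intCast_zmod_eq_zero_iff_dvd _ p).1 h1.symm)

/-- at a prime dividing `d` the point reduces to the zero of one factor, whose value has odd
valuation -/
theorem claimd (f : K → ℤ[X]) (hplc : ∀ k, ¬ (p : ℤ) ∣ (f k).leadingCoeff)
    (hR : ∀ k l, k ≠ l → ∃ (R : ℤ) (A B : ℤ[X]), ¬ (p : ℤ) ∣ R ∧ A * f k + B * f l = C R)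
    (hD : Even (∑ k, (f k).natDegree)) (d : ℤ) (hd0 : (d : ℚ_[p]) ≠ 0)
    (hvd : (d : ℚ_[p]).valuation = 1) (P : Point f d ℚ_[p]) :
    ∃ (e : ℤ) (j : K), ‖homog (f j) P.x P.w‖ < (max ‖P.x‖ ‖P.w‖) ^ (f j).natDegree ∧
      ∀ k, value P k ≠ 0 ∧
        Even ((value P k).valuation - (f k).natDegree * e - if k = j then 1 else 0) := by
  classical
  obtain ⟨s, G, hs, hsm, hG, hGG⟩ := scaledm f hplc hR P.x P.w P.ne
  have hsn : 0 < ‖s‖ := norm_pos_iff.2 hs
  -- unit values
  have hunit : ∀ k, ¬ ‖G k‖ < 1 → ((G k : ℤ_[p]) : ℚ_[p]) ≠ 0 ∧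
      ((G k : ℤ_[p]) : ℚ_[p]).valuation = 0 := by
    intro k hk
    have h1 : ‖((G k : ℤ_[p]) : ℚ_[p])‖ = 1 :=
      le_antisymm (PadicInt.norm_le_one _) (not_lt.1 hk)
    exact ⟨by intro h; rw [h, norm_zero] at h1; exact zero_ne_one h1, val_one h1⟩
  have hval : ∀ k, ((G k : ℤ_[p]) : ℚ_[p]) ≠ 0 → (homog (f k) P.x P.w).valuation =
      (f k).natDegree * s.valuation + ((G k : ℤ_[p]) : ℚ_[p]).valuation := by
    intro k hk
    rw [hG k, Padic.valuation_mul (pow_ne_zero _ hs) hk, Padic.valuation_pow]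
  have hne : ∀ k, ((G k : ℤ_[p]) : ℚ_[p]) ≠ 0 → homog (f k) P.x P.w ≠ 0 := by
    intro k hk
    rw [hG k]
    exact mul_ne_zero (pow_ne_zero _ hs) hk
  have hsmall : ∀ k, ‖G k‖ < 1 →
      ‖homog (f k) P.x P.w‖ < (max ‖P.x‖ ‖P.w‖) ^ (f k).natDegree := by
    intro k hk
    have hk' : ‖((G k : ℤ_[p]) : ℚ_[p])‖ < 1 := hk
    rw [hG k, norm_mul, norm_pow]
    have h1 : ‖s‖ ^ (f k).natDegree ≤ (max ‖P.x‖ ‖P.w‖) ^ (f k).natDegree :=
      pow_le_pow_left₀ hsn.le hsm _
    have h2 : 0 < ‖s‖ ^ (f k).natDegree := pow_pos hsn _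
    calc ‖s‖ ^ (f k).natDegree * ‖((G k : ℤ_[p]) : ℚ_[p])‖
        < ‖s‖ ^ (f k).natDegree * 1 := mul_lt_mul_of_pos_left hk' h2
      _ = ‖s‖ ^ (f k).natDegree := mul_one _
      _ ≤ _ := h1
  obtain ⟨r, hr⟩ := hD
  have h4 : (∑ l, ((f l).natDegree : ℤ)) = r + r := by exact_mod_cast hr
  by_cases hz : ∃ i, ((G i : ℤ_[p]) : ℚ_[p]) = 0
  · obtain ⟨i, hi⟩ := hz
    have hi0 : homog (f i) P.x P.w = 0 := by rw [hG i, hi, mul_zero]
    have hi1 : ‖G i‖ < 1 := by
      have : ‖((G i : ℤ_[p]) : ℚ_[p])‖ < 1 := by rw [hi, norm_zero]; exact one_pos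
      exact this
    have hoth : ∀ k, k ≠ i → ((G k : ℤ_[p]) : ℚ_[p]) ≠ 0 ∧
        ((G k : ℤ_[p]) : ℚ_[p]).valuation = 0 := fun k hk =>
      hunit k (hGG i k (Ne.symm hk) hi1)
    refine ⟨s.valuation, i, hsmall i hi1, ?_⟩
    intro k
    by_cases hk : k = i
    · subst hk
      have hv : value P k = d * ∏ l ∈ univ.erase k, homog (f l) P.x P.w := by
        unfold value
        rw [if_neg (by simpa using hi0)]
      have hpr : ∀ l ∈ univ.erase k, homog (f l) P.x P.w ≠ 0 := fun l hl =>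
        hne l (hoth l (Finset.ne_of_mem_erase hl)).1
      have hpr0 := Finset.prod_ne_zero_iff.2 hpr
      refine ⟨by rw [hv]; exact mul_ne_zero hd0 hpr0, ?_⟩
      rw [hv, Padic.valuation_mul hd0 hpr0, hvd, val_prod _ _ hpr, if_pos rfl]
      have h1 : ∑ l ∈ univ.erase k, (homog (f l) P.x P.w).valuation =
          (∑ l ∈ univ.erase k, ((f l).natDegree : ℤ)) * s.valuation := by
        rw [Finset.sum_mul]
        refine Finset.sum_congr rfl fun l hl => ?_
        have h2 := hoth l (Finset.ne_of_mem_erase hl)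
        rw [hval l h2.1, h2.2, add_zero]
      rw [h1]
      have h3 : ((f k).natDegree : ℤ) + ∑ l ∈ univ.erase k, ((f l).natDegree : ℤ) =
          ∑ l, ((f l).natDegree : ℤ) :=
        Finset.add_sum_erase univ (fun l => ((f l).natDegree : ℤ)) (mem_univ k)
      rw [h4] at h3
      refine ⟨(r - (f k).natDegree) * s.valuation, ?_⟩
      linear_combination s.valuation * h3
    · have h2 := hoth k hk
      have hv : value P k = homog (f k) P.x P.w := by
        unfold value
        rw [if_pos (hne k h2.1)]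
      rw [hv, if_neg hk]
      refine ⟨hne k h2.1, ?_⟩
      rw [hval k h2.1, h2.2]
      exact ⟨0, by ring⟩
  · push Not at hz
    have hv : ∀ k, value P k = homog (f k) P.x P.w := by
      intro k
      unfold value
      rw [if_pos (hne k (hz k))]
    have hprod0 : ∏ l, homog (f l) P.x P.w ≠ 0 :=
      Finset.prod_ne_zero_iff.2 fun l _ => hne l (hz l)
    have hy0 : P.y ≠ 0 := by
      intro h
      have := P.eq
      rw [h] at this
      apply hprod0
      rw [← this]
      ring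
    have h1 := congrArg Padic.valuation P.eq
    rw [Padic.valuation_mul hd0 (pow_ne_zero _ hy0), hvd, Padic.valuation_pow,
      val_prod _ _ (fun l _ => hne l (hz l)), Finset.sum_congr rfl (fun l _ => hval l (hz l)),
      Finset.sum_add_distrib, ← Finset.sum_mul, h4] at h1
    obtain ⟨j, hj⟩ : ∃ j, ‖G j‖ < 1 := by
      by_contra hno
      push Not at hno
      have h5 : ∑ l, ((G l : ℤ_[p]) : ℚ_[p]).valuation = 0 :=
        Finset.sum_eq_zero fun l _ => (hunit l (not_lt.2 (hno l))).2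
      rw [h5] at h1
      push_cast at h1
      have h6 : (1 : ℤ) = 2 * (r * s.valuation - P.y.valuation) := by linear_combination h1
      omega
    have hoth : ∀ l, l ≠ j → ((G l : ℤ_[p]) : ℚ_[p]).valuation = 0 := fun l hl =>
      (hunit l (hGG j l (Ne.symm hl) hj)).2
    rw [← Finset.add_sum_erase univ (fun l => ((G l : ℤ_[p]) : ℚ_[p]).valuation) (mem_univ j),
      Finset.sum_eq_zero (s := univ.erase j) (fun l hl => hoth l (Finset.ne_of_mem_erase hl))] at h1
    refine ⟨s.valuation, j, hsmall j hj, ?_⟩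
    intro k
    rw [hv k]
    refine ⟨hne k (hz k), ?_⟩
    rw [hval k (hz k)]
    by_cases hk : k = j
    · subst hk
      rw [if_pos rfl]
      refine ⟨P.y.valuation - r * s.valuation, ?_⟩
      push_cast at h1
      linear_combination -h1
    · rw [if_neg hk, hoth k hk]
      exact ⟨0, by ring⟩

end pad

end FinB

section K

variable {K : Type} [Fintype K] [DecidableEq K]

open FinB in
/-- an adelic point with the type of the zero of `F i` reduces to it at the primes dividing `d` -/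
theorem near (f : K → ℤ[X]) (hf : Hyp f) : ∃ z : ℕ, ∀ d : ℤ, Squarefree d →
    ∀ (p : ℕ) [Fact p.Prime], z < p → (p : ℤ) ∣ d → ∀ (P : Point f d ℚ_[p]) (i : K),
      (f i).natDegree = 1 →
      (∀ T : Finset K, i ∉ T → Even (∑ k ∈ T, (f k).natDegree) →
        IsSquare (∏ k ∈ T, (value P k * (val f i k : ℚ_[p])))) →
      ‖homog (f i) P.x P.w‖ < max ‖P.x‖ ‖P.w‖ := by
  classical
  have hR : ∀ k l, ∃ R : ℤ, R ≠ 0 ∧ (k ≠ l → ∃ A B : ℤ[X], A * f k + B * f l = C R) := by
    intro k l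
    by_cases hkl : k = l
    · exact ⟨1, one_ne_zero, fun h => absurd hkl h⟩
    · obtain ⟨R, A, B, hR, hAB⟩ := Pool.Agent.W975.TW.bez (f k) (f l) (hf.irr k) (hf.irr l)
        (hf.ass k l hkl)
      exact ⟨R, hR, fun _ => ⟨A, B, hAB⟩⟩
  choose R hR0 hR using hR
  have hlc : ∀ k, (f k).leadingCoeff ≠ 0 := by
    intro k h
    rw [leadingCoeff_eq_zero] at h
    have := (hf.irr k).ne_zero
    rw [h] at this
    simp at this
  have hvl := (linm K f hf.irr hf.ass).1
  refine ⟨(∑ k, ∑ l, (val f k l).natAbs) +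
    (∑ k, (f k).leadingCoeff.natAbs + ∑ k, ∑ l, (R k l).natAbs), ?_⟩
  intro d hd p hp hz hpd P i hi hsq
  have hbig : ∀ m : ℤ, m ≠ 0 → m.natAbs < p → ¬ (p : ℤ) ∣ m := by
    intro m hm hlt h
    have h5 := Nat.le_of_dvd (Int.natAbs_pos.2 hm) (Int.natCast_dvd.1 h)
    omega
  have hplc : ∀ k, ¬ (p : ℤ) ∣ (f k).leadingCoeff := by
    intro k
    have h3 : (f k).leadingCoeff.natAbs ≤ ∑ k, (f k).leadingCoeff.natAbs :=
      Finset.single_le_sum (f := fun k => (f k).leadingCoeff.natAbs) (fun _ _ => Nat.zero_le _)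
        (mem_univ k)
    exact hbig _ (hlc k) (by omega)
  have hpR : ∀ k l, ¬ (p : ℤ) ∣ R k l := by
    intro k l
    have h3 : (R k l).natAbs ≤ ∑ l, (R k l).natAbs :=
      Finset.single_le_sum (f := fun l => (R k l).natAbs) (fun _ _ => Nat.zero_le _)
        (mem_univ l)
    have h4 : ∑ l, (R k l).natAbs ≤ ∑ k, ∑ l, (R k l).natAbs :=
      Finset.single_le_sum (f := fun k => ∑ l, (R k l).natAbs) (fun _ _ => Nat.zero_le _)
        (mem_univ k)
    exact hbig _ (hR0 k l) (by omega)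
  have hiL : i ∈ Ln f := mem_filter.2 ⟨mem_univ _, hi⟩
  have hiO : i ∈ Od f := mem_filter.2 ⟨mem_univ _, by rw [hi]; exact odd_one⟩
  have hpv : ∀ k, k ≠ i → ¬ (p : ℤ) ∣ val f i k := by
    intro k hk
    have h3 : (val f i k).natAbs ≤ ∑ l, (val f i l).natAbs :=
      Finset.single_le_sum (f := fun l => (val f i l).natAbs) (fun _ _ => Nat.zero_le _)
        (mem_univ k)
    have h4 : ∑ l, (val f i l).natAbs ≤ ∑ k, ∑ l, (val f k l).natAbs :=
      Finset.single_le_sum (f := fun k => ∑ l, (val f k l).natAbs) (fun _ _ => Nat.zero_le _)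
        (mem_univ i)
    exact hbig _ (hvl i hiL k hk) (by omega)
  have hd0 : (d : ℚ_[p]) ≠ 0 := by exact_mod_cast hd.ne_zero
  have hvd : (d : ℚ_[p]).valuation = 1 := by
    obtain ⟨m, hm⟩ := hpd
    have hpm : ¬ (p : ℤ) ∣ m := by
      rintro ⟨c, hc⟩
      have h1 : (p : ℤ) * p ∣ d := ⟨c, by rw [hm, hc]; ring⟩
      have h2 := Int.isUnit_iff.1 (hd _ h1)
      have h3 : (1 : ℤ) < p := by exact_mod_cast hp.out.one_lt
      omega
    have hp0 : (p : ℚ_[p]) ≠ 0 := by exact_mod_cast hp.out.ne_zero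
    have hm0 : (m : ℚ_[p]) ≠ 0 := by
      have : m ≠ 0 := by
        rintro rfl
        exact hpm (dvd_zero _)
      exact_mod_cast this
    rw [hm]
    push_cast
    rw [Padic.valuation_mul hp0 hm0, Padic.valuation_p, val_int hpm, add_zero]
  obtain ⟨e, j, hj, hv⟩ := claimd f hplc (fun k l hkl => by
    obtain ⟨A, B, hAB⟩ := hR k l hkl
    exact ⟨R k l, A, B, hpR k l, hAB⟩) hf.even d hd0 hvd P
  have hij : j = i := by
    by_contra hji
    obtain ⟨T, hjT, hiT, hev⟩ : ∃ T : Finset K, j ∈ T ∧ i ∉ T ∧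
        Even (∑ k ∈ T, (f k).natDegree) := by
      by_cases hjO : j ∈ Od f
      · obtain ⟨l, hl, hlj, hli⟩ : ∃ l ∈ Od f, l ≠ j ∧ l ≠ i := by
          have h5 : 0 < (((Od f).erase j).erase i).card := by
            have h6 := hf.four
            have h7 := Finset.pred_card_le_card_erase (s := Od f) (a := j)
            have h8 := Finset.pred_card_le_card_erase (s := (Od f).erase j) (a := i)
            omega
          obtain ⟨l, hl⟩ := card_pos.1 h5
          rw [mem_erase, mem_erase] at hl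
          exact ⟨l, hl.2.2, hl.2.1, hl.1⟩
        refine ⟨{j, l}, by simp, ?_, ?_⟩
        · rw [mem_insert, mem_singleton]
          rintro (h | h)
          · exact hji h.symm
          · exact hli h.symm
        · rw [sum_pair hlj.symm]
          exact (mem_filter.1 hjO).2.add_odd (mem_filter.1 hl).2
      · refine ⟨{j}, by simp, ?_, ?_⟩
        · rw [mem_singleton]
          exact fun h => hji h.symm
        · rw [sum_singleton]
          by_contra hno
          exact hjO (mem_filter.2 ⟨mem_univ _, Nat.not_even_iff_odd.1 hno⟩)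
    obtain ⟨r, hr⟩ := hsq T hiT hev
    have hne : ∀ k ∈ T, value P k * (val f i k : ℚ_[p]) ≠ 0 := by
      intro k hk
      refine mul_ne_zero (hv k).1 ?_
      have h1 : val f i k ≠ 0 := hvl i hiL k (fun h => hiT (h ▸ hk))
      exact_mod_cast h1
    have hp0 : ∏ k ∈ T, (value P k * (val f i k : ℚ_[p])) ≠ 0 := prod_ne_zero_iff.2 hne
    have hr0 : r ≠ 0 := by
      rintro rfl
      rw [mul_zero] at hr
      exact hp0 hr
    have h1 := congrArg Padic.valuation hr
    rw [val_prod _ _ hne, Padic.valuation_mul hr0 hr0] at h1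
    have h2 : ∀ k ∈ T, ∃ c : ℤ, (value P k * (val f i k : ℚ_[p])).valuation =
        (f k).natDegree * e + (if k = j then 1 else 0) + (c + c) := by
      intro k hk
      have hki : k ≠ i := fun h => hiT (h ▸ hk)
      have h3 : (val f i k : ℚ_[p]) ≠ 0 := by
        have h1 : val f i k ≠ 0 := hvl i hiL k hki
        exact_mod_cast h1
      rw [Padic.valuation_mul (hv k).1 h3, val_int (hpv k hki), add_zero]
      obtain ⟨c, hc⟩ := (hv k).2
      exact ⟨c, by linear_combination hc⟩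
    have h3 : ∃ c : ℤ, ∑ k ∈ T, (value P k * (val f i k : ℚ_[p])).valuation =
        (∑ k ∈ T, ((f k).natDegree : ℤ)) * e + 1 + (c + c) := by
      choose! c hc using h2
      refine ⟨∑ k ∈ T, c k, ?_⟩
      rw [sum_congr rfl hc, sum_add_distrib, sum_add_distrib, ← sum_mul, sum_add_distrib,
        sum_ite_eq' T j (fun _ => (1 : ℤ)), if_pos hjT]
    obtain ⟨c, hc⟩ := h3
    obtain ⟨q, hq⟩ := hev
    have h4 : (∑ k ∈ T, ((f k).natDegree : ℤ)) = q + q := by exact_mod_cast hq
    rw [hc, h4] at h1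
    have h5 : (1 : ℤ) = 2 * (r.valuation - c - q * e) := by linear_combination h1
    omega
  rw [hij, hi, pow_one] at hj
  exact hj

end K

end Pool.Agent.Y488.TM
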