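import Pool.Agent.Y488.TM.Main

/-! # Project TM: finitely many points of constant type -/

set_option autoImplicit false

namespace Pool.Agent.Y488.TM

open Finset Polynomial Pool.Agent.W262.RK Pool.Agent.W262.TW

section K

variable {K : Type} [Fintype K] [DecidableEq K]

lemma constQ_smul {f : K → ℤ[X]} {x w : ℚ} (c : ℚ) (h : ConstQ f x w) :
    ConstQ f (c * x) (c * w) := by
  obtain ⟨i, hi, h⟩ := h
  refine ⟨i, hi, fun T hT hev => ?_⟩
  simp_rw [hom_smul]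
  exact sq_scale hev (h T hT hev)

lemma prod_hom_smul {f : K → ℤ[X]} {n : ℕ} (hn : ∑ k, (f k).natDegree = 2 * n) (c x w : ℚ) :
    ∏ k, hom (f k) (c * x) (c * w) = (c ^ n) ^ 2 * ∏ k, hom (f k) x w := by
  simp_rw [hom_smul]
  rw [prod_mul_distrib, prod_pow_eq_pow_sum, hn, ← pow_mul, mul_comm n 2]

/-- the twists with a point of constant type form a finite set -/
lemma finite_constQ {f : K → ℤ[X]} {n : ℕ} (hn : ∑ k, (f k).natDegree = 2 * n)
    (hpos : ∃ k, 0 < (f k).natDegree)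
    (hF : {t : ℚ | (∀ k, hom (f k) t 1 ≠ 0) ∧ ConstQ f t 1}.Finite) :
    {d : ℤ | Squarefree d ∧ ∃ x w y : ℚ, PointQ f d x w y ∧ ConstQ f x w}.Finite := by
  have hsub : ∀ x w : ℚ, {d : ℤ | Squarefree d ∧ ∃ y, PointQ f d x w y}.Subsingleton := by
    rintro x w d ⟨h1, y, hy, h2⟩ d' ⟨h3, y', hy', h4⟩
    exact Pool.Agent.TH213.SP.eq_of h1 h3 hy hy' (h2.trans h4.symm)
  have hfin : ((⋃ t ∈ {t : ℚ | (∀ k, hom (f k) t 1 ≠ 0) ∧ ConstQ f t 1},
      {d : ℤ | Squarefree d ∧ ∃ y, PointQ f d t 1 y}) ∪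
      {d : ℤ | Squarefree d ∧ ∃ y, PointQ f d 1 0 y}).Finite := by
    apply Set.Finite.union
    · exact hF.biUnion fun t _ => (hsub t 1).finite
    · exact (hsub 1 0).finite
  apply hfin.subset
  rintro d ⟨hd, x, w, y, ⟨hy, h⟩, hc⟩
  have hd0 : (d : ℚ) ≠ 0 := by exact_mod_cast hd.ne_zero
  have hprod : ∏ k, hom (f k) x w ≠ 0 := by
    rw [← h]
    exact mul_ne_zero hd0 (pow_ne_zero 2 hy)
  by_cases hw : w = 0
  · right
    subst hw
    by_cases hx : x = 0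
    · subst hx
      exfalso
      obtain ⟨k, hk⟩ := hpos
      apply hprod
      refine prod_eq_zero (mem_univ k) ?_
      have h2 := hom_smul (f k) (0 : ℚ) 0 0
      rw [zero_mul, zero_pow hk.ne', zero_mul] at h2
      exact h2
    refine ⟨hd, y / x ^ n, div_ne_zero hy (pow_ne_zero n hx), ?_⟩
    have h2 : ∏ k, hom (f k) x 0 = (x ^ n) ^ 2 * ∏ k, hom (f k) (1 : ℚ) 0 := by
      have h1 := prod_hom_smul hn x 1 0
      rw [mul_one, mul_zero] at h1
      exact h1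
    rw [h2] at h
    have hxn : x ^ n ≠ 0 := pow_ne_zero n hx
    rw [div_pow]
    field_simp
    linear_combination h
  · left
    have hwn : w ^ n ≠ 0 := pow_ne_zero n hw
    have e1 : w * (x / w) = x := by field_simp
    have h2 : ∏ k, hom (f k) x w = (w ^ n) ^ 2 * ∏ k, hom (f k) (x / w) 1 := by
      have h1 := prod_hom_smul hn w (x / w) 1
      rw [e1, mul_one] at h1
      exact h1
    rw [Set.mem_iUnion₂]
    refine ⟨x / w, ⟨fun k hk => ?_, ?_⟩, hd, y / w ^ n, div_ne_zero hy hwn, ?_⟩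
    · apply hprod
      rw [h2, prod_eq_zero (mem_univ k) hk, mul_zero]
    · have h3 := constQ_smul (1 / w) hc
      have e2 : 1 / w * x = x / w := by ring
      have e3 : 1 / w * w = 1 := by field_simp
      rwa [e2, e3] at h3
    · rw [h2] at h
      rw [div_pow]
      field_simp
      linear_combination h

lemma one_leδ {δ : ℝ} (hδ : 0 < δ) {X : ℕ} (hX : 3 ≤ X) :
    ∃ D : ℝ, 0 ≤ D ∧ ∀ X : ℕ, 3 ≤ X → 1 ≤ D * (X * (Real.log X) ^ (-δ)) := by
  obtain ⟨D, hD⟩ : ∃ D : ℝ, ∀ X : ℕ, 3 ≤ X → (Real.log X) ^ δ ≤ D * X := by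
    have h1 := (isLittleO_log_rpow_rpow_atTop δ (one_pos)).bound (c := 1) one_pos
    rw [Filter.eventually_atTop] at h1
    obtain ⟨a, ha⟩ := h1
    refine ⟨1 + (Real.log (|a| + 3)) ^ δ, fun X hX => ?_⟩
    have hX3 : (3 : ℝ) ≤ X := by exact_mod_cast hX
    have hl : 0 ≤ Real.log X := Real.log_nonneg (by linarith)
    have hp : 0 ≤ (Real.log (|a| + 3)) ^ δ := Real.rpow_nonneg (Real.log_nonneg (by
      have := abs_nonneg a
      linarith)) _
    by_cases h : a ≤ X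
    · have h2 := ha X h
      rw [Real.norm_of_nonneg (Real.rpow_nonneg hl _), Real.rpow_one, one_mul,
        Real.norm_of_nonneg (by linarith)] at h2
      nlinarith
    · have h3 : Real.log X ≤ Real.log (|a| + 3) := by
        apply Real.log_le_log (by linarith)
        have := le_abs_self a
        linarith [not_le.1 h]
      have h4 := Real.rpow_le_rpow hl h3 hδ.le
      nlinarith
  refine ⟨|D|, abs_nonneg _, fun X hX => ?_⟩
  have hX3 : (3 : ℝ) ≤ X := by exact_mod_cast hX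
  have hlog : 0 < Real.log (X : ℝ) := Real.log_pos (by linarith)
  have hlp : 0 < Real.log (X : ℝ) ^ δ := Real.rpow_pos_of_pos hlog _
  rw [Real.rpow_neg hlog.le, ← mul_assoc, ← div_eq_mul_inv, le_div_iff₀ hlp, one_mul]
  refine (hD X hX).trans (mul_le_mul_of_nonneg_right (le_abs_self _) (by linarith))

theorem main2 (f : K → ℤ[X]) (hf : Hyp f)
    (hF : {t : ℚ | (∀ k, hom (f k) t 1 ≠ 0) ∧ ConstQ f t 1}.Finite) :
    ∃ δ : ℝ, 0 < δ ∧ ∃ C : ℝ, ∀ X : ℕ, 3 ≤ X →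
    ({d : ℤ | d.natAbs ≤ X ∧ Squarefree d ∧ ∃ x w y : ℚ, PointQ f d x w y}.ncard : ℝ) ≤
      C * X * (Real.log X) ^ (-δ) := by
  obtain ⟨δ, hδ, C, hC⟩ := main f hf
  obtain ⟨n, hn⟩ := hf.even
  have hpos : ∃ k, 0 < (f k).natDegree := by
    have h1 : 0 < (Od f).card := by have := hf.four; omega
    obtain ⟨k, hk⟩ := card_pos.1 h1
    unfold Od at hk
    rw [mem_filter] at hk
    exact ⟨k, hk.2.pos⟩
  have hfin := finite_constQ (by omega : ∑ k, (f k).natDegree = 2 * n) hpos hF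
  obtain ⟨D, hD0, hD⟩ := one_leδ hδ (le_refl 3)
  set M : ℝ := ({d : ℤ | Squarefree d ∧ ∃ x w y : ℚ, PointQ f d x w y ∧
    ConstQ f x w}.ncard : ℝ) with hM
  have hM0 : 0 ≤ M := Nat.cast_nonneg _
  refine ⟨δ, hδ, C + M * D, fun X hX => ?_⟩
  have h1 : {d : ℤ | d.natAbs ≤ X ∧ Squarefree d ∧ ∃ x w y : ℚ, PointQ f d x w y} ⊆
      {d : ℤ | d.natAbs ≤ X ∧ Squarefree d ∧
        ∃ x w y : ℚ, PointQ f d x w y ∧ ¬ ConstQ f x w} ∪
      {d : ℤ | Squarefree d ∧ ∃ x w y : ℚ, PointQ f d x w y ∧ ConstQ f x w} := by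
    rintro d ⟨h1, h2, x, w, y, h3⟩
    by_cases h4 : ConstQ f x w
    · exact Or.inr ⟨h2, x, w, y, h3, h4⟩
    · exact Or.inl ⟨h1, h2, x, w, y, h3, h4⟩
  have h2 := (Set.ncard_le_ncard h1 ((Pool.Agent.TH213.SP.fin_le X _).union hfin)).trans
    (Set.ncard_union_le _ _)
  have h3 : ({d : ℤ | d.natAbs ≤ X ∧ Squarefree d ∧
      ∃ x w y : ℚ, PointQ f d x w y}.ncard : ℝ) ≤
      ({d : ℤ | d.natAbs ≤ X ∧ Squarefree d ∧
        ∃ x w y : ℚ, PointQ f d x w y ∧ ¬ ConstQ f x w}.ncard : ℝ) + M := by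
    rw [hM]
    exact_mod_cast h2
  have h4 := hC X hX
  have h5 := mul_le_mul_of_nonneg_left (hD X hX) hM0
  calc _ ≤ C * X * (Real.log X) ^ (-δ) + M * (D * (X * (Real.log X) ^ (-δ))) := by linarith
    _ = _ := by ring

end K

end Pool.Agent.Y488.TM
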