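import Mathlib

/-!
# Project TM (helper488): an intersective example with five factors of degrees 2, 3, 3, 3, 3
-/

set_option autoImplicit false

namespace Pool.Agent.Y488.TM

open Polynomial

/-- `X² + X + 1`, `X³ - 2`, `X³ - 3`, `X³ - 5`, `X³ - 19` -/
noncomputable def gE : Fin 5 → ℤ[X] :=
  ![X ^ 2 + X + 1, X ^ 3 - 2, X ^ 3 - 3, X ^ 3 - 5, X ^ 3 - 19]

/-- EXA: algebra of the example -/
def EXA : Prop :=
  (∀ k, Irreducible ((gE k).map (Int.castRingHom ℚ))) ∧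
  (∀ k l, k ≠ l →
    ¬ Associated ((gE k).map (Int.castRingHom ℚ)) ((gE l).map (Int.castRingHom ℚ))) ∧
  (gE 0).natDegree = 2 ∧ (∀ k, k ≠ 0 → (gE k).natDegree = 3)

/-- EXB: there is a root in every completion of `ℚ` -/
def EXB : Prop :=
  (∃ x : ℝ, x ^ 3 = 19) ∧
  ∀ (p : ℕ) [Fact p.Prime], (∃ x : ℚ_[p], x ^ 2 + x + 1 = 0) ∨ ∃ x : ℚ_[p], x ^ 3 = 19

end Pool.Agent.Y488.TM
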