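import Pool.Agent.W623.SecE.Stm
import Pool.Agent.Y488.TM.Stm

/-!
# Project TM (helper488): sections of the twists with mixed factors, statements
-/

set_option autoImplicit false

namespace Pool.Agent.Y488.TM

open Finset Polynomial Pool.Agent.W262.RK Pool.Agent.W262.TW Pool.Agent.W620.SC

universe v w

section K

variable {K : Type} [Fintype K] [DecidableEq K]

/-- the local conditions at `p` for the square classes of the products `∏ k ∈ T, s k`,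
`T` with evenly many factors of odd degree: all are unramified at `p`, or there are a factor `i` with
a zero `b` modulo `p` such that the products with `i ∈ T` are ramified, and those with `i ∉ T` are
unramified and in the square class of `∏ k ∈ T, f k (b)` modulo `p` -/
def CL (f : K → ℤ[X]) (p : ℕ) (s : K → ℤ) : Prop :=
  (∀ T : Finset K, Even (T ∩ Od f).card → ∃ (u : ℤ) (q : ℚ), ¬ (p : ℤ) ∣ u ∧ q ≠ 0 ∧
    ∏ k ∈ T, (s k : ℚ) = u * q ^ 2) ∨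
  ∃ (i : K) (b : ℤ), (p : ℤ) ∣ (f i).eval b ∧ ∀ T : Finset K, Even (T ∩ Od f).card →
    (i ∈ T → ∃ (u : ℤ) (q : ℚ), ¬ (p : ℤ) ∣ u ∧ q ≠ 0 ∧ ∏ k ∈ T, (s k : ℚ) = p * u * q ^ 2) ∧
    (i ∉ T → ∃ (u : ℤ) (q : ℚ), ¬ (p : ℤ) ∣ u ∧ q ≠ 0 ∧ ∏ k ∈ T, (s k : ℚ) = u * q ^ 2 ∧
      jacobiSym (u * ∏ k ∈ T, (f k).eval b) p = 1)

/-- square classes of nonconstant type for the twist by `d` -/
def BadC (f : K → ℤ[X]) (z1 : ℕ) (d : ℤ) : Prop := ∃ s : K → ℤ, (∀ k, s k ≠ 0) ∧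
  IsSquare (d * ∏ k, s k) ∧ (∀ p : ℕ, p.Prime → z1 < p → CL f p s) ∧
  NCG (val f) (Ln f) (Od f) s

end K

/-- REDC: reduction of the twists with square classes of nonconstant type to tuples (adapt
`Y488/TM/RedL.lean`) -/
def REDC : Prop := ∀ (K : Type) [Fintype K] [DecidableEq K] (f : K → ℤ[X]),
  (∀ k, Irreducible ((f k).map (Int.castRingHom ℚ))) →
  (∀ k l, k ≠ l → ¬ Associated ((f k).map (Int.castRingHom ℚ)) ((f l).map (Int.castRingHom ℚ))) →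
  4 ≤ (Od f).card → Even (Od f).card → ∀ z1 : ℕ,
  ∃ z0 : ℕ, ∀ z, z0 ≤ z → ∀ X : ℕ,
    {d : ℤ | d.natAbs ≤ X ∧ Squarefree d ∧ BadC f z1 d}.ncard ≤
      (EE z).card * ∑ κ ∈ Fintype.piFinset (fun _ : K => EE z),
        cntG z X κ (Tog (Od f) (Th f)) (val f) (Ln f) (Od f)

/-- ARITHM: from sections to square classes over the rational numbers (adapt `W405/S3/Arith.lean`) -/
def ARITHM : Prop := ∀ (K : Type) [Fintype K] [DecidableEq K] (f : K → ℤ[X]),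
  (∀ k, Irreducible ((f k).map (Int.castRingHom ℚ))) →
  (∀ k l, k ≠ l → ¬ Associated ((f k).map (Int.castRingHom ℚ)) ((f l).map (Int.castRingHom ℚ))) →
  Even (∑ k, (f k).natDegree) → 4 ≤ (Od f).card → ∃ z0 : ℕ, ∀ d : ℤ, Squarefree d →
  ∀ (F : Type v) (Ω : Type w) [Field F] [Field Ω] [Algebra ℚ F]
    [Algebra F Ω] [Algebra ℚ Ω] [IsScalarTower ℚ F Ω] [IsAlgClosed Ω] [Algebra.IsAlgebraic F Ω]
    (U : Set (ValuationSubring F)), (∀ O ∈ U, ∀ c : ℚ, algebraMap ℚ F c ∈ O) →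
    ∀ (G : GSection ℚ F Ω U) (x y : F), (d : F) * y ^ 2 = ∏ k, aeval x (f k) →
      (∃ x' y' : ℚ, (d : ℚ) * y' ^ 2 = ∏ k, hom (f k) x' 1) ∨
      ∃ s : K → ℤ, (∀ k, s k ≠ 0) ∧ IsSquare (d * ∏ k, s k) ∧
        (∀ p : ℕ, p.Prime → z0 < p → CL f p s) ∧
        ∀ T : Finset K, Even (T ∩ Od f).card → ∃ β : unramified F Ω U,
          (∀ σ, G.toHom σ β = β) ∧
          algebraMap ℚ Ω (∏ k ∈ T, (s k : ℚ)) * (β : Ω) ^ 2 =
            algebraMap F Ω (∏ k ∈ T, aeval x (f k))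

/-- square classes for the products of even degree, with fixed square roots -/
def Roots {K : Type} [Fintype K] [DecidableEq K] (f : K → ℤ[X]) {F : Type v} {Ω : Type w} [Field F]
    [Field Ω] [Algebra ℚ F] [Algebra F Ω] [Algebra ℚ Ω] [IsScalarTower ℚ F Ω]
    {U : Set (ValuationSubring F)} (G : GSection ℚ F Ω U) (x : F) (s : K → ℤ) : Prop :=
  ∀ T : Finset K, Even (T ∩ Od f).card → ∃ β : unramified F Ω U, (∀ σ, G.toHom σ β = β) ∧
    algebraMap ℚ Ω (∏ k ∈ T, (s k : ℚ)) * (β : Ω) ^ 2 =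
      algebraMap F Ω (∏ k ∈ T, aeval x (f k))

/-- ARG: the global part -/
def ARG : Prop := ∀ (K : Type) [Fintype K] [DecidableEq K] (f : K → ℤ[X]),
  (∀ k, Irreducible ((f k).map (Int.castRingHom ℚ))) →
  (∀ k l, k ≠ l → ¬ Associated ((f k).map (Int.castRingHom ℚ)) ((f l).map (Int.castRingHom ℚ))) →
  Even (∑ k, (f k).natDegree) → (Od f).Nonempty → ∀ d : ℤ, d ≠ 0 →
  ∀ (F : Type v) (Ω : Type w) [Field F] [Field Ω] [Algebra ℚ F]
    [Algebra F Ω] [Algebra ℚ Ω] [IsScalarTower ℚ F Ω] [IsAlgClosed Ω] [Algebra.IsAlgebraic F Ω]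
    (U : Set (ValuationSubring F)), (∀ O ∈ U, ∀ c : ℚ, algebraMap ℚ F c ∈ O) →
    ∀ (G : GSection ℚ F Ω U) (x y : F), (d : F) * y ^ 2 = ∏ k, aeval x (f k) →
      Transcendental ℚ x →
      ∃ s : K → ℤ, (∀ k, s k ≠ 0) ∧ IsSquare (d * ∏ k, s k) ∧ Roots f G x s

/-- ARL: the local part -/
def ARL : Prop := ∀ (K : Type) [Fintype K] [DecidableEq K] (f : K → ℤ[X]),
  (∀ k, Irreducible ((f k).map (Int.castRingHom ℚ))) →
  (∀ k l, k ≠ l → ¬ Associated ((f k).map (Int.castRingHom ℚ)) ((f l).map (Int.castRingHom ℚ))) →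
  Even (∑ k, (f k).natDegree) → 4 ≤ (Od f).card → ∃ z0 : ℕ, ∀ d : ℤ, Squarefree d →
  ∀ (F : Type v) (Ω : Type w) [Field F] [Field Ω] [Algebra ℚ F]
    [Algebra F Ω] [Algebra ℚ Ω] [IsScalarTower ℚ F Ω] [IsAlgClosed Ω] [Algebra.IsAlgebraic F Ω]
    (U : Set (ValuationSubring F)), (∀ O ∈ U, ∀ c : ℚ, algebraMap ℚ F c ∈ O) →
    ∀ (G : GSection ℚ F Ω U) (x y : F), (d : F) * y ^ 2 = ∏ k, aeval x (f k) →
      Transcendental ℚ x → ∀ s : K → ℤ, (∀ k, s k ≠ 0) → Roots f G x s →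
      ∀ p : ℕ, p.Prime → z0 < p → CL f p s

end Pool.Agent.Y488.TM
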